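import Mathlib

/-!
# Calculus on the unit sphere of `ℝ³` through rotation fields

`Sph` is the unit sphere. `SS` is the algebra of smooth functions on it. `X i : SS → SS` is the
derivation given by the rotation about the `i`-th axis.
-/

set_option autoImplicit false

open MeasureTheory Metric Set
open scoped ContDiff Topology

namespace Pool.Agent.helper68.S2

abbrev E3 := EuclideanSpace ℝ (Fin 3)

/-- the unit sphere -/
abbrev Sph := sphere (0 : E3) 1

theorem norm_sph (p : Sph) : ‖(p : E3)‖ = 1 := by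
  have := p.2
  rwa [mem_sphere_zero_iff_norm] at this

theorem sph_ne_zero (p : Sph) : (p : E3) ≠ 0 := by
  intro h
  have := norm_sph p
  rw [h, norm_zero] at this
  exact zero_ne_one this

/-- radial projection -/
noncomputable def proj (x : E3) : Sph :=
  if h : x ≠ 0 then ⟨‖x‖⁻¹ • x, by
    rw [mem_sphere_zero_iff_norm, norm_smul, norm_inv, norm_norm]
    exact inv_mul_cancel₀ (norm_ne_zero_iff.mpr h)⟩
  else ⟨EuclideanSpace.single 0 1, by simp⟩

theorem proj_coe {x : E3} (h : x ≠ 0) : (proj x : E3) = ‖x‖⁻¹ • x := by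
  unfold proj
  rw [dif_pos h]

theorem proj_sph (p : Sph) : proj (p : E3) = p := by
  apply Subtype.ext
  rw [proj_coe (sph_ne_zero p), norm_sph p, inv_one, one_smul]

theorem proj_smul {r : ℝ} (hr : 0 < r) (x : E3) : proj (r • x) = proj x := by
  by_cases h : x = 0
  · rw [h, smul_zero]
  · have h2 : r • x ≠ 0 := smul_ne_zero hr.ne' h
    apply Subtype.ext
    rw [proj_coe h2, proj_coe h, norm_smul, Real.norm_eq_abs, abs_of_pos hr, smul_smul, mul_inv,
      mul_assoc, mul_comm ‖x‖⁻¹ r, ← mul_assoc, inv_mul_cancel₀ hr.ne', one_mul]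

/-- 0-homogeneous extension of a function on the sphere -/
noncomputable def ext (f : Sph → ℝ) (x : E3) : ℝ := f (proj x)

theorem ext_sph (f : Sph → ℝ) (p : Sph) : ext f (p : E3) = f p := by
  unfold ext
  rw [proj_sph]

theorem ext_smul (f : Sph → ℝ) {r : ℝ} (hr : 0 < r) (x : E3) : ext f (r • x) = ext f x := by
  unfold ext
  rw [proj_smul hr]

theorem isOpen_Om : IsOpen {x : E3 | x ≠ 0} := isOpen_ne

/-- the algebra of smooth functions on the sphere -/
def SS : Subalgebra ℝ (Sph → ℝ) where
  carrier := {f | ContDiffOn ℝ ∞ (ext f) {x : E3 | x ≠ 0}}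
  mul_mem' := by
    intro f g hf hg
    exact ContDiffOn.mul hf hg
  add_mem' := by
    intro f g hf hg
    exact ContDiffOn.add hf hg
  algebraMap_mem' := by
    intro r
    exact contDiffOn_const

instance : CoeFun SS (fun _ => Sph → ℝ) := ⟨fun f => f.1⟩

theorem mem_SS (f : Sph → ℝ) : f ∈ SS ↔ ContDiffOn ℝ ∞ (ext f) {x : E3 | x ≠ 0} := Iff.rfl

theorem contDiffOn_ext (f : SS) : ContDiffOn ℝ ∞ (ext f) {x : E3 | x ≠ 0} := f.2

theorem contDiffAt_ext (f : SS) {x : E3} (hx : x ≠ 0) : ContDiffAt ℝ ∞ (ext f) x :=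
  (f.2 x hx).contDiffAt (isOpen_Om.mem_nhds hx)

theorem differentiableAt_ext (f : SS) {x : E3} (hx : x ≠ 0) : DifferentiableAt ℝ (ext f) x :=
  (contDiffAt_ext f hx).differentiableAt (by simp)

/-- the linear vector field `x ↦ e_i × x` -/
noncomputable def cr (i : Fin 3) : E3 →L[ℝ] E3 :=
  LinearMap.toContinuousLinearMap
    { toFun := fun x => (![!₂[0, -x 2, x 1], !₂[x 2, 0, -x 0], !₂[-x 1, x 0, 0]] : Fin 3 → E3) i
      map_add' := by
        intro x y
        fin_cases i <;> ext j <;> fin_cases j <;> simp <;> ring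
      map_smul' := by
        intro c x
        fin_cases i <;> ext j <;> fin_cases j <;> simp }

theorem cr_apply (i : Fin 3) (x : E3) :
    cr i x = (![!₂[0, -x 2, x 1], !₂[x 2, 0, -x 0], !₂[-x 1, x 0, 0]] : Fin 3 → E3) i := rfl

theorem cr0 (x : E3) : cr 0 x = !₂[0, -x 2, x 1] := rfl
theorem cr1 (x : E3) : cr 1 x = !₂[x 2, 0, -x 0] := rfl
theorem cr2 (x : E3) : cr 2 x = !₂[-x 1, x 0, 0] := rfl

/-- homogeneity of the derivative of a 0-homogeneous extension -/
theorem fderiv_ext_smul (f : Sph → ℝ) {r : ℝ} (hr : 0 < r) (x v : E3) :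
    fderiv ℝ (ext f) (r • x) (r • v) = fderiv ℝ (ext f) x v := by
  have h : ext f = fun y => ext f (r • y) := by
    funext y
    rw [ext_smul f hr]
  by_cases hd : DifferentiableAt ℝ (ext f) (r • x)
  · have h1 : HasFDerivAt (fun y : E3 => r • y) (r • ContinuousLinearMap.id ℝ E3) x :=
      (hasFDerivAt_id x).const_smul r
    have h2 : HasFDerivAt (fun y => ext f (r • y))
        ((fderiv ℝ (ext f) (r • x)).comp (r • ContinuousLinearMap.id ℝ E3)) x :=
      hd.hasFDerivAt.comp x h1
    rw [← h] at h2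
    rw [h2.fderiv]
    simp
  · have hd' : ¬ DifferentiableAt ℝ (ext f) x := by
      intro hx
      apply hd
      have h0 : DifferentiableAt ℝ (ext f) (r⁻¹ • (r • x)) := by
        rw [smul_smul, inv_mul_cancel₀ hr.ne', one_smul]
        exact hx
      have h00 : DifferentiableAt ℝ (fun y : E3 => r⁻¹ • y) (r • x) :=
        differentiableAt_id.const_smul r⁻¹
      have h1 : DifferentiableAt ℝ (fun y : E3 => ext f (r⁻¹ • y)) (r • x) :=
        DifferentiableAt.comp (g := ext f) (f := fun y : E3 => r⁻¹ • y) (r • x) h0 h00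
      have h3 : ext f = fun y => ext f (r⁻¹ • y) := by
        funext y
        rw [ext_smul f (inv_pos.mpr hr)]
      rw [h3]
      exact h1
    rw [fderiv_zero_of_not_differentiableAt hd, fderiv_zero_of_not_differentiableAt hd']
    rfl

/-- derivative along the rotation field, as a function on the sphere -/
noncomputable def Xf (i : Fin 3) (f : Sph → ℝ) (p : Sph) : ℝ := fderiv ℝ (ext f) p (cr i p)

theorem ext_Xf (i : Fin 3) (f : Sph → ℝ) {x : E3} (hx : x ≠ 0) :
    ext (Xf i f) x = fderiv ℝ (ext f) x (cr i x) := by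
  have hpos : 0 < ‖x‖ := norm_pos_iff.mpr hx
  have h := fderiv_ext_smul f hpos ((proj x : Sph) : E3) (cr i ((proj x : Sph) : E3))
  have h2 : ext (Xf i f) x = fderiv ℝ (ext f) ((proj x : Sph) : E3) (cr i ((proj x : Sph) : E3)) :=
    rfl
  rw [h2, ← h, proj_coe hx, ← map_smul, smul_smul, mul_inv_cancel₀ hpos.ne', one_smul]

theorem Xf_mem (i : Fin 3) {f : Sph → ℝ} (hf : f ∈ SS) : Xf i f ∈ SS := by
  rw [mem_SS] at hf ⊢
  have h1 : ContDiffOn ℝ ∞ (fun x => fderiv ℝ (ext f) x (cr i x)) {x : E3 | x ≠ 0} := by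
    apply ContDiffOn.clm_apply
    · exact hf.fderiv_of_isOpen isOpen_Om (by simp)
    · exact (cr i).contDiff.contDiffOn
  exact h1.congr fun x hx => ext_Xf i f hx

theorem ext_add (f g : Sph → ℝ) : ext (f + g) = ext f + ext g := rfl
theorem ext_mul (f g : Sph → ℝ) : ext (f * g) = ext f * ext g := rfl

/-- derivative along the rotation field as a derivation of the algebra of smooth functions -/
noncomputable def X (i : Fin 3) : Derivation ℝ SS SS :=
  Derivation.mk'
    { toFun := fun f => ⟨Xf i f, Xf_mem i f.2⟩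
      map_add' := by
        intro f g
        apply Subtype.ext
        funext p
        change fderiv ℝ (ext f + ext g) p (cr i p) = _
        rw [fderiv_add (differentiableAt_ext f (sph_ne_zero p))
          (differentiableAt_ext g (sph_ne_zero p))]
        rfl
      map_smul' := by
        intro c f
        apply Subtype.ext
        funext p
        change fderiv ℝ (c • ext f) p (cr i p) = _
        rw [fderiv_const_smul (differentiableAt_ext f (sph_ne_zero p))]
        rfl }
    (by
      intro f g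
      apply Subtype.ext
      funext p
      change fderiv ℝ (ext f * ext g) p (cr i p) = _
      rw [fderiv_mul (differentiableAt_ext f (sph_ne_zero p))
        (differentiableAt_ext g (sph_ne_zero p))]
      simp only [add_apply, smul_apply, ext_sph]
      rfl)

theorem X_apply (i : Fin 3) (f : SS) (p : Sph) : X i f p = fderiv ℝ (ext f) p (cr i p) := rfl

theorem ext_X (i : Fin 3) (f : SS) {x : E3} (hx : x ≠ 0) :
    ext (X i f) x = fderiv ℝ (ext f) x (cr i x) := ext_Xf i f hx

theorem ssext {f g : SS} (h : ∀ p, f p = g p) : f = g := Subtype.ext (funext h)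

end Pool.Agent.helper68.S2
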