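import Mathlib
import Pool.Agent.helper68.S2.Basic

/-!
# More calculus on the sphere: composition, commutators, Laplacian, coordinates
-/

set_option autoImplicit false

open MeasureTheory Metric Set
open scoped ContDiff Topology

namespace Pool.Agent.helper68.S2

theorem ss_add (f g : SS) (p : Sph) : (f + g) p = f p + g p := rfl
theorem ss_sub (f g : SS) (p : Sph) : (f - g) p = f p - g p := rfl
theorem ss_mul (f g : SS) (p : Sph) : (f * g) p = f p * g p := rfl
theorem ss_neg (f : SS) (p : Sph) : (-f) p = -f p := rfl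
theorem ss_smul (c : ℝ) (f : SS) (p : Sph) : (c • f) p = c * f p := rfl
theorem ss_one (p : Sph) : (1 : SS) p = 1 := rfl
theorem ss_zero (p : Sph) : (0 : SS) p = 0 := rfl
theorem ss_pow (f : SS) (n : ℕ) (p : Sph) : (f ^ n) p = f p ^ n := rfl
theorem ss_algebraMap (c : ℝ) (p : Sph) : (algebraMap ℝ SS c) p = c := rfl
theorem ss_sum {ι : Type*} (s : Finset ι) (f : ι → SS) (p : Sph) :
    (∑ i ∈ s, f i) p = ∑ i ∈ s, f i p := by
  classical
  induction s using Finset.induction_on with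
  | empty => rfl
  | insert a s ha ih =>
    rw [Finset.sum_insert ha, Finset.sum_insert ha, ss_add, ih]

theorem continuous_ss (f : SS) : Continuous (f : Sph → ℝ) := by
  have h1 : (f : Sph → ℝ) = fun p : Sph => ext f (p : E3) := by
    funext p
    rw [ext_sph]
  rw [h1]
  exact (contDiffOn_ext f).continuousOn.comp_continuous continuous_subtype_val
    (fun p => sph_ne_zero p)

/-! ### Composition -/

theorem cmp_mem {φ : ℝ → ℝ} {s : Set ℝ} (hφ : ContDiffOn ℝ ∞ φ s) (f : SS)
    (hf : ∀ p, f p ∈ s) : (fun p => φ (f p)) ∈ SS := by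
  rw [mem_SS]
  have : ext (fun p => φ (f p)) = φ ∘ ext f := rfl
  rw [this]
  exact hφ.comp (contDiffOn_ext f) fun x _ => hf (proj x)

open Classical in
/-- composition of a real function with a smooth function on the sphere (`0` if not smooth) -/
noncomputable def cmp (φ : ℝ → ℝ) (f : SS) : SS :=
  if h : (fun p => φ (f p)) ∈ SS then ⟨fun p => φ (f p), h⟩ else 0

theorem cmp_apply {φ : ℝ → ℝ} {s : Set ℝ} (hφ : ContDiffOn ℝ ∞ φ s) (f : SS)
    (hf : ∀ p, f p ∈ s) (p : Sph) : cmp φ f p = φ (f p) := by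
  unfold cmp
  rw [dif_pos (cmp_mem hφ f hf)]

theorem X_cmp {φ : ℝ → ℝ} {s : Set ℝ} (hs : IsOpen s) (hφ : ContDiffOn ℝ ∞ φ s) (f : SS)
    (hf : ∀ p, f p ∈ s) (i : Fin 3) (p : Sph) : X i (cmp φ f) p = deriv φ (f p) * X i f p := by
  have h1 : ext (cmp φ f) = φ ∘ ext f := by
    funext x
    exact cmp_apply hφ f hf (proj x)
  rw [X_apply, X_apply, h1]
  have h2 : DifferentiableAt ℝ φ (ext f p) := by
    have := hf p
    rw [ext_sph]
    exact ((hφ (f p) this).contDiffAt (hs.mem_nhds this)).differentiableAt (by simp)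
  rw [fderiv_comp (p : E3) h2 (differentiableAt_ext f (sph_ne_zero p))]
  rw [ContinuousLinearMap.comp_apply, ext_sph]
  have h3 : ∀ y : ℝ, fderiv ℝ φ (f p) y = deriv φ (f p) * y := by
    intro y
    have := (fderiv ℝ φ (f p)).map_smul y 1
    rw [smul_eq_mul, mul_one] at this
    rw [this, smul_eq_mul, mul_comm]
    rfl
  rw [h3]

/-! ### Second derivatives -/

theorem hasFDerivAt_ext_X (i : Fin 3) (f : SS) {x : E3} (hx : x ≠ 0) :
    HasFDerivAt (ext (X i f))
      ((fderiv ℝ (ext f) x).comp (cr i) + (fderiv ℝ (fderiv ℝ (ext f)) x).flip (cr i x)) x := by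
  have h1 : ext (X i f) =ᶠ[𝓝 x] fun y => fderiv ℝ (ext f) y (cr i y) := by
    filter_upwards [isOpen_Om.mem_nhds hx] with y hy
    exact ext_X i f hy
  have h2 : DifferentiableAt ℝ (fderiv ℝ (ext f)) x :=
    ((contDiffAt_ext f hx).fderiv_right (m := ∞) (by simp)).differentiableAt (by simp)
  exact (h2.hasFDerivAt.clm_apply (cr i).hasFDerivAt).congr_of_eventuallyEq h1

theorem X_X_apply (i j : Fin 3) (f : SS) (p : Sph) :
    X i (X j f) p = fderiv ℝ (ext f) p (cr j (cr i p))
      + fderiv ℝ (fderiv ℝ (ext f)) p (cr i p) (cr j p) := by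
  rw [X_apply, (hasFDerivAt_ext_X j f (sph_ne_zero p)).fderiv]
  simp only [add_apply, ContinuousLinearMap.comp_apply, ContinuousLinearMap.flip_apply]

theorem snd_symm (f : SS) {x : E3} (hx : x ≠ 0) (v w : E3) :
    fderiv ℝ (fderiv ℝ (ext f)) x v w = fderiv ℝ (fderiv ℝ (ext f)) x w v := by
  have h : IsSymmSndFDerivAt ℝ (ext f) x := by
    apply (contDiffAt_ext f hx).isSymmSndFDerivAt
    rw [minSmoothness_of_isRCLikeNormedField]
    exact ENat.LEInfty.out
  exact h v w

theorem comm_apply (i j : Fin 3) (f : SS) (p : Sph) :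
    X i (X j f) p - X j (X i f) p = fderiv ℝ (ext f) p (cr j (cr i p) - cr i (cr j p)) := by
  rw [X_X_apply, X_X_apply, snd_symm f (sph_ne_zero p) (cr i p) (cr j p), map_sub]
  ring

theorem comm01 (f : SS) : X 0 (X 1 f) - X 1 (X 0 f) = - X 2 f := by
  apply ssext
  intro p
  rw [ss_sub, ss_neg, comm_apply, X_apply, ← map_neg]
  congr 1
  ext j
  fin_cases j <;> simp [cr0, cr1, cr2]

theorem comm12 (f : SS) : X 1 (X 2 f) - X 2 (X 1 f) = - X 0 f := by
  apply ssext
  intro p
  rw [ss_sub, ss_neg, comm_apply, X_apply, ← map_neg]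
  congr 1
  ext j
  fin_cases j <;> simp [cr0, cr1, cr2]

theorem comm20 (f : SS) : X 2 (X 0 f) - X 0 (X 2 f) = - X 1 f := by
  apply ssext
  intro p
  rw [ss_sub, ss_neg, comm_apply, X_apply, ← map_neg]
  congr 1
  ext j
  fin_cases j <;> simp [cr0, cr1, cr2]

/-- the Laplace-Beltrami operator -/
noncomputable def Lap : SS →ₗ[ℝ] SS := ∑ i : Fin 3, ((X i : SS →ₗ[ℝ] SS) ∘ₗ (X i : SS →ₗ[ℝ] SS))

theorem Lap_eq (f : SS) : Lap f = X 0 (X 0 f) + X 1 (X 1 f) + X 2 (X 2 f) := by
  unfold Lap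
  simp [Fin.sum_univ_three]

theorem Lap_X (i : Fin 3) (f : SS) : Lap (X i f) = X i (Lap f) := by
  have e01 := comm01
  have e12 := comm12
  have e20 := comm20
  simp only [Lap_eq, map_add]
  fin_cases i
  · -- i = 0
    simp only [Fin.zero_eta, Fin.isValue]
    have a1 : X 1 (X 0 f) = X 0 (X 1 f) + X 2 f := by linear_combination -(e01 f)
    have a2 : X 2 (X 0 f) = X 0 (X 2 f) - X 1 f := by linear_combination e20 f
    rw [a1, a2]
    simp only [map_add, map_sub]
    have b1 : X 1 (X 0 (X 1 f)) = X 0 (X 1 (X 1 f)) + X 2 (X 1 f) := by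
      linear_combination -(e01 (X 1 f))
    have b2 : X 2 (X 0 (X 2 f)) = X 0 (X 2 (X 2 f)) - X 1 (X 2 f) := by
      linear_combination e20 (X 2 f)
    rw [b1, b2]
    ring
  · -- i = 1
    simp only [Fin.mk_one, Fin.isValue]
    have a1 : X 0 (X 1 f) = X 1 (X 0 f) - X 2 f := by linear_combination e01 f
    have a2 : X 2 (X 1 f) = X 1 (X 2 f) + X 0 f := by linear_combination -(e12 f)
    rw [a1, a2]
    simp only [map_add, map_sub]
    have b1 : X 0 (X 1 (X 0 f)) = X 1 (X 0 (X 0 f)) - X 2 (X 0 f) := by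
      linear_combination e01 (X 0 f)
    have b2 : X 2 (X 1 (X 2 f)) = X 1 (X 2 (X 2 f)) + X 0 (X 2 f) := by
      linear_combination -(e12 (X 2 f))
    rw [b1, b2]
    ring
  · -- i = 2
    simp only [Fin.reduceFinMk, Fin.isValue]
    have a1 : X 0 (X 2 f) = X 2 (X 0 f) + X 1 f := by linear_combination -(e20 f)
    have a2 : X 1 (X 2 f) = X 2 (X 1 f) - X 0 f := by linear_combination e12 f
    rw [a1, a2]
    simp only [map_add, map_sub]
    have b1 : X 0 (X 2 (X 0 f)) = X 2 (X 0 (X 0 f)) + X 1 (X 0 f) := by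
      linear_combination -(e20 (X 0 f))
    have b2 : X 1 (X 2 (X 1 f)) = X 2 (X 1 (X 1 f)) - X 0 (X 1 f) := by
      linear_combination e12 (X 1 f)
    rw [b1, b2]
    ring

/-! ### Coordinates -/

/-- the coordinate functions -/
noncomputable def co (i : Fin 3) : SS :=
  ⟨fun p => (p : E3) i, by
    rw [mem_SS]
    have h : ContDiffOn ℝ ∞ (fun x : E3 => ‖x‖⁻¹ * x i) {x : E3 | x ≠ 0} := by
      apply ContDiffOn.mul
      · apply ContDiffOn.inv
        · exact contDiffOn_id.norm ℝ (fun x hx => hx)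
        · intro x hx
          exact norm_ne_zero_iff.mpr hx
      · exact (EuclideanSpace.proj (𝕜 := ℝ) i).contDiff.contDiffOn
    refine h.congr fun x hx => ?_
    change ((proj x : Sph) : E3) i = _
    rw [proj_coe hx]
    rfl⟩

theorem co_apply (i : Fin 3) (p : Sph) : co i p = (p : E3) i := rfl

theorem co_sq (p : Sph) : co 0 p ^ 2 + co 1 p ^ 2 + co 2 p ^ 2 = 1 := by
  have h := norm_sph p
  have h2 : ‖(p : E3)‖ ^ 2 = 1 := by rw [h]; norm_num
  rw [EuclideanSpace.norm_eq, Real.sq_sqrt (by positivity), Fin.sum_univ_three] at h2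
  simp only [Real.norm_eq_abs, sq_abs] at h2
  exact h2

theorem co_sq' : co 0 * co 0 + co 1 * co 1 + co 2 * co 2 = 1 := by
  apply ssext
  intro p
  have := co_sq p
  simp only [ss_add, ss_mul, ss_one]
  linarith

/-- the derivative of a 0-homogeneous function kills the radial direction -/
theorem fderiv_ext_self (f : SS) (p : Sph) : fderiv ℝ (ext f) p (p : E3) = 0 := by
  have h1 : HasFDerivAt (ext f) (fderiv ℝ (ext f) p) ((fun r : ℝ => r • (p : E3)) 1) := by
    simp only [one_smul]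
    exact (differentiableAt_ext f (sph_ne_zero p)).hasFDerivAt
  have h2 : HasDerivAt (fun r : ℝ => r • (p : E3)) ((1 : ℝ) • (p : E3)) 1 :=
    (hasDerivAt_id (1 : ℝ)).smul_const (p : E3)
  have h3 : HasDerivAt (fun r : ℝ => ext f (r • (p : E3))) (fderiv ℝ (ext f) p ((1 : ℝ) • (p : E3))) 1 :=
    HasFDerivAt.comp_hasDerivAt (l := ext f) (f := fun r : ℝ => r • (p : E3)) (1 : ℝ) h1 h2
  have h4 : (fun r : ℝ => ext f (r • (p : E3))) =ᶠ[𝓝 1] fun _ => f p := by
    filter_upwards [lt_mem_nhds (show (0 : ℝ) < 1 by norm_num)] with r hr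
    rw [ext_smul f hr, ext_sph]
  have h5 := h3.congr_of_eventuallyEq h4.symm
  have h6 := h5.unique (hasDerivAt_const (1 : ℝ) (f p))
  rw [one_smul] at h6
  exact h6

theorem co_X_sum (f : SS) : co 0 * X 0 f + co 1 * X 1 f + co 2 * X 2 f = 0 := by
  apply ssext
  intro p
  simp only [ss_add, ss_mul, ss_zero, X_apply, co_apply]
  have : (p : E3) 0 • cr 0 (p : E3) + (p : E3) 1 • cr 1 (p : E3) + (p : E3) 2 • cr 2 (p : E3) = 0 := by
    ext j
    fin_cases j <;> simp [cr0, cr1, cr2] <;> ring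
  have h := congrArg (fderiv ℝ (ext f) (p : E3)) this
  simp only [map_add, map_smul, map_zero, smul_eq_mul] at h
  exact h

end Pool.Agent.helper68.S2
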