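import Mathlib
import Pool.Agent.helper68.S2.Calc

/-!
# Ambient derivatives of the homogeneous extension, great circles
-/

set_option autoImplicit false

open MeasureTheory Metric Set
open scoped ContDiff Topology

namespace Pool.Agent.helper68.S2

/-- second derivative of the extension -/
noncomputable def D2 (f : SS) (x : E3) (v w : E3) : ℝ := fderiv ℝ (fderiv ℝ (ext f)) x v w

/-- first derivative of the extension -/
noncomputable def D1 (f : SS) (x : E3) (v : E3) : ℝ := fderiv ℝ (ext f) x v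

theorem D1_add (f : SS) (x v w : E3) : D1 f x (v + w) = D1 f x v + D1 f x w := map_add _ _ _
theorem D1_smul (f : SS) (x v : E3) (c : ℝ) : D1 f x (c • v) = c * D1 f x v := map_smul _ _ _
theorem D1_neg (f : SS) (x v : E3) : D1 f x (-v) = - D1 f x v := map_neg _ _

theorem D2_add_left (f : SS) (x u v w : E3) : D2 f x (u + v) w = D2 f x u w + D2 f x v w := by
  unfold D2; rw [map_add]; rfl
theorem D2_smul_left (f : SS) (x v w : E3) (c : ℝ) : D2 f x (c • v) w = c * D2 f x v w := by
  unfold D2; rw [map_smul]; rfl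
theorem D2_add_right (f : SS) (x u v w : E3) : D2 f x u (v + w) = D2 f x u v + D2 f x u w :=
  map_add _ _ _
theorem D2_smul_right (f : SS) (x v w : E3) (c : ℝ) : D2 f x v (c • w) = c * D2 f x v w :=
  map_smul _ _ _
theorem D2_symm (f : SS) {x : E3} (hx : x ≠ 0) (v w : E3) : D2 f x v w = D2 f x w v :=
  snd_symm f hx v w

theorem differentiableAt_fderiv_ext (f : SS) {x : E3} (hx : x ≠ 0) :
    DifferentiableAt ℝ (fderiv ℝ (ext f)) x :=
  ((contDiffAt_ext f hx).fderiv_right (m := ∞) (by simp)).differentiableAt (by simp)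

theorem D1_self (f : SS) (p : Sph) : D1 f p p = 0 := fderiv_ext_self f p

theorem D2_self (f : SS) (p : Sph) (v : E3) : D2 f p p v = - D1 f p v := by
  have h1 : HasFDerivAt (fderiv ℝ (ext f)) (fderiv ℝ (fderiv ℝ (ext f)) p)
      ((fun r : ℝ => r • (p : E3)) 1) := by
    simp only [one_smul]
    exact (differentiableAt_fderiv_ext f (sph_ne_zero p)).hasFDerivAt
  have h2 : HasDerivAt (fun r : ℝ => r • (p : E3)) ((1 : ℝ) • (p : E3)) 1 :=
    (hasDerivAt_id (1 : ℝ)).smul_const (p : E3)
  have h3 : HasDerivAt (fun r : ℝ => fderiv ℝ (ext f) (r • (p : E3)))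
      (fderiv ℝ (fderiv ℝ (ext f)) p ((1 : ℝ) • (p : E3))) 1 :=
    HasFDerivAt.comp_hasDerivAt (l := fderiv ℝ (ext f)) (f := fun r : ℝ => r • (p : E3)) (1 : ℝ)
      h1 h2
  have h2' : HasDerivAt (fun r : ℝ => r • v) ((1 : ℝ) • v) 1 :=
    (hasDerivAt_id (1 : ℝ)).smul_const v
  have h4 := h3.clm_apply h2'
  simp only [one_smul] at h4
  have h5 : (fun r : ℝ => fderiv ℝ (ext f) (r • (p : E3)) (r • v)) =ᶠ[𝓝 1]
      fun _ => fderiv ℝ (ext f) (p : E3) v := by
    filter_upwards [lt_mem_nhds (show (0 : ℝ) < 1 by norm_num)] with r hr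
    rw [fderiv_ext_smul f hr]
  have h6 := h4.congr_of_eventuallyEq h5.symm
  have h7 := h6.unique (hasDerivAt_const (1 : ℝ) _)
  unfold D2 D1
  linarith

theorem X_D1 (i : Fin 3) (f : SS) (p : Sph) : X i f p = D1 f p (cr i p) := rfl

theorem X_X_D (i j : Fin 3) (f : SS) (p : Sph) :
    X i (X j f) p = D1 f p (cr j (cr i p)) + D2 f p (cr i p) (cr j p) := X_X_apply i j f p

/-- the Laplace-Beltrami operator through ambient derivatives -/
theorem Lap_D2 (f : SS) (p : Sph) :
    Lap f p = ∑ i : Fin 3, D2 f p (EuclideanSpace.single i 1) (EuclideanSpace.single i 1) := by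
  rw [Lap_eq, ss_add, ss_add, X_X_D, X_X_D, X_X_D, Fin.sum_univ_three]
  set e0 : E3 := EuclideanSpace.single 0 1 with he0
  set e1 : E3 := EuclideanSpace.single 1 1 with he1
  set e2 : E3 := EuclideanSpace.single 2 1 with he2
  set x := (p : E3) 0 with hx
  set y := (p : E3) 1 with hy
  set z := (p : E3) 2 with hz
  have hc0 : cr 0 (p : E3) = (-z) • e1 + y • e2 := by
    ext j; fin_cases j <;> simp [cr0, he1, he2, hy, hz]
  have hc1 : cr 1 (p : E3) = z • e0 + (-x) • e2 := by
    ext j; fin_cases j <;> simp [cr1, he0, he2, hx, hz]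
  have hc2 : cr 2 (p : E3) = (-y) • e0 + x • e1 := by
    ext j; fin_cases j <;> simp [cr2, he0, he1, hx, hy]
  have hp : (p : E3) = x • e0 + y • e1 + z • e2 := by
    ext j; fin_cases j <;> simp [he0, he1, he2, hx, hy, hz]
  have hs : D1 f p (cr 0 (cr 0 p)) + D1 f p (cr 1 (cr 1 p)) + D1 f p (cr 2 (cr 2 p)) = 0 := by
    rw [← D1_add, ← D1_add]
    have : cr 0 (cr 0 (p : E3)) + cr 1 (cr 1 p) + cr 2 (cr 2 p) = (-2 : ℝ) • (p : E3) := by
      ext j; fin_cases j <;> simp [cr0, cr1, cr2] <;> ring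
    rw [this, D1_smul, D1_self, mul_zero]
  have hsq : x ^ 2 + y ^ 2 + z ^ 2 = 1 := co_sq p
  have hne := sph_ne_zero p
  have h00 : D2 f p p p = 0 := by
    rw [D2_self, D1_self, neg_zero]
  have hpp : D2 f p p p = x ^ 2 * D2 f p e0 e0 + y ^ 2 * D2 f p e1 e1 + z ^ 2 * D2 f p e2 e2
      + 2 * (x * y) * D2 f p e0 e1 + 2 * (x * z) * D2 f p e0 e2 + 2 * (y * z) * D2 f p e1 e2 := by
    have : D2 f p p p = D2 f p (x • e0 + y • e1 + z • e2) (x • e0 + y • e1 + z • e2) := by
      rw [← hp]
    rw [this]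
    simp only [D2_add_left, D2_add_right, D2_smul_left, D2_smul_right]
    rw [D2_symm f hne e1 e0, D2_symm f hne e2 e0, D2_symm f hne e2 e1]
    ring
  have k0 : D2 f p (cr 0 p) (cr 0 p) = z ^ 2 * D2 f p e1 e1 + y ^ 2 * D2 f p e2 e2
      - 2 * (y * z) * D2 f p e1 e2 := by
    rw [hc0]
    simp only [D2_add_left, D2_add_right, D2_smul_left, D2_smul_right]
    rw [D2_symm f hne e2 e1]
    ring
  have k1 : D2 f p (cr 1 p) (cr 1 p) = z ^ 2 * D2 f p e0 e0 + x ^ 2 * D2 f p e2 e2
      - 2 * (x * z) * D2 f p e0 e2 := by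
    rw [hc1]
    simp only [D2_add_left, D2_add_right, D2_smul_left, D2_smul_right]
    rw [D2_symm f hne e2 e0]
    ring
  have k2 : D2 f p (cr 2 p) (cr 2 p) = y ^ 2 * D2 f p e0 e0 + x ^ 2 * D2 f p e1 e1
      - 2 * (x * y) * D2 f p e0 e1 := by
    rw [hc2]
    simp only [D2_add_left, D2_add_right, D2_smul_left, D2_smul_right]
    rw [D2_symm f hne e1 e0]
    ring
  rw [k0, k1, k2]
  rw [h00] at hpp
  linear_combination hs + hpp + (D2 f p e0 e0 + D2 f p e1 e1 + D2 f p e2 e2) * hsq

theorem Lap_iteratedFDeriv (f : SS) (p : Sph) :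
    Lap f p = ∑ i : Fin 3, iteratedFDeriv ℝ 2 (ext f) p
      ![EuclideanSpace.single i (1:ℝ), EuclideanSpace.single i (1:ℝ)] := by
  rw [Lap_D2]
  apply Finset.sum_congr rfl
  intro i _
  rw [iteratedFDeriv_two_apply]
  rfl

/-- The Laplacian through any orthonormal basis. -/
theorem Lap_basis (f : SS) (p : Sph) (b : OrthonormalBasis (Fin 3) ℝ E3) :
    Lap f p = ∑ i : Fin 3, D2 f p (b i) (b i) := by
  rw [Lap_iteratedFDeriv]
  have h1 := congrFun (InnerProductSpace.laplacian_eq_iteratedFDeriv_orthonormalBasis (ext f)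
    (EuclideanSpace.basisFun (Fin 3) ℝ)) (p : E3)
  have h2 := congrFun (InnerProductSpace.laplacian_eq_iteratedFDeriv_orthonormalBasis (ext f) b)
    (p : E3)
  rw [h1] at h2
  simp only [EuclideanSpace.basisFun_apply] at h2
  rw [h2]
  apply Finset.sum_congr rfl
  intro i _
  rw [iteratedFDeriv_two_apply]
  rfl

/-- The Laplacian through two tangent directions. -/
theorem Lap_frame (f : SS) (p : Sph) (e₁ e₂ : E3) (h : Orthonormal ℝ ![(p : E3), e₁, e₂]) :
    Lap f p = D2 f p e₁ e₁ + D2 f p e₂ e₂ := by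
  have hcard : Fintype.card (Fin 3) = Module.finrank ℝ E3 := by simp
  let b : OrthonormalBasis (Fin 3) ℝ E3 :=
    OrthonormalBasis.mk h (by
      have := (h.linearIndependent.span_eq_top_of_card_eq_finrank hcard)
      rw [this])
  have hb : ∀ i, b i = ![(p : E3), e₁, e₂] i := fun i => by
    simp [b]
  rw [Lap_basis f p b, Fin.sum_univ_three, hb, hb, hb]
  simp only [Matrix.cons_val_zero, Matrix.cons_val_one, Matrix.cons_val]
  rw [D2_self, D1_self]
  ring

/-! ### Great circles -/

/-- the great circle through `x` with unit tangent `e`, run at speed `a` -/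
noncomputable def gc (x e : E3) (a : ℝ) (s : ℝ) : E3 := Real.cos (a * s) • x + Real.sin (a * s) • e

theorem gc_zero (x e : E3) (a : ℝ) : gc x e a 0 = x := by simp [gc]

theorem hasDerivAt_gc (x e : E3) (a s : ℝ) :
    HasDerivAt (gc x e a) (-(a * Real.sin (a * s)) • x + (a * Real.cos (a * s)) • e) s := by
  have h0 : HasDerivAt (fun s : ℝ => a * s) a s := by
    simpa using (hasDerivAt_id s).const_mul a
  have h1 : HasDerivAt (fun s : ℝ => Real.cos (a * s)) (-(a * Real.sin (a * s))) s :=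
    ((Real.hasDerivAt_cos (a * s)).comp s h0).congr_deriv (by ring)
  have h2 : HasDerivAt (fun s : ℝ => Real.sin (a * s)) (a * Real.cos (a * s)) s :=
    ((Real.hasDerivAt_sin (a * s)).comp s h0).congr_deriv (by ring)
  exact (h1.smul_const x).add (h2.smul_const e)

theorem norm_gc {x e : E3} (hx : ‖x‖ = 1) (he : ‖e‖ = 1) (hxe : inner ℝ x e = 0) (a s : ℝ) :
    ‖gc x e a s‖ = 1 := by
  have h : ‖gc x e a s‖ ^ 2 = 1 := by
    unfold gc
    rw [← real_inner_self_eq_norm_sq]
    rw [inner_add_left, inner_add_right, inner_add_right, real_inner_smul_left,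
      real_inner_smul_left, real_inner_smul_left, real_inner_smul_left, real_inner_smul_right,
      real_inner_smul_right, real_inner_smul_right, real_inner_smul_right,
      real_inner_self_eq_norm_sq, real_inner_self_eq_norm_sq, hx, he, real_inner_comm x e, hxe]
    have := Real.sin_sq_add_cos_sq (a * s)
    linear_combination this
  nlinarith [norm_nonneg (gc x e a s)]

/-- the great circle as a map into the sphere -/
noncomputable def gcs (x : Sph) (e : E3) (he : ‖e‖ = 1) (hxe : inner ℝ (x : E3) e = 0) (a s : ℝ) :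
    Sph := ⟨gc x e a s, by
      rw [mem_sphere_zero_iff_norm]
      exact norm_gc (norm_sph x) he hxe a s⟩

theorem hasDerivAt_ext_gc (f : SS) (x e : E3) (hx : ‖x‖ = 1) (he : ‖e‖ = 1)
    (hxe : inner ℝ x e = 0) (a s : ℝ) :
    HasDerivAt (fun s => ext f (gc x e a s))
      (D1 f (gc x e a s) (-(a * Real.sin (a * s)) • x + (a * Real.cos (a * s)) • e)) s := by
  have hne : gc x e a s ≠ 0 := by
    intro h
    have := norm_gc hx he hxe a s
    rw [h, norm_zero] at this
    exact zero_ne_one this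
  exact HasFDerivAt.comp_hasDerivAt (l := ext f) (f := gc x e a) s
    (differentiableAt_ext f hne).hasFDerivAt (hasDerivAt_gc x e a s)

/-- the second derivative along a great circle at `0` -/
theorem hasDerivAt_deriv_gc (f : SS) (x : Sph) (e : E3) (a : ℝ) :
    HasDerivAt (fun s => D1 f (gc x e a s) (-(a * Real.sin (a * s)) • (x : E3)
      + (a * Real.cos (a * s)) • e)) (a ^ 2 * D2 f x e e) 0 := by
  have hne : gc x e a 0 ≠ 0 := by
    rw [gc_zero]
    exact sph_ne_zero x
  have h1 : HasDerivAt (fun s => fderiv ℝ (ext f) (gc x e a s))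
      (fderiv ℝ (fderiv ℝ (ext f)) (gc x e a 0) (-(a * Real.sin (a * 0)) • (x : E3)
        + (a * Real.cos (a * 0)) • e)) 0 :=
    HasFDerivAt.comp_hasDerivAt (l := fderiv ℝ (ext f)) (f := gc x e a) (0 : ℝ)
      (differentiableAt_fderiv_ext f hne).hasFDerivAt (hasDerivAt_gc x e a 0)
  have h0 : HasDerivAt (fun s : ℝ => a * s) a 0 := by
    simpa using (hasDerivAt_id (0 : ℝ)).const_mul a
  have h2 : HasDerivAt (fun s : ℝ => -(a * Real.sin (a * s))) (-(a * (Real.cos (a * 0) * a))) 0 :=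
    (((Real.hasDerivAt_sin (a * 0)).comp 0 h0).const_mul a).neg
  have h3 : HasDerivAt (fun s : ℝ => a * Real.cos (a * s)) (a * (-Real.sin (a * 0) * a)) 0 :=
    ((Real.hasDerivAt_cos (a * 0)).comp 0 h0).const_mul a
  have h4 : HasDerivAt (fun s : ℝ => -(a * Real.sin (a * s)) • (x : E3)
      + (a * Real.cos (a * s)) • e) (-(a * (Real.cos (a * 0) * a)) • (x : E3)
      + (a * (-Real.sin (a * 0) * a)) • e) 0 := (h2.smul_const (x : E3)).add (h3.smul_const e)
  have h5 := h1.clm_apply h4
  refine h5.congr_deriv ?_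
  simp only [mul_zero, Real.sin_zero, Real.cos_zero, gc_zero, neg_zero, zero_smul, zero_add,
    mul_one, one_mul, zero_mul, add_zero]
  change D2 f x (a • e) (a • e) + D1 f x (-(a * a) • (x : E3)) = _
  rw [D2_smul_right, D2_smul_left, D1_smul, D1_self]
  ring

end Pool.Agent.helper68.S2
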