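import Mathlib
import Pool.Agent.helper68.S2.Calc

/-!
# Rotations of the sphere and the invariant integral
-/

set_option autoImplicit false

open MeasureTheory Metric Set
open scoped ContDiff Topology Pointwise

namespace Pool.Agent.helper68.S2

theorem hasDerivAt_euclidean' {f : ℝ → E3} {f' : E3} {t : ℝ}
    (h : ∀ j, HasDerivAt (fun s => f s j) (f' j) t) : HasDerivAt f f' t := by
  have h1 : HasDerivAt (fun s => (PiLp.continuousLinearEquiv 2 ℝ (fun _ : Fin 3 => ℝ)) (f s))
      ((PiLp.continuousLinearEquiv 2 ℝ (fun _ : Fin 3 => ℝ)) f') t := hasDerivAt_pi.2 h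
  have h2 := ((PiLp.continuousLinearEquiv 2 ℝ (fun _ : Fin 3 => ℝ)).symm :
    (Fin 3 → ℝ) →L[ℝ] E3).hasFDerivAt.comp_hasDerivAt t h1
  exact h2

/-- rotation by the angle `t` about the `i`-th axis, as a linear map -/
noncomputable def rotL (i : Fin 3) (t : ℝ) : E3 →ₗ[ℝ] E3 :=
  { toFun := fun x => (![!₂[x 0, Real.cos t * x 1 - Real.sin t * x 2,
          Real.sin t * x 1 + Real.cos t * x 2],
        !₂[Real.cos t * x 0 + Real.sin t * x 2, x 1, -Real.sin t * x 0 + Real.cos t * x 2],
        !₂[Real.cos t * x 0 - Real.sin t * x 1, Real.sin t * x 0 + Real.cos t * x 1, x 2]]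
        : Fin 3 → E3) i
    map_add' := by
      intro x y
      fin_cases i <;> ext j <;> fin_cases j <;> simp <;> ring
    map_smul' := by
      intro c x
      fin_cases i <;> ext j <;> fin_cases j <;> simp <;> ring }

theorem norm_rotL (i : Fin 3) (t : ℝ) (x : E3) : ‖rotL i t x‖ = ‖x‖ := by
  rw [EuclideanSpace.norm_eq, EuclideanSpace.norm_eq]
  congr 1
  rw [Fin.sum_univ_three, Fin.sum_univ_three]
  have hc := Real.sin_sq_add_cos_sq t
  simp only [Real.norm_eq_abs, sq_abs]
  fin_cases i
  · have e0 : rotL 0 t x 0 = x 0 := rfl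
    have e1 : rotL 0 t x 1 = Real.cos t * x 1 - Real.sin t * x 2 := rfl
    have e2 : rotL 0 t x 2 = Real.sin t * x 1 + Real.cos t * x 2 := rfl
    simp only [Fin.zero_eta, Fin.isValue, e0, e1, e2]
    linear_combination (x 1 ^ 2 + x 2 ^ 2) * hc
  · have e0 : rotL 1 t x 0 = Real.cos t * x 0 + Real.sin t * x 2 := rfl
    have e1 : rotL 1 t x 1 = x 1 := rfl
    have e2 : rotL 1 t x 2 = -Real.sin t * x 0 + Real.cos t * x 2 := rfl
    simp only [Fin.mk_one, Fin.isValue, e0, e1, e2]
    linear_combination (x 0 ^ 2 + x 2 ^ 2) * hc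
  · have e0 : rotL 2 t x 0 = Real.cos t * x 0 - Real.sin t * x 1 := rfl
    have e1 : rotL 2 t x 1 = Real.sin t * x 0 + Real.cos t * x 1 := rfl
    have e2 : rotL 2 t x 2 = x 2 := rfl
    simp only [Fin.reduceFinMk, Fin.isValue, e0, e1, e2]
    linear_combination (x 0 ^ 2 + x 1 ^ 2) * hc

/-- rotation as a linear isometry equivalence -/
noncomputable def rot (i : Fin 3) (t : ℝ) : E3 ≃ₗᵢ[ℝ] E3 :=
  LinearIsometry.toLinearIsometryEquiv ⟨rotL i t, norm_rotL i t⟩ rfl

theorem rot_apply (i : Fin 3) (t : ℝ) (x : E3) : rot i t x = rotL i t x := rfl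

theorem rot_zero (i : Fin 3) (x : E3) : rot i 0 x = x := by
  rw [rot_apply]
  ext j
  fin_cases i <;> fin_cases j <;> simp [rotL]

theorem hasDerivAt_rot (i : Fin 3) (x : E3) (t : ℝ) :
    HasDerivAt (fun s => rot i s x) (cr i (rot i t x)) t := by
  have hc := Real.hasDerivAt_cos t
  have hs := Real.hasDerivAt_sin t
  apply hasDerivAt_euclidean'
  intro j
  fin_cases i
  · fin_cases j
    · change HasDerivAt (fun _ => x 0) 0 t
      exact hasDerivAt_const _ _
    · change HasDerivAt (fun s => Real.cos s * x 1 - Real.sin s * x 2)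
        (-(Real.sin t * x 1 + Real.cos t * x 2)) t
      exact ((hc.mul_const (x 1)).sub (hs.mul_const (x 2))).congr_deriv (by ring)
    · change HasDerivAt (fun s => Real.sin s * x 1 + Real.cos s * x 2)
        (Real.cos t * x 1 - Real.sin t * x 2) t
      exact ((hs.mul_const (x 1)).add (hc.mul_const (x 2))).congr_deriv (by ring)
  · fin_cases j
    · change HasDerivAt (fun s => Real.cos s * x 0 + Real.sin s * x 2)
        (-Real.sin t * x 0 + Real.cos t * x 2) t
      exact (hc.mul_const (x 0)).add (hs.mul_const (x 2))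
    · change HasDerivAt (fun _ => x 1) 0 t
      exact hasDerivAt_const _ _
    · change HasDerivAt (fun s => -Real.sin s * x 0 + Real.cos s * x 2)
        (-(Real.cos t * x 0 + Real.sin t * x 2)) t
      exact ((hs.neg.mul_const (x 0)).add (hc.mul_const (x 2))).congr_deriv (by ring)
  · fin_cases j
    · change HasDerivAt (fun s => Real.cos s * x 0 - Real.sin s * x 1)
        (-(Real.sin t * x 0 + Real.cos t * x 1)) t
      exact ((hc.mul_const (x 0)).sub (hs.mul_const (x 1))).congr_deriv (by ring)
    · change HasDerivAt (fun s => Real.sin s * x 0 + Real.cos s * x 1)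
        (Real.cos t * x 0 - Real.sin t * x 1) t
      exact ((hs.mul_const (x 0)).add (hc.mul_const (x 1))).congr_deriv (by ring)
    · change HasDerivAt (fun _ => x 2) 0 t
      exact hasDerivAt_const _ _

/-- a linear isometry acting on the sphere -/
noncomputable def act (R : E3 ≃ₗᵢ[ℝ] E3) (p : Sph) : Sph :=
  ⟨R p, by rw [mem_sphere_zero_iff_norm, R.norm_map]; exact norm_sph p⟩

theorem act_coe (R : E3 ≃ₗᵢ[ℝ] E3) (p : Sph) : (act R p : E3) = R p := rfl

theorem continuous_act (R : E3 ≃ₗᵢ[ℝ] E3) : Continuous (act R) :=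
  Continuous.subtype_mk (R.continuous.comp continuous_subtype_val) _

theorem rot_act_zero (i : Fin 3) (p : Sph) : act (rot i 0) p = p :=
  Subtype.ext (rot_zero i p)

/-- derivative of a smooth function along the orbits of a rotation -/
theorem hasDerivAt_act_rot (i : Fin 3) (f : SS) (p : Sph) (t : ℝ) :
    HasDerivAt (fun s => f (act (rot i s) p)) (X i f (act (rot i t) p)) t := by
  have h1 : (fun s => f (act (rot i s) p)) = fun s => ext f (rot i s p) := by
    funext s
    rw [← act_coe, ext_sph]
  rw [h1, X_apply]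
  exact HasFDerivAt.comp_hasDerivAt (l := ext f) (f := fun s => rot i s (p : E3)) t
    (differentiableAt_ext f (sph_ne_zero (act (rot i t) p))).hasFDerivAt (hasDerivAt_rot i p t)

/-- surface measure -/
noncomputable abbrev σ : Measure Sph := (volume : Measure E3).toSphere

theorem measurePreserving_act (R : E3 ≃ₗᵢ[ℝ] E3) : MeasurePreserving (act R) σ σ := by
  refine ⟨(continuous_act R).measurable, ?_⟩
  ext s hs
  rw [Measure.map_apply (continuous_act R).measurable hs,
    Measure.toSphere_apply' _ hs,
    Measure.toSphere_apply' _ ((continuous_act R).measurable hs)]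
  congr 1
  have hR : MeasurePreserving R volume volume := R.measurePreserving
  have key : Ioo (0 : ℝ) 1 • ((↑) '' (act R ⁻¹' s) : Set E3) =
      R ⁻¹' (Ioo (0 : ℝ) 1 • ((↑) '' s : Set E3)) := by
    ext x
    constructor
    · rintro ⟨r, hr, _, ⟨p, hp, rfl⟩, rfl⟩
      exact ⟨r, hr, _, ⟨act R p, hp, rfl⟩, by simp [act_coe]⟩
    · rintro ⟨r, hr, _, ⟨q, hq, rfl⟩, hx⟩
      refine ⟨r, hr, _, ⟨act R.symm q, ?_, rfl⟩, ?_⟩
      · have : act R (act R.symm q) = q := Subtype.ext (by rw [act_coe, act_coe]; simp)
        rw [mem_preimage, this]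
        exact hq
      · rw [act_coe]
        change r • R.symm q = x
        simp only at hx
        rw [← map_smul, hx]
        simp
  rw [key]
  exact hR.measure_preimage_emb R.toHomeomorph.measurableEmbedding _

theorem integrable_ss (f : SS) : Integrable (f : Sph → ℝ) σ :=
  (continuous_ss f).integrable_of_hasCompactSupport (HasCompactSupport.of_compactSpace _)

theorem integrable_cont {f : Sph → ℝ} (hf : Continuous f) : Integrable f σ :=
  hf.integrable_of_hasCompactSupport (HasCompactSupport.of_compactSpace _)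

/-- integral over the sphere -/
noncomputable def I : SS →ₗ[ℝ] ℝ where
  toFun f := ∫ p, f p ∂σ
  map_add' f g := integral_add (integrable_ss f) (integrable_ss g)
  map_smul' c _f := integral_const_mul c _

theorem I_apply (f : SS) : I f = ∫ p, f p ∂σ := rfl

theorem integral_act (R : E3 ≃ₗᵢ[ℝ] E3) {f : Sph → ℝ} (hf : Continuous f) :
    ∫ p, f (act R p) ∂σ = ∫ p, f p ∂σ := by
  have h := integral_map (μ := σ) (continuous_act R).aemeasurable
    (f := f) hf.aestronglyMeasurable
  rw [(measurePreserving_act R).map_eq] at h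
  exact h.symm

/-- **Rotation invariance, infinitesimally.** -/
theorem I_X (i : Fin 3) (f : SS) : I (X i f) = 0 := by
  have hcont : Continuous fun z : ℝ × Sph => X i f (act (rot i z.1) z.2) := by
    apply (continuous_ss (X i f)).comp
    apply Continuous.subtype_mk
    change Continuous fun z : ℝ × Sph => rotL i z.1 (z.2 : E3)
    have hc : Continuous fun z : ℝ × Sph => (z.2 : E3) := continuous_subtype_val.comp continuous_snd
    have h0 : ∀ j : Fin 3, Continuous fun z : ℝ × Sph => (z.2 : E3) j := fun j =>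
      (EuclideanSpace.proj (𝕜 := ℝ) j).continuous.comp hc
    have hcos : Continuous fun z : ℝ × Sph => Real.cos z.1 := Real.continuous_cos.comp continuous_fst
    have hsin : Continuous fun z : ℝ × Sph => Real.sin z.1 := Real.continuous_sin.comp continuous_fst
    rw [← (PiLp.continuousLinearEquiv 2 ℝ (fun _ : Fin 3 => ℝ)).comp_continuous_iff]
    rw [continuous_pi_iff]
    intro j
    fin_cases i
    · fin_cases j
      · exact h0 0
      · exact (hcos.mul (h0 1)).sub (hsin.mul (h0 2))
      · exact (hsin.mul (h0 1)).add (hcos.mul (h0 2))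
    · fin_cases j
      · exact (hcos.mul (h0 0)).add (hsin.mul (h0 2))
      · exact h0 1
      · exact (hsin.neg.mul (h0 0)).add (hcos.mul (h0 2))
    · fin_cases j
      · exact (hcos.mul (h0 0)).sub (hsin.mul (h0 1))
      · exact (hsin.mul (h0 0)).add (hcos.mul (h0 1))
      · exact h0 2
  obtain ⟨C, hC⟩ : ∃ C, ∀ p : Sph, ‖X i f p‖ ≤ C := by
    obtain ⟨C, hC⟩ := (isCompact_univ (X := Sph)).exists_bound_of_continuousOn
      (continuous_ss (X i f)).continuousOn
    exact ⟨C, fun p => hC p (mem_univ p)⟩
  have h1 : HasDerivAt (fun s => ∫ p, f (act (rot i s) p) ∂σ)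
      (∫ p, X i f (act (rot i 0) p) ∂σ) 0 := by
    have := hasDerivAt_integral_of_dominated_loc_of_deriv_le (μ := σ)
      (F := fun s p => f (act (rot i s) p)) (F' := fun s p => X i f (act (rot i s) p))
      (x₀ := (0 : ℝ)) (s := Set.univ) (bound := fun _ => C) Filter.univ_mem
      (Filter.Eventually.of_forall fun s =>
        ((continuous_ss f).comp (continuous_act _)).aestronglyMeasurable)
      (integrable_cont ((continuous_ss f).comp (continuous_act _)))
      ((continuous_ss (X i f)).comp (continuous_act _)).aestronglyMeasurable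
      (Filter.Eventually.of_forall fun p s _ => hC _)
      (integrable_const C)
      (Filter.Eventually.of_forall fun p s _ => hasDerivAt_act_rot i f p s)
    exact this.2
  have h2 : (fun s => ∫ p, f (act (rot i s) p) ∂σ) = fun _ => ∫ p, f p ∂σ := by
    funext s
    exact integral_act _ (continuous_ss f)
  rw [h2] at h1
  have h3 := h1.unique (hasDerivAt_const (0 : ℝ) (∫ p, f p ∂σ))
  rw [I_apply, ← h3]
  congr 1
  funext p
  rw [rot_act_zero]

end Pool.Agent.helper68.S2
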