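import Mathlib
import Pool.Agent.helper68.S2.Rot

/-!
# Curves of smooth functions on the sphere

`CCn J n u` : the curve `u` is continuous in `(t,p)` on `J × Sph` with all `X`-words of length
at most `n`.
`CDn J n u v` : for each `t ∈ J` the curve `u` has the time derivative `v t` (within `J`),
pointwise on the sphere, for all `X`-words of length at most `n`.
-/

set_option autoImplicit false

open MeasureTheory Metric Set Filter
open scoped ContDiff Topology

namespace Pool.Agent.helper68.S2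

/-- iterated derivatives: the first letter acts first -/
noncomputable def Xw : List (Fin 3) → SS → SS
  | [], f => f
  | i :: w, f => Xw w (X i f)

theorem Xw_nil (f : SS) : Xw [] f = f := rfl
theorem Xw_cons (i : Fin 3) (w : List (Fin 3)) (f : SS) : Xw (i :: w) f = Xw w (X i f) := rfl

theorem Xw_add (w : List (Fin 3)) (f g : SS) : Xw w (f + g) = Xw w f + Xw w g := by
  induction w generalizing f g with
  | nil => rfl
  | cons i w ih => rw [Xw_cons, map_add, ih, Xw_cons, Xw_cons]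

theorem X_smul (i : Fin 3) (c : ℝ) (f : SS) : X i (c • f) = c • X i f := (X i).map_smul c f

theorem Xw_smul (w : List (Fin 3)) (c : ℝ) (f : SS) : Xw w (c • f) = c • Xw w f := by
  induction w generalizing f with
  | nil => rfl
  | cons i w ih => rw [Xw_cons, X_smul, ih, Xw_cons]

theorem Xw_neg (w : List (Fin 3)) (f : SS) : Xw w (-f) = - Xw w f := by
  induction w generalizing f with
  | nil => rfl
  | cons i w ih => rw [Xw_cons, map_neg, ih, Xw_cons]

theorem Xw_sub (w : List (Fin 3)) (f g : SS) : Xw w (f - g) = Xw w f - Xw w g := by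
  rw [sub_eq_add_neg, Xw_add, Xw_neg, ← sub_eq_add_neg]

theorem Xw_zero (w : List (Fin 3)) : Xw w 0 = 0 := by
  have := Xw_smul w 0 0
  rw [zero_smul] at this
  rw [this, zero_smul]

theorem Xw_append (w w' : List (Fin 3)) (f : SS) : Xw (w ++ w') f = Xw w' (Xw w f) := by
  induction w generalizing f with
  | nil => rfl
  | cons i w ih => rw [List.cons_append, Xw_cons, ih, Xw_cons]

theorem Lap_Xw (w : List (Fin 3)) (f : SS) : Lap (Xw w f) = Xw w (Lap f) := by
  induction w generalizing f with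
  | nil => rfl
  | cons i w ih => rw [Xw_cons, ih, Lap_X, ← Xw_cons]

/-- joint continuity with derivatives up to order `n` -/
def CCn (J : Set ℝ) : ℕ → (ℝ → SS) → Prop
  | 0, u => ContinuousOn (fun z : ℝ × Sph => u z.1 z.2) (J ×ˢ univ)
  | n + 1, u => ContinuousOn (fun z : ℝ × Sph => u z.1 z.2) (J ×ˢ univ) ∧
      ∀ i, CCn J n (fun t => X i (u t))

/-- joint continuity with all derivatives -/
def CC (J : Set ℝ) (u : ℝ → SS) : Prop := ∀ n, CCn J n u

/-- time derivative with derivatives up to order `n` -/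
def CDn (J : Set ℝ) : ℕ → (ℝ → SS) → (ℝ → SS) → Prop
  | 0, u, v => ∀ t ∈ J, ∀ p, HasDerivWithinAt (fun s => u s p) (v t p) J t
  | n + 1, u, v => (∀ t ∈ J, ∀ p, HasDerivWithinAt (fun s => u s p) (v t p) J t) ∧
      ∀ i, CDn J n (fun t => X i (u t)) (fun t => X i (v t))

/-- time derivative with all derivatives -/
def CD (J : Set ℝ) (u v : ℝ → SS) : Prop := ∀ n, CDn J n u v

variable {J K : Set ℝ}

theorem CCn.zero {n : ℕ} {u : ℝ → SS} (h : CCn J n u) :
    ContinuousOn (fun z : ℝ × Sph => u z.1 z.2) (J ×ˢ univ) := by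
  cases n with
  | zero => exact h
  | succ n => exact h.1

theorem CDn.zero {n : ℕ} {u v : ℝ → SS} (h : CDn J n u v) {t : ℝ} (ht : t ∈ J) (p : Sph) :
    HasDerivWithinAt (fun s => u s p) (v t p) J t := by
  cases n with
  | zero => exact h t ht p
  | succ n => exact h.1 t ht p

theorem CCn.of_succ {n : ℕ} {u : ℝ → SS} (h : CCn J (n + 1) u) : CCn J n u := by
  induction n generalizing u with
  | zero => exact h.1
  | succ n ih => exact ⟨h.1, fun i => ih (h.2 i)⟩

theorem CDn.of_succ {n : ℕ} {u v : ℝ → SS} (h : CDn J (n + 1) u v) : CDn J n u v := by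
  induction n generalizing u v with
  | zero => exact h.1
  | succ n ih => exact ⟨h.1, fun i => ih (h.2 i)⟩

theorem CCn.mono {n : ℕ} {u : ℝ → SS} (h : CCn J n u) (hK : K ⊆ J) : CCn K n u := by
  induction n generalizing u with
  | zero => exact ContinuousOn.mono h (prod_mono hK subset_rfl)
  | succ n ih => exact ⟨h.1.mono (prod_mono hK subset_rfl), fun i => ih (h.2 i)⟩

theorem CDn.mono {n : ℕ} {u v : ℝ → SS} (h : CDn J n u v) (hK : K ⊆ J) : CDn K n u v := by
  induction n generalizing u v with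
  | zero => exact fun t ht p => (h t (hK ht) p).mono hK
  | succ n ih => exact ⟨fun t ht p => (h.1 t (hK ht) p).mono hK, fun i => ih (h.2 i)⟩

theorem CC.mono {u : ℝ → SS} (h : CC J u) (hK : K ⊆ J) : CC K u := fun n => (h n).mono hK
theorem CD.mono {u v : ℝ → SS} (h : CD J u v) (hK : K ⊆ J) : CD K u v := fun n => (h n).mono hK

theorem CC.X {u : ℝ → SS} (h : CC J u) (i : Fin 3) : CC J (fun t => X i (u t)) :=
  fun n => (h (n + 1)).2 i
theorem CD.X {u v : ℝ → SS} (h : CD J u v) (i : Fin 3) :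
    CD J (fun t => X i (u t)) (fun t => X i (v t)) := fun n => (h (n + 1)).2 i

theorem CC.of_X {u : ℝ → SS} (h : ContinuousOn (fun z : ℝ × Sph => u z.1 z.2) (J ×ˢ univ))
    (h' : ∀ i, CC J (fun t => S2.X i (u t))) : CC J u := by
  intro n
  cases n with
  | zero => exact h
  | succ n => exact ⟨h, fun i => h' i n⟩

theorem CC.Xw {u : ℝ → SS} (h : CC J u) (w : List (Fin 3)) : CC J (fun t => Xw w (u t)) := by
  induction w generalizing u with
  | nil => exact h
  | cons i w ih => exact ih (h.X i)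

theorem CD.Xw {u v : ℝ → SS} (h : CD J u v) (w : List (Fin 3)) :
    CD J (fun t => Xw w (u t)) (fun t => Xw w (v t)) := by
  induction w generalizing u v with
  | nil => exact h
  | cons i w ih => exact ih (h.X i)

theorem CC.of_words {u : ℝ → SS}
    (h : ∀ w, ContinuousOn (fun z : ℝ × Sph => S2.Xw w (u z.1) z.2) (J ×ˢ univ)) : CC J u := by
  intro n
  induction n generalizing u with
  | zero => exact h []
  | succ n ih => exact ⟨h [], fun i => ih fun w => h (i :: w)⟩

theorem CD.of_words {u v : ℝ → SS}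
    (h : ∀ w, ∀ t ∈ J, ∀ p, HasDerivWithinAt (fun s => S2.Xw w (u s) p) (S2.Xw w (v t) p) J t) :
    CD J u v := by
  intro n
  induction n generalizing u v with
  | zero => exact h []
  | succ n ih => exact ⟨h [], fun i => ih fun w => h (i :: w)⟩

/-! ### Closure properties, continuity -/

theorem CCn.const (f : SS) (n : ℕ) : CCn J n (fun _ => f) := by
  have h : ∀ g : SS, ContinuousOn (fun z : ℝ × Sph => g z.2) (J ×ˢ univ) := fun g =>
    ((continuous_ss g).comp continuous_snd).continuousOn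
  induction n generalizing f with
  | zero => exact h f
  | succ n ih => exact ⟨h f, fun i => ih (X i f)⟩

theorem CCn.add {n : ℕ} {u v : ℝ → SS} (hu : CCn J n u) (hv : CCn J n v) :
    CCn J n (fun t => u t + v t) := by
  induction n generalizing u v with
  | zero => exact ContinuousOn.add hu hv
  | succ n ih =>
    refine ⟨hu.1.add hv.1, fun i => ?_⟩
    simp only [map_add]
    exact ih (hu.2 i) (hv.2 i)

theorem CCn.neg {n : ℕ} {u : ℝ → SS} (hu : CCn J n u) : CCn J n (fun t => - u t) := by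
  induction n generalizing u with
  | zero => exact ContinuousOn.neg hu
  | succ n ih =>
    refine ⟨hu.1.neg, fun i => ?_⟩
    simp only [map_neg]
    exact ih (hu.2 i)

theorem CCn.sub {n : ℕ} {u v : ℝ → SS} (hu : CCn J n u) (hv : CCn J n v) :
    CCn J n (fun t => u t - v t) := by
  simp only [sub_eq_add_neg]
  exact hu.add hv.neg

theorem X_mul (i : Fin 3) (f g : SS) : X i (f * g) = X i f * g + f * X i g := by
  rw [(X i).leibniz]
  simp only [smul_eq_mul]
  ring

theorem CCn.mul {n : ℕ} {u v : ℝ → SS} (hu : CCn J n u) (hv : CCn J n v) :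
    CCn J n (fun t => u t * v t) := by
  induction n generalizing u v with
  | zero => exact ContinuousOn.mul hu hv
  | succ n ih =>
    refine ⟨hu.1.mul hv.1, fun i => ?_⟩
    simp only [X_mul]
    exact (ih (hu.2 i) hv.of_succ).add (ih hu.of_succ (hv.2 i))

theorem CCn.smul {n : ℕ} {a : ℝ → ℝ} {u : ℝ → SS} (ha : ContinuousOn a J) (hu : CCn J n u) :
    CCn J n (fun t => a t • u t) := by
  have key : ∀ {u : ℝ → SS}, ContinuousOn (fun z : ℝ × Sph => u z.1 z.2) (J ×ˢ univ) →
      ContinuousOn (fun z : ℝ × Sph => (a z.1 • u z.1) z.2) (J ×ˢ univ) := fun h =>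
    (ha.comp continuous_fst.continuousOn (fun z hz => hz.1)).mul h
  induction n generalizing u with
  | zero => exact key hu
  | succ n ih =>
    refine ⟨key hu.1, fun i => ?_⟩
    simp only [X_smul]
    exact ih (hu.2 i)

theorem CCn.congr {n : ℕ} {u v : ℝ → SS} (hu : CCn J n u) (h : ∀ t ∈ J, v t = u t) :
    CCn J n v := by
  have key : ∀ {u v : ℝ → SS}, ContinuousOn (fun z : ℝ × Sph => u z.1 z.2) (J ×ˢ univ) →
      (∀ t ∈ J, v t = u t) → ContinuousOn (fun z : ℝ × Sph => v z.1 z.2) (J ×ˢ univ) := by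
    intro u v h1 h2
    exact h1.congr fun z hz => by rw [h2 z.1 hz.1]
  induction n generalizing u v with
  | zero => exact key hu h
  | succ n ih => exact ⟨key hu.1 h, fun i => ih (hu.2 i) fun t ht => by rw [h t ht]⟩

theorem CCn.cmp {n : ℕ} {u : ℝ → SS} {s : Set ℝ} (hs : IsOpen s) {φ : ℝ → ℝ}
    (hφ : ContDiffOn ℝ ∞ φ s) (hus : ∀ t ∈ J, ∀ p, u t p ∈ s) (hu : CCn J n u) :
    CCn J n (fun t => cmp φ (u t)) := by
  have key : ∀ {φ : ℝ → ℝ}, ContDiffOn ℝ ∞ φ s →
      ContinuousOn (fun z : ℝ × Sph => S2.cmp φ (u z.1) z.2) (J ×ˢ univ) := by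
    intro φ hφ
    have h1 : ContinuousOn (fun z : ℝ × Sph => φ (u z.1 z.2)) (J ×ˢ univ) :=
      hφ.continuousOn.comp hu.zero (fun z hz => hus z.1 hz.1 z.2)
    exact h1.congr fun z hz => cmp_apply hφ (u z.1) (fun p => hus z.1 hz.1 p) z.2
  induction n generalizing φ with
  | zero => exact key hφ
  | succ n ih =>
    refine ⟨key hφ, fun i => ?_⟩
    have hφ' : ContDiffOn ℝ ∞ (deriv φ) s := hφ.deriv_of_isOpen hs (by simp)
    have h1 : CCn J n (fun t => S2.cmp (deriv φ) (u t) * S2.X i (u t)) :=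
      (ih hφ' hu.of_succ).mul (hu.2 i)
    refine h1.congr fun t ht => ?_
    apply ssext
    intro p
    rw [X_cmp hs hφ (u t) (fun p => hus t ht p), ss_mul, cmp_apply hφ' (u t) (fun p => hus t ht p)]

/-! ### Closure properties, time derivative -/

theorem CDn.congr {n : ℕ} {u v u' v' : ℝ → SS} (hu : CDn J n u v) (h : ∀ t ∈ J, u' t = u t)
    (h' : ∀ t ∈ J, v' t = v t) : CDn J n u' v' := by
  have key : ∀ {u v u' v' : ℝ → SS}, (∀ t ∈ J, ∀ p, HasDerivWithinAt (fun s => u s p) (v t p) J t) →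
      (∀ t ∈ J, u' t = u t) → (∀ t ∈ J, v' t = v t) →
      (∀ t ∈ J, ∀ p, HasDerivWithinAt (fun s => u' s p) (v' t p) J t) := by
    intro u v u' v' h1 h2 h3 t ht p
    rw [h3 t ht]
    exact (h1 t ht p).congr (fun s hs => by rw [h2 s hs]) (by rw [h2 t ht])
  induction n generalizing u v u' v' with
  | zero => exact key hu h h'
  | succ n ih => exact ⟨key hu.1 h h', fun i => ih (hu.2 i) (fun t ht => by rw [h t ht])
      (fun t ht => by rw [h' t ht])⟩

theorem CDn.const (f : SS) (n : ℕ) : CDn J n (fun _ => f) (fun _ => 0) := by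
  induction n generalizing f with
  | zero => exact fun t _ p => hasDerivWithinAt_const _ _ _
  | succ n ih =>
    refine ⟨fun t _ p => hasDerivWithinAt_const _ _ _, fun i => ?_⟩
    simp only [map_zero]
    exact ih (X i f)

theorem CDn.add {n : ℕ} {u v u' v' : ℝ → SS} (hu : CDn J n u u') (hv : CDn J n v v') :
    CDn J n (fun t => u t + v t) (fun t => u' t + v' t) := by
  induction n generalizing u v u' v' with
  | zero => exact fun t ht p => (hu t ht p).add (hv t ht p)
  | succ n ih =>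
    refine ⟨fun t ht p => (hu.1 t ht p).add (hv.1 t ht p), fun i => ?_⟩
    simp only [map_add]
    exact ih (hu.2 i) (hv.2 i)

theorem CDn.neg {n : ℕ} {u u' : ℝ → SS} (hu : CDn J n u u') :
    CDn J n (fun t => - u t) (fun t => - u' t) := by
  induction n generalizing u u' with
  | zero => exact fun t ht p => (hu t ht p).neg
  | succ n ih =>
    refine ⟨fun t ht p => (hu.1 t ht p).neg, fun i => ?_⟩
    simp only [map_neg]
    exact ih (hu.2 i)

theorem CDn.sub {n : ℕ} {u v u' v' : ℝ → SS} (hu : CDn J n u u') (hv : CDn J n v v') :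
    CDn J n (fun t => u t - v t) (fun t => u' t - v' t) := by
  simp only [sub_eq_add_neg]
  exact hu.add hv.neg

theorem CDn.mul {n : ℕ} {u v u' v' : ℝ → SS} (hu : CDn J n u u') (hv : CDn J n v v') :
    CDn J n (fun t => u t * v t) (fun t => u' t * v t + u t * v' t) := by
  induction n generalizing u v u' v' with
  | zero => exact fun t ht p => (hu t ht p).mul (hv t ht p)
  | succ n ih =>
    refine ⟨fun t ht p => (hu.1 t ht p).mul (hv.1 t ht p), fun i => ?_⟩
    simp only [X_mul, map_add]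
    refine ((ih (hu.2 i) hv.of_succ).add (ih hu.of_succ (hv.2 i))).congr (fun t _ => rfl)
      (fun t _ => ?_)
    ring

theorem CDn.smul {n : ℕ} {a a' : ℝ → ℝ} {u u' : ℝ → SS}
    (ha : ∀ t ∈ J, HasDerivWithinAt a (a' t) J t) (hu : CDn J n u u') :
    CDn J n (fun t => a t • u t) (fun t => a' t • u t + a t • u' t) := by
  induction n generalizing u u' with
  | zero => exact fun t ht p => (ha t ht).mul (hu t ht p)
  | succ n ih =>
    refine ⟨fun t ht p => (ha t ht).mul (hu.1 t ht p), fun i => ?_⟩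
    simp only [X_smul, map_add]
    exact ih (hu.2 i)

theorem CDn.cmp {n : ℕ} {u u' : ℝ → SS} {s : Set ℝ} (hs : IsOpen s) {φ : ℝ → ℝ}
    (hφ : ContDiffOn ℝ ∞ φ s) (hus : ∀ t ∈ J, ∀ p, u t p ∈ s) (hu : CDn J n u u') :
    CDn J n (fun t => cmp φ (u t)) (fun t => S2.cmp (deriv φ) (u t) * u' t) := by
  have key : ∀ {φ : ℝ → ℝ}, ContDiffOn ℝ ∞ φ s →
      ∀ t ∈ J, ∀ p, HasDerivWithinAt (fun r => S2.cmp φ (u r) p)
        ((S2.cmp (deriv φ) (u t) * u' t) p) J t := by
    intro φ hφ t ht p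
    have hφ' : ContDiffOn ℝ ∞ (deriv φ) s := hφ.deriv_of_isOpen hs (by simp)
    have h0 : HasDerivAt φ (deriv φ (u t p)) (u t p) :=
      (((hφ (u t p) (hus t ht p)).contDiffAt (hs.mem_nhds (hus t ht p))).differentiableAt
        (by simp)).hasDerivAt
    have h1 : HasDerivWithinAt (fun r => φ (u r p)) (deriv φ (u t p) * u' t p) J t :=
      h0.comp_hasDerivWithinAt t (hu.zero ht p)
    rw [ss_mul, cmp_apply hφ' (u t) (fun p => hus t ht p)]
    exact h1.congr (fun r hr => cmp_apply hφ (u r) (fun p => hus r hr p) p)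
      (cmp_apply hφ (u t) (fun p => hus t ht p) p)
  induction n generalizing φ with
  | zero => exact key hφ
  | succ n ih =>
    refine ⟨key hφ, fun i => ?_⟩
    have hφ' : ContDiffOn ℝ ∞ (deriv φ) s := hφ.deriv_of_isOpen hs (by simp)
    have hφ'' : ContDiffOn ℝ ∞ (deriv (deriv φ)) s := hφ'.deriv_of_isOpen hs (by simp)
    have hX : ∀ {φ : ℝ → ℝ}, ContDiffOn ℝ ∞ φ s → ∀ t ∈ J,
        S2.X i (S2.cmp φ (u t)) = S2.cmp (deriv φ) (u t) * S2.X i (u t) := by
      intro φ hφ t ht
      have hφ' : ContDiffOn ℝ ∞ (deriv φ) s := hφ.deriv_of_isOpen hs (by simp)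
      apply ssext
      intro p
      rw [X_cmp hs hφ (u t) (fun p => hus t ht p), ss_mul,
        cmp_apply hφ' (u t) (fun p => hus t ht p)]
    have h1 := (ih hφ' hu.of_succ).mul (hu.2 i)
    refine h1.congr (fun t ht => hX hφ t ht) fun t ht => ?_
    rw [X_mul, hX hφ' t ht]
    ring

theorem CC.const (f : SS) : CC J (fun _ => f) := fun n => CCn.const f n
theorem CC.add {u v : ℝ → SS} (hu : CC J u) (hv : CC J v) : CC J (fun t => u t + v t) :=
  fun n => (hu n).add (hv n)
theorem CC.neg {u : ℝ → SS} (hu : CC J u) : CC J (fun t => - u t) := fun n => (hu n).neg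
theorem CC.sub {u v : ℝ → SS} (hu : CC J u) (hv : CC J v) : CC J (fun t => u t - v t) :=
  fun n => (hu n).sub (hv n)
theorem CC.mul {u v : ℝ → SS} (hu : CC J u) (hv : CC J v) : CC J (fun t => u t * v t) :=
  fun n => (hu n).mul (hv n)
theorem CC.smul {a : ℝ → ℝ} {u : ℝ → SS} (ha : ContinuousOn a J) (hu : CC J u) :
    CC J (fun t => a t • u t) := fun n => (hu n).smul ha
theorem CC.congr {u v : ℝ → SS} (hu : CC J u) (h : ∀ t ∈ J, v t = u t) : CC J v :=
  fun n => (hu n).congr h
theorem CC.cmp {u : ℝ → SS} {s : Set ℝ} (hs : IsOpen s) {φ : ℝ → ℝ}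
    (hφ : ContDiffOn ℝ ∞ φ s) (hus : ∀ t ∈ J, ∀ p, u t p ∈ s) (hu : CC J u) :
    CC J (fun t => cmp φ (u t)) := fun n => (hu n).cmp hs hφ hus
theorem CC.Lap {u : ℝ → SS} (hu : CC J u) : CC J (fun t => Lap (u t)) := by
  simp only [Lap_eq]
  exact (((hu.X 0).X 0).add ((hu.X 1).X 1)).add ((hu.X 2).X 2)

theorem CD.const (f : SS) : CD J (fun _ => f) (fun _ => 0) := fun n => CDn.const f n
theorem CD.add {u v u' v' : ℝ → SS} (hu : CD J u u') (hv : CD J v v') :
    CD J (fun t => u t + v t) (fun t => u' t + v' t) := fun n => (hu n).add (hv n)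
theorem CD.neg {u u' : ℝ → SS} (hu : CD J u u') : CD J (fun t => - u t) (fun t => - u' t) :=
  fun n => (hu n).neg
theorem CD.sub {u v u' v' : ℝ → SS} (hu : CD J u u') (hv : CD J v v') :
    CD J (fun t => u t - v t) (fun t => u' t - v' t) := fun n => (hu n).sub (hv n)
theorem CD.mul {u v u' v' : ℝ → SS} (hu : CD J u u') (hv : CD J v v') :
    CD J (fun t => u t * v t) (fun t => u' t * v t + u t * v' t) := fun n => (hu n).mul (hv n)
theorem CD.smul {a a' : ℝ → ℝ} {u u' : ℝ → SS}
    (ha : ∀ t ∈ J, HasDerivWithinAt a (a' t) J t) (hu : CD J u u') :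
    CD J (fun t => a t • u t) (fun t => a' t • u t + a t • u' t) := fun n => (hu n).smul ha
theorem CD.congr {u v u' v' : ℝ → SS} (hu : CD J u v) (h : ∀ t ∈ J, u' t = u t)
    (h' : ∀ t ∈ J, v' t = v t) : CD J u' v' := fun n => (hu n).congr h h'
theorem CD.cmp {u u' : ℝ → SS} {s : Set ℝ} (hs : IsOpen s) {φ : ℝ → ℝ}
    (hφ : ContDiffOn ℝ ∞ φ s) (hus : ∀ t ∈ J, ∀ p, u t p ∈ s) (hu : CD J u u') :
    CD J (fun t => cmp φ (u t)) (fun t => S2.cmp (deriv φ) (u t) * u' t) :=
  fun n => (hu n).cmp hs hφ hus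
theorem CD.Lap {u u' : ℝ → SS} (hu : CD J u u') :
    CD J (fun t => Lap (u t)) (fun t => S2.Lap (u' t)) := by
  simp only [Lap_eq]
  exact (((hu.X 0).X 0).add ((hu.X 1).X 1)).add ((hu.X 2).X 2)

/-! ### Uniformity over the compact sphere -/

theorem unif_cont {u : ℝ → Sph → ℝ}
    (h : ContinuousOn (fun z : ℝ × Sph => u z.1 z.2) (J ×ˢ univ)) {t : ℝ} (ht : t ∈ J) {ε : ℝ}
    (hε : 0 < ε) : ∀ᶠ s in 𝓝[J] t, ∀ p, |u s p - u t p| < ε := by
  have h1 : ∀ p : Sph, ∀ᶠ z : ℝ × Sph in 𝓝[J] t ×ˢ 𝓝 p, |u z.1 z.2 - u t z.2| < ε := by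
    intro p
    have h2 : ContinuousWithinAt (fun z : ℝ × Sph => u z.1 z.2) (J ×ˢ univ) (t, p) :=
      h (t, p) ⟨ht, mem_univ p⟩
    have h3 : Tendsto (fun z : ℝ × Sph => u z.1 z.2) (𝓝[J] t ×ˢ 𝓝 p) (𝓝 (u t p)) := by
      have : 𝓝[J ×ˢ (univ : Set Sph)] (t, p) = 𝓝[J] t ×ˢ 𝓝 p := by
        rw [nhdsWithin_prod_eq, nhdsWithin_univ]
      rw [← this]
      exact h2
    have h4 : Tendsto (fun z : ℝ × Sph => u t z.2) (𝓝[J] t ×ˢ 𝓝 p) (𝓝 (u t p)) := by
      have h5 : Tendsto (fun z : ℝ × Sph => (t, z.2)) (𝓝[J] t ×ˢ 𝓝 p) (𝓝[J] t ×ˢ 𝓝 p) := by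
        apply Tendsto.prodMk
        · exact tendsto_nhdsWithin_of_tendsto_nhds_of_eventually_within _ tendsto_const_nhds
            (Eventually.of_forall fun _ => ht)
        · exact tendsto_snd
      exact h3.comp h5
    have h5 := (h3.sub h4).abs
    rw [sub_self, abs_zero] at h5
    exact h5.eventually (gt_mem_nhds hε)
  have h2 : {z : ℝ × Sph | |u z.1 z.2 - u t z.2| < ε} ∈ 𝓝[J] t ×ˢ 𝓝ˢ (univ : Set Sph) :=
    isCompact_univ.mem_prod_nhdsSet_of_forall fun p _ => h1 p
  rw [nhdsSet_univ, mem_prod_top] at h2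
  exact h2

/-- the derivative in time is uniform over the sphere -/
theorem unif_deriv {u v : ℝ → Sph → ℝ} (hJ : Convex ℝ J)
    (hd : ∀ t ∈ J, ∀ p, HasDerivWithinAt (fun s => u s p) (v t p) J t)
    (hv : ContinuousOn (fun z : ℝ × Sph => v z.1 z.2) (J ×ˢ univ)) {t : ℝ} (ht : t ∈ J) {ε : ℝ}
    (hε : 0 < ε) : ∀ᶠ s in 𝓝[J] t, ∀ p, |u s p - u t p - (s - t) * v t p| ≤ ε * |s - t| := by
  have h1 := unif_cont hv ht hε
  rw [eventually_nhdsWithin_iff, Metric.eventually_nhds_iff_ball] at h1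
  obtain ⟨δ, hδ, h1⟩ := h1
  rw [eventually_nhdsWithin_iff, Metric.eventually_nhds_iff_ball]
  refine ⟨δ, hδ, fun s hs hsJ p => ?_⟩
  have hconv : Convex ℝ (J ∩ ball t δ) := hJ.inter (convex_ball t δ)
  have hdd : ∀ r ∈ J ∩ ball t δ, HasDerivWithinAt (fun r => u r p - r * v t p)
      (v r p - v t p) (J ∩ ball t δ) r := by
    intro r hr
    have h2 : HasDerivWithinAt (fun s => u s p) (v r p) (J ∩ ball t δ) r :=
      (hd r hr.1 p).mono inter_subset_left
    have h3 : HasDerivWithinAt (fun s : ℝ => s * v t p) (v t p) (J ∩ ball t δ) r := by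
      simpa using (hasDerivWithinAt_id r (J ∩ ball t δ)).mul_const (v t p)
    exact h2.sub h3
  have hbb : ∀ r ∈ J ∩ ball t δ, ‖v r p - v t p‖ ≤ ε := by
    intro r hr
    rw [Real.norm_eq_abs]
    exact (h1 r hr.2 hr.1 p).le
  have key := hconv.norm_image_sub_le_of_norm_hasDerivWithin_le hdd hbb
    (x := t) (y := s) ⟨ht, mem_ball_self hδ⟩ ⟨hsJ, hs⟩
  simp only [Real.norm_eq_abs] at key
  have e : u s p - u t p - (s - t) * v t p = u s p - s * v t p - (u t p - t * v t p) := by ring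
  rw [e]
  exact key

/-! ### Integrals -/

theorem I_mono {f g : SS} (h : ∀ p, f p ≤ g p) : I f ≤ I g :=
  integral_mono (integrable_ss f) (integrable_ss g) h

theorem I_nonneg {f : SS} (h : ∀ p, 0 ≤ f p) : 0 ≤ I f := integral_nonneg h

theorem σ_univ : σ.real (univ : Set Sph) = 4 * Real.pi := by
  have h1 := Measure.toSphere_apply_univ (μ := (volume : Measure E3))
  unfold Measure.real
  rw [h1, EuclideanSpace.volume_ball_fin_three]
  have hpi := Real.pi_pos
  have h2 : (Module.finrank ℝ E3 : ℕ) = 3 := by simp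
  rw [h2, ENNReal.toReal_mul, ENNReal.toReal_mul, ENNReal.toReal_ofReal (by positivity)]
  simp
  ring

theorem I_one : I 1 = 4 * Real.pi := by
  rw [I_apply]
  have : ∀ p : Sph, (1 : SS) p = 1 := ss_one
  simp only [this]
  rw [integral_const, σ_univ]
  simp

theorem I_one_pos : 0 < I 1 := by
  rw [I_one]
  positivity

theorem I_const (c : ℝ) : I (algebraMap ℝ SS c) = c * (4 * Real.pi) := by
  rw [Algebra.algebraMap_eq_smul_one, map_smul, I_one, smul_eq_mul]

theorem abs_I_le {f : SS} {C : ℝ} (h : ∀ p, |f p| ≤ C) : |I f| ≤ C * (4 * Real.pi) := by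
  rw [abs_le]
  constructor
  · have := I_mono (f := algebraMap ℝ SS (-C)) (g := f) fun p => by
      rw [ss_algebraMap]
      exact (abs_le.mp (h p)).1
    rw [I_const] at this
    linarith
  · have := I_mono (f := f) (g := algebraMap ℝ SS C) fun p => by
      rw [ss_algebraMap]
      exact (abs_le.mp (h p)).2
    rw [I_const] at this
    exact this

theorem I_cont {u : ℝ → SS} (h : CCn J 0 u) : ContinuousOn (fun t => I (u t)) J := by
  have h : ContinuousOn (fun z : ℝ × Sph => u z.1 z.2) (J ×ˢ univ) := h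
  intro t ht
  rw [ContinuousWithinAt, Metric.tendsto_nhds]
  intro ε hε
  have hpi := Real.pi_pos
  have h1 := unif_cont (u := fun t p => u t p) (ε := ε / (8 * Real.pi)) h ht (by positivity)
  filter_upwards [h1] with s hs
  rw [Real.dist_eq, ← map_sub]
  have h2 := abs_I_le (f := u s - u t) (C := ε / (8 * Real.pi)) fun p => (hs p).le
  have h3 : ε / (8 * Real.pi) * (4 * Real.pi) = ε / 2 := by
    field_simp
    ring
  rw [h3] at h2
  linarith

theorem I_deriv (hJ : Convex ℝ J) {u v : ℝ → SS} (hd : CDn J 0 u v) (hv : CCn J 0 v) {t : ℝ}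
    (ht : t ∈ J) : HasDerivWithinAt (fun s => I (u s)) (I (v t)) J t := by
  rw [hasDerivWithinAt_iff_isLittleO, Asymptotics.isLittleO_iff]
  intro c hc
  have hpi := Real.pi_pos
  have hd : ∀ t ∈ J, ∀ p, HasDerivWithinAt (fun s => u s p) (v t p) J t := hd
  have hv : ContinuousOn (fun z : ℝ × Sph => v z.1 z.2) (J ×ˢ univ) := hv
  have h1 := unif_deriv (u := fun t p => u t p) (v := fun t p => v t p)
    (ε := c / (4 * Real.pi)) hJ hd hv ht (by positivity)
  filter_upwards [h1] with s hs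
  have h2 := abs_I_le (f := u s - u t - (s - t) • v t) (C := c / (4 * Real.pi) * |s - t|)
    fun p => hs p
  rw [map_sub, map_sub, map_smul] at h2
  rw [Real.norm_eq_abs, Real.norm_eq_abs]
  refine h2.trans (le_of_eq ?_)
  field_simp

/-! ### Integration by parts -/

theorem ibp (i : Fin 3) (f g : SS) : I (X i f * g) = - I (f * X i g) := by
  have h := I_X i (f * g)
  rw [X_mul, map_add] at h
  linarith

theorem ibp' (i : Fin 3) (f g : SS) : I (f * X i g) = - I (X i f * g) := by
  rw [ibp, neg_neg]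

theorem I_Lap (f : SS) : I (Lap f) = 0 := by
  rw [Lap_eq, map_add, map_add, I_X, I_X, I_X]
  ring

theorem Lap_symm (f g : SS) : I (Lap f * g) = I (f * Lap g) := by
  have h : ∀ i, I (X i (X i f) * g) = I (f * X i (X i g)) := by
    intro i
    rw [ibp i (X i f) g, ibp' i f (X i g)]
  simp only [Lap_eq, add_mul, mul_add, map_add, h]

end Pool.Agent.helper68.S2
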