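import Mathlib
import Pool.Agent.helper68.S2.Curve
import Pool.Agent.helper68.S2.Amb

/-!
# Maximum principles
-/

set_option autoImplicit false

open MeasureTheory Metric Set Filter
open scoped ContDiff Topology

namespace Pool.Agent.helper68.S2

/-- first derivative at a maximum of a function of one variable -/
theorem deriv_eq_zero_of_max {g : ℝ → ℝ} {g' : ℝ} {x : ℝ} (h : HasDerivAt g g' x)
    (hmax : ∀ᶠ y in 𝓝 x, g y ≤ g x) : g' = 0 :=
  IsLocalMax.hasDerivAt_eq_zero hmax h

/-- second derivative test at a maximum of a function of one variable -/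
theorem second_deriv_nonpos {g g₁ : ℝ → ℝ} {g₂ : ℝ} {x : ℝ}
    (h : ∀ᶠ y in 𝓝 x, HasDerivAt g (g₁ y) y) (h2 : HasDerivAt g₁ g₂ x)
    (hmax : ∀ᶠ y in 𝓝 x, g y ≤ g x) : g₂ ≤ 0 := by
  by_contra hcon
  push Not at hcon
  have h0 : g₁ x = 0 := deriv_eq_zero_of_max h.self_of_nhds hmax
  have hder : ∀ᶠ y in 𝓝 x, deriv g y = g₁ y := h.mono fun y hy => hy.deriv
  have h3 : deriv (deriv g) x = g₂ := by
    have : HasDerivAt (deriv g) g₂ x := h2.congr_of_eventuallyEq hder
    exact this.deriv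
  have h4 : IsLocalMin g x := by
    apply isLocalMin_of_deriv_deriv_pos
    · rw [h3]; exact hcon
    · rw [hder.self_of_nhds, h0]
    · exact h.self_of_nhds.continuousAt
  -- then `g` is locally constant near `x`
  have h5 : g =ᶠ[𝓝 x] fun _ => g x := by
    filter_upwards [h4, hmax] with y h1 h2
    exact le_antisymm h2 h1
  have h6 : g₁ =ᶠ[𝓝 x] fun _ => 0 := by
    filter_upwards [h5.eventuallyEq_nhds, h] with y hy1 hy2
    have h7 : HasDerivAt g 0 y := (hasDerivAt_const y (g x)).congr_of_eventuallyEq hy1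
    exact hy2.unique h7
  have h7 : HasDerivAt g₁ 0 x := (hasDerivAt_const x (0 : ℝ)).congr_of_eventuallyEq h6
  have := h2.unique h7
  linarith

/-- at a spatial maximum the rotation derivatives vanish -/
theorem X_eq_zero_of_max {f : SS} {p : Sph} (h : ∀ q, f q ≤ f p) (i : Fin 3) : X i f p = 0 := by
  have h1 := hasDerivAt_act_rot i f p 0
  rw [rot_act_zero] at h1
  apply deriv_eq_zero_of_max h1
  apply Eventually.of_forall
  intro s
  simp only [rot_act_zero]
  exact h _

theorem X_X_nonpos_of_max {f : SS} {p : Sph} (h : ∀ q, f q ≤ f p) (i : Fin 3) :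
    X i (X i f) p ≤ 0 := by
  have h2 := hasDerivAt_act_rot i (X i f) p 0
  rw [rot_act_zero] at h2
  apply second_deriv_nonpos (g := fun s => f (act (rot i s) p))
    (g₁ := fun s => X i f (act (rot i s) p)) (x := 0) _ h2
  · apply Eventually.of_forall
    intro s
    simp only [rot_act_zero]
    exact h _
  · exact Eventually.of_forall fun s => hasDerivAt_act_rot i f p s

/-- at a spatial maximum the Laplacian is non-positive -/
theorem Lap_nonpos_of_max {f : SS} {p : Sph} (h : ∀ q, f q ≤ f p) : Lap f p ≤ 0 := by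
  rw [Lap_eq, ss_add, ss_add]
  have h0 := X_X_nonpos_of_max h 0
  have h1 := X_X_nonpos_of_max h 1
  have h2 := X_X_nonpos_of_max h 2
  linarith

theorem X_eq_zero_of_min {f : SS} {p : Sph} (h : ∀ q, f p ≤ f q) (i : Fin 3) : X i f p = 0 := by
  have := X_eq_zero_of_max (f := -f) (p := p) (fun q => by
    rw [ss_neg, ss_neg]; exact neg_le_neg (h q)) i
  rw [map_neg, ss_neg] at this
  linarith

theorem Lap_nonneg_of_min {f : SS} {p : Sph} (h : ∀ q, f p ≤ f q) : 0 ≤ Lap f p := by
  have := Lap_nonpos_of_max (f := -f) (p := p) (fun q => by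
    rw [ss_neg, ss_neg]; exact neg_le_neg (h q))
  rw [map_neg, ss_neg] at this
  linarith

/-- **First touching.** If `Z < 0` initially and at each first touching `Z t k = 0` the backward
time derivative would be negative, then `Z < 0` throughout. -/
theorem touch {Q : Type*} [TopologicalSpace Q] [CompactSpace Q] {T : ℝ} {Z : ℝ → Q → ℝ}
    (hc : ContinuousOn (fun z : ℝ × Q => Z z.1 z.2) (Icc 0 T ×ˢ univ))
    (h0 : ∀ k, Z 0 k < 0)
    (hd : ∀ t, 0 < t → t ≤ T → ∀ k, Z t k = 0 → (∀ k', Z t k' ≤ 0) →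
      (∀ s, 0 ≤ s → s < t → ∀ k', Z s k' < 0) →
      ∃ d < 0, HasDerivWithinAt (fun s => Z s k) d (Icc 0 t) t) :
    ∀ t ∈ Icc (0 : ℝ) T, ∀ k, Z t k < 0 := by
  by_contra hcon
  push Not at hcon
  obtain ⟨t1, ht1, k1, hk1⟩ := hcon
  -- the set of touching points
  set S : Set (ℝ × Q) := {z | z ∈ Icc (0 : ℝ) T ×ˢ (univ : Set Q) ∧ 0 ≤ Z z.1 z.2} with hS
  have hcomp : IsCompact (Icc (0 : ℝ) T ×ˢ (univ : Set Q)) := isCompact_Icc.prod isCompact_univ
  have hScl : ∃ F : Set (ℝ × Q), IsClosed F ∧ S = (Icc (0 : ℝ) T ×ˢ (univ : Set Q)) ∩ F := by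
    have h1 := hc.preimage_isClosed_of_isClosed (t := Ici (0 : ℝ)) (isClosed_Icc.prod isClosed_univ)
      isClosed_Ici
    refine ⟨_, h1, ?_⟩
    ext z
    simp [hS]
  obtain ⟨F, hF, hSF⟩ := hScl
  have hScomp : IsCompact S := by
    rw [hSF]
    exact hcomp.inter_right hF
  have hSne : S.Nonempty := ⟨(t1, k1), ⟨⟨ht1, mem_univ _⟩, hk1⟩⟩
  obtain ⟨z0, hz0, hmin⟩ := hScomp.exists_isMinOn hSne continuous_fst.continuousOn
  obtain ⟨t0, k0⟩ := z0
  have ht0 : t0 ∈ Icc (0 : ℝ) T := hz0.1.1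
  have hlt : ∀ s, 0 ≤ s → s < t0 → ∀ k', Z s k' < 0 := by
    intro s hs hst k'
    by_contra hc'
    push Not at hc'
    have hmem : (s, k') ∈ S := ⟨⟨⟨hs, hst.le.trans ht0.2⟩, mem_univ _⟩, hc'⟩
    have := hmin hmem
    have : t0 ≤ s := this
    linarith
  have hpos : 0 < t0 := by
    rcases lt_or_eq_of_le ht0.1 with h | h
    · exact h
    · exfalso
      have h1 : 0 ≤ Z t0 k0 := hz0.2
      rw [← h] at h1
      exact absurd (h0 k0) (not_lt.mpr h1)
  have hle : ∀ k', Z t0 k' ≤ 0 := by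
    intro k'
    have hcont : ContinuousWithinAt (fun s => Z s k') (Icc 0 T) t0 := by
      have h1 : ContinuousOn (fun s => Z s k') (Icc 0 T) :=
        hc.comp (f := fun s : ℝ => (s, k')) (by fun_prop) (fun s hs => ⟨hs, mem_univ _⟩)
      exact h1 t0 ht0
    have hcont' : ContinuousWithinAt (fun s => Z s k') (Ico 0 t0) t0 :=
      hcont.mono fun s hs => ⟨hs.1, hs.2.le.trans ht0.2⟩
    have hne : (𝓝[Ico 0 t0] t0).NeBot := by
      rw [← mem_closure_iff_nhdsWithin_neBot, closure_Ico hpos.ne]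
      exact ⟨hpos.le, le_rfl⟩
    refine le_of_tendsto hcont' ?_
    filter_upwards [self_mem_nhdsWithin] with s hs
    exact (hlt s hs.1 hs.2 k').le
  have heq : Z t0 k0 = 0 := le_antisymm (hle k0) hz0.2
  obtain ⟨d, hdneg, hder⟩ := hd t0 hpos ht0.2 k0 heq hle hlt
  -- the derivative is non-negative
  have hder' : HasDerivWithinAt (fun s => Z s k0) d (Ico 0 t0) t0 :=
    hder.mono Ico_subset_Icc_self
  have hslope := hasDerivWithinAt_iff_tendsto_slope.mp hder'
  have hset : Ico 0 t0 \ {t0} = Ico 0 t0 := by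
    ext s
    constructor
    · exact fun hs => hs.1
    · exact fun hs => ⟨hs, fun h => hs.2.ne h⟩
  rw [hset] at hslope
  have hne : (𝓝[Ico 0 t0] t0).NeBot := by
    rw [← mem_closure_iff_nhdsWithin_neBot, closure_Ico hpos.ne]
    exact ⟨hpos.le, le_rfl⟩
  have hge : 0 ≤ d := by
    refine ge_of_tendsto hslope ?_
    filter_upwards [self_mem_nhdsWithin] with s hs
    rw [slope_def_field, heq, sub_zero]
    apply div_nonneg_of_nonpos
    · have := hlt s hs.1 hs.2 k0
      linarith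
    · linarith [hs.2]
  linarith

/-- **Scalar maximum principle.** -/
theorem maxp {T : ℝ} {f g : ℝ → SS} (hc : CCn (Icc 0 T) 0 f) (hd : CDn (Icc 0 T) 0 f g) {M : ℝ}
    (h0 : ∀ p, f 0 p ≤ M)
    (h : ∀ t, 0 < t → t ≤ T → ∀ p, (∀ q, f t q ≤ f t p) → M < f t p → g t p ≤ 0) :
    ∀ t ∈ Icc (0 : ℝ) T, ∀ p, f t p ≤ M := by
  intro t ht p
  have key : ∀ ε > 0, f t p - M - ε * (1 + t) < 0 := by
    intro ε hε
    have hc : ContinuousOn (fun z : ℝ × Sph => f z.1 z.2) (Icc 0 T ×ˢ univ) := hc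
    refine touch (T := T) (Z := fun s q => f s q - M - ε * (1 + s)) ?_ ?_ ?_ t ht p
    · have h1 : ContinuousOn (fun z : ℝ × Sph => f z.1 z.2 - M) (Icc 0 T ×ˢ univ) :=
        hc.sub continuousOn_const
      have h2 : ContinuousOn (fun z : ℝ × Sph => ε * (1 + z.1)) (Icc 0 T ×ˢ univ) := by
        fun_prop
      exact h1.sub h2
    · intro k
      have := h0 k
      simp only [add_zero, mul_one]
      linarith
    · intro s hs hsT k hk hk' _
      have hpos : 0 < ε * (1 + s) := by positivity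
      have hmax : ∀ q, f s q ≤ f s k := fun q => by
        have := hk' q
        linarith
      have hg := h s hs hsT k hmax (by linarith)
      refine ⟨g s k - ε, by linarith, ?_⟩
      have h1 : HasDerivWithinAt (fun s => f s k) (g s k) (Icc 0 s) s :=
        (hd s ⟨hs.le, hsT⟩ k).mono (Icc_subset_Icc_right hsT)
      have h2 : HasDerivWithinAt (fun s : ℝ => ε * (1 + s)) ε (Icc 0 s) s := by
        simpa using (((hasDerivWithinAt_id s (Icc 0 s)).const_add 1).const_mul ε)
      exact (h1.sub_const M).sub h2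
  by_contra hcon
  push Not at hcon
  have h1 : 0 < 1 + t := by linarith [ht.1]
  have := key ((f t p - M) / (1 + t)) (div_pos (by linarith) h1)
  rw [div_mul_cancel₀ _ h1.ne'] at this
  linarith

end Pool.Agent.helper68.S2
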