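import Mathlib
import Pool.Agent.helper68.S2.MaxP

/-!
# The curvature quotient flow, basic identities
-/

set_option autoImplicit false

open MeasureTheory Metric Set Filter
open scoped ContDiff Topology

namespace Pool.Agent.helper68.S2

/-! ### Exponential, inverse, logarithm -/

/-- `exp (c u)` -/
noncomputable def Ex (c : ℝ) (u : SS) : SS := cmp (fun y => Real.exp (c * y)) u

theorem contDiffOn_exp (c : ℝ) (s : Set ℝ) : ContDiffOn ℝ ∞ (fun y => Real.exp (c * y)) s :=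
  (Real.contDiff_exp.comp (contDiff_const.mul contDiff_id)).contDiffOn

theorem Ex_apply (c : ℝ) (u : SS) (p : Sph) : Ex c u p = Real.exp (c * u p) :=
  cmp_apply (contDiffOn_exp c univ) u (fun _ => mem_univ _) p

theorem Ex_pos (c : ℝ) (u : SS) (p : Sph) : 0 < Ex c u p := by
  rw [Ex_apply]; exact Real.exp_pos _

theorem deriv_exp_mul (c y : ℝ) : deriv (fun y => Real.exp (c * y)) y = c * Real.exp (c * y) := by
  have h0 : HasDerivAt (fun s : ℝ => c * s) c y := by simpa using (hasDerivAt_id y).const_mul c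
  have := (Real.hasDerivAt_exp (c * y)).comp y h0
  rw [show (fun y => Real.exp (c * y)) = Real.exp ∘ fun s => c * s from rfl, this.deriv]
  ring

theorem X_Ex (i : Fin 3) (c : ℝ) (u : SS) : X i (Ex c u) = c • (Ex c u * X i u) := by
  apply ssext
  intro p
  rw [ss_smul, ss_mul, Ex_apply]
  unfold Ex
  rw [X_cmp isOpen_univ (contDiffOn_exp c univ) u (fun _ => mem_univ _), deriv_exp_mul]
  ring

/-- `1/f` for positive `f` -/
noncomputable def Inv (f : SS) : SS := cmp (fun y => y⁻¹) f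

/-- `log f` for positive `f` -/
noncomputable def Lg (f : SS) : SS := cmp Real.log f

theorem contDiffOn_inv_Ioi : ContDiffOn ℝ ∞ (fun y : ℝ => y⁻¹) (Ioi 0) :=
  contDiffOn_id.inv fun _ hy => (ne_of_gt hy)

theorem contDiffOn_log_Ioi : ContDiffOn ℝ ∞ Real.log (Ioi 0) :=
  contDiffOn_id.log fun _ hy => (ne_of_gt hy)

theorem Inv_apply {f : SS} (hf : ∀ p, 0 < f p) (p : Sph) : Inv f p = (f p)⁻¹ :=
  cmp_apply contDiffOn_inv_Ioi f hf p

theorem Inv_pos {f : SS} (hf : ∀ p, 0 < f p) (p : Sph) : 0 < Inv f p := by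
  rw [Inv_apply hf]; exact inv_pos.mpr (hf p)

theorem Inv_mul {f : SS} (hf : ∀ p, 0 < f p) : Inv f * f = 1 := by
  apply ssext
  intro p
  rw [ss_mul, Inv_apply hf, ss_one, inv_mul_cancel₀ (hf p).ne']

theorem mul_Inv {f : SS} (hf : ∀ p, 0 < f p) : f * Inv f = 1 := by
  rw [mul_comm, Inv_mul hf]

theorem Lg_apply {f : SS} (hf : ∀ p, 0 < f p) (p : Sph) : Lg f p = Real.log (f p) :=
  cmp_apply contDiffOn_log_Ioi f hf p

theorem X_Lg {f : SS} (hf : ∀ p, 0 < f p) (i : Fin 3) : X i (Lg f) = Inv f * X i f := by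
  apply ssext
  intro p
  unfold Lg
  rw [X_cmp isOpen_Ioi contDiffOn_log_Ioi f hf, ss_mul, Inv_apply hf, Real.deriv_log]

theorem X_Inv {f : SS} (hf : ∀ p, 0 < f p) (i : Fin 3) :
    X i (Inv f) = -(Inv f * Inv f * X i f) := by
  apply ssext
  intro p
  have h := Inv_apply hf p
  unfold Inv at h ⊢
  rw [X_cmp isOpen_Ioi contDiffOn_inv_Ioi f hf, ss_neg, ss_mul, ss_mul, h]
  have : deriv (fun y : ℝ => y⁻¹) (f p) = -((f p) ^ 2)⁻¹ := by
    simpa using (hasDerivAt_inv (hf p).ne').deriv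
  rw [this]
  field_simp

variable {J : Set ℝ}

theorem CC.Ex {u : ℝ → SS} (hu : CC J u) (c : ℝ) : CC J (fun t => Ex c (u t)) :=
  hu.cmp isOpen_univ (contDiffOn_exp c univ) (fun _ _ _ => mem_univ _)

theorem CD.Ex {u v : ℝ → SS} (hu : CD J u v) (c : ℝ) :
    CD J (fun t => Ex c (u t)) (fun t => c • (S2.Ex c (u t) * v t)) := by
  refine (hu.cmp isOpen_univ (contDiffOn_exp c univ) (fun _ _ _ => mem_univ _)).congr
    (fun _ _ => rfl) fun t _ => ?_
  apply ssext
  intro p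
  have hd : deriv (fun y => Real.exp (c * y)) = fun y => c * Real.exp (c * y) :=
    funext (deriv_exp_mul c)
  have hcd : ContDiffOn ℝ ∞ (deriv fun y => Real.exp (c * y)) univ := by
    rw [hd]
    exact contDiffOn_const.mul (contDiffOn_exp c univ)
  rw [ss_smul, ss_mul, ss_mul, cmp_apply hcd (u t) (fun _ => mem_univ _), Ex_apply, hd]
  ring

theorem CC.Inv {u : ℝ → SS} (hu : CC J u) (h : ∀ t ∈ J, ∀ p, 0 < u t p) :
    CC J (fun t => Inv (u t)) := hu.cmp isOpen_Ioi contDiffOn_inv_Ioi h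

theorem CC.Lg {u : ℝ → SS} (hu : CC J u) (h : ∀ t ∈ J, ∀ p, 0 < u t p) :
    CC J (fun t => Lg (u t)) := hu.cmp isOpen_Ioi contDiffOn_log_Ioi h

theorem CD.Inv {u v : ℝ → SS} (hu : CD J u v) (h : ∀ t ∈ J, ∀ p, 0 < u t p) :
    CD J (fun t => Inv (u t)) (fun t => -(S2.Inv (u t) * S2.Inv (u t) * v t)) := by
  refine (hu.cmp isOpen_Ioi contDiffOn_inv_Ioi h).congr (fun _ _ => rfl) fun t ht => ?_
  apply ssext
  intro p
  have hcd : ContDiffOn ℝ ∞ (deriv fun y : ℝ => y⁻¹) (Ioi 0) :=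
    contDiffOn_inv_Ioi.deriv_of_isOpen isOpen_Ioi (by simp)
  rw [ss_neg, ss_mul, ss_mul, ss_mul, cmp_apply hcd (u t) (h t ht), Inv_apply (h t ht)]
  have : deriv (fun y : ℝ => y⁻¹) (u t p) = -((u t p) ^ 2)⁻¹ := by
    simpa using (hasDerivAt_inv (h t ht p).ne').deriv
  rw [this]
  have := (h t ht p).ne'
  field_simp

theorem CD.Lg {u v : ℝ → SS} (hu : CD J u v) (h : ∀ t ∈ J, ∀ p, 0 < u t p) :
    CD J (fun t => Lg (u t)) (fun t => S2.Inv (u t) * v t) := by
  refine (hu.cmp isOpen_Ioi contDiffOn_log_Ioi h).congr (fun _ _ => rfl) fun t ht => ?_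
  apply ssext
  intro p
  have hcd : ContDiffOn ℝ ∞ (deriv Real.log) (Ioi 0) :=
    contDiffOn_log_Ioi.deriv_of_isOpen isOpen_Ioi (by simp)
  rw [ss_mul, ss_mul, cmp_apply hcd (u t) (h t ht), Inv_apply (h t ht), Real.deriv_log]

/-! ### The flow -/

/-- the area -/
noncomputable def ar (u : SS) : ℝ := I (Ex 2 u)

theorem I_pos {f : SS} (hf : ∀ p, 0 < f p) : 0 < I f := by
  obtain ⟨p0, _, hp0⟩ := (isCompact_univ (X := Sph)).exists_isMinOn
    ⟨proj 0, mem_univ _⟩ (continuous_ss f).continuousOn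
  have h1 : I (algebraMap ℝ SS (f p0)) ≤ I f := I_mono fun q => by
    rw [ss_algebraMap]
    exact hp0 (mem_univ q)
  rw [I_const] at h1
  have := hf p0
  have hpi := Real.pi_pos
  have : 0 < f p0 * (4 * Real.pi) := by positivity
  linarith

theorem ar_pos (u : SS) : 0 < ar u := I_pos (Ex_pos 2 u)

/-- the average curvature -/
noncomputable def lam (u : SS) : ℝ := 4 * Real.pi / ar u

theorem lam_pos (u : SS) : 0 < lam u := div_pos (by have := Real.pi_pos; positivity) (ar_pos u)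

/-- curvature density -/
noncomputable def Pc (u : SS) : SS := 1 - Lap u

theorem I_Pc (u : SS) : I (Pc u) = 4 * Real.pi := by
  unfold Pc
  rw [map_sub, I_Lap, I_one, sub_zero]

/-- weighted average of `F` -/
noncomputable def av (u F : SS) : ℝ := I (F * Ex 2 u) / ar u

/-- the flow on `J`, as a system for `u` and the curvature quotient `F` -/
structure IsFlow (J : Set ℝ) (u F : ℝ → SS) : Prop where
  cu : CC J u
  cF : CC J F
  du : CD J u (fun t => F t - 1)
  Fpos : ∀ t ∈ J, ∀ p, 0 < F t p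
  eq : ∀ t ∈ J, F t * Pc (u t) = lam (u t) • Ex 2 (u t)

namespace IsFlow

variable {u F : ℝ → SS}

theorem mono (h : IsFlow J u F) {K : Set ℝ} (hK : K ⊆ J) : IsFlow K u F :=
  ⟨h.cu.mono hK, h.cF.mono hK, h.du.mono hK, fun t ht => h.Fpos t (hK ht),
    fun t ht => h.eq t (hK ht)⟩

theorem Ppos (h : IsFlow J u F) {t : ℝ} (ht : t ∈ J) (p : Sph) : 0 < Pc (u t) p := by
  have h1 : (F t * Pc (u t)) p = (lam (u t) • Ex 2 (u t)) p := by rw [h.eq t ht]
  rw [ss_mul, ss_smul] at h1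
  have h2 : 0 < lam (u t) * Ex 2 (u t) p := mul_pos (lam_pos _) (Ex_pos _ _ _)
  have h3 := h.Fpos t ht p
  by_contra hcon
  push Not at hcon
  nlinarith

theorem F_eq (h : IsFlow J u F) {t : ℝ} (ht : t ∈ J) :
    F t = lam (u t) • (Ex 2 (u t) * Inv (Pc (u t))) := by
  have h1 := h.eq t ht
  have h2 := mul_Inv (fun p => h.Ppos ht p)
  calc F t = F t * Pc (u t) * Inv (Pc (u t)) := by rw [mul_assoc, h2, mul_one]
    _ = _ := by rw [h1, smul_mul_assoc]

theorem F_apply (h : IsFlow J u F) {t : ℝ} (ht : t ∈ J) (p : Sph) :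
    F t p = lam (u t) * Real.exp (2 * u t p) / Pc (u t) p := by
  rw [h.F_eq ht, ss_smul, ss_mul, Ex_apply, Inv_apply (fun p => h.Ppos ht p)]
  rw [mul_div_assoc, div_eq_mul_inv]

theorem cP (h : IsFlow J u F) : CC J (fun t => Pc (u t)) := (CC.const 1).sub h.cu.Lap

theorem dP (h : IsFlow J u F) : CD J (fun t => Pc (u t)) (fun t => -Lap (F t)) := by
  refine ((CD.const 1).sub h.du.Lap).congr (fun _ _ => rfl) fun t _ => ?_
  rw [map_sub]
  have : Lap (1 : SS) = 0 := by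
    rw [Lap_eq]
    simp
  rw [this]
  ring

theorem dar (h : IsFlow J u F) (hJ : Convex ℝ J) {t : ℝ} (ht : t ∈ J) :
    HasDerivWithinAt (fun s => ar (u s)) (2 * ar (u t) * (av (u t) (F t) - 1)) J t := by
  have h1 := I_deriv hJ ((h.du.Ex 2) 0)
    (v := fun t => (2 : ℝ) • (Ex 2 (u t) * (F t - 1))) ((((h.cu.Ex 2).mul
      (h.cF.sub (CC.const 1))).smul continuousOn_const) 0) ht
  refine h1.congr_deriv ?_
  have hA := (ar_pos (u t)).ne'
  unfold av
  rw [map_smul, mul_sub, map_sub, mul_one, smul_eq_mul]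
  rw [mul_comm (Ex 2 (u t)) (F t)]
  change 2 * (I (F t * Ex 2 (u t)) - ar (u t)) = _
  field_simp

theorem dlam (h : IsFlow J u F) (hJ : Convex ℝ J) {t : ℝ} (ht : t ∈ J) :
    HasDerivWithinAt (fun s => lam (u s)) (-2 * lam (u t) * (av (u t) (F t) - 1)) J t := by
  have h1 := (hasDerivWithinAt_const t J (4 * Real.pi)).div (h.dar hJ ht) (ar_pos (u t)).ne'
  refine h1.congr_deriv ?_
  have hA := (ar_pos (u t)).ne'
  unfold lam
  field_simp
  ring

/-- **Evolution of `F`.** -/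
theorem dF (h : IsFlow J u F) (hJ : Convex ℝ J) :
    CD J F (fun t => F t * Inv (Pc (u t)) * Lap (F t)
      + (2 : ℝ) • (F t * (F t - algebraMap ℝ SS (av (u t) (F t))))) := by
  have h1 : CD J (fun t => lam (u t) • (Ex 2 (u t) * Inv (Pc (u t)))) _ :=
    CD.smul (fun t ht => h.dlam hJ ht) ((h.du.Ex 2).mul (h.dP.Inv fun t ht => h.Ppos ht))
  refine h1.congr (fun t ht => h.F_eq ht) fun t ht => ?_
  have hF := h.F_eq ht
  apply ssext
  intro p
  have hFp : F t p = lam (u t) * (Ex 2 (u t) p * Inv (Pc (u t)) p) := by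
    conv_lhs => rw [hF]
    rfl
  simp only [ss_add, ss_mul, ss_smul, ss_sub, ss_neg, ss_algebraMap, ss_one]
  rw [hFp]
  ring

end IsFlow

end Pool.Agent.helper68.S2
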