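import Mathlib
import Pool.Agent.helper68.S2.Flow

/-!
# Energy, Lyapunov function, dissipation: definitions
-/

set_option autoImplicit false

namespace Pool.Agent.helper68.S2

/-- the conserved energy -/
noncomputable def En (u : SS) : ℝ := ∑ i, I (X i u * X i u) + 2 * I u
/-- the Lyapunov function -/
noncomputable def Dn (u : SS) : ℝ := En u / (4 * Real.pi) - Real.log (ar u / (4 * Real.pi))
/-- the curvature quotient -/
noncomputable def Fq (u : SS) : SS := lam u • (Ex 2 u * Inv (Pc u))
/-- the dissipation -/
noncomputable def Yn (u : SS) : ℝ := I ((Fq u - 1) * (Fq u - 1) * Pc u)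

end Pool.Agent.helper68.S2
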