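import Mathlib
import Pool.Agent.helper68.S2.Flow

/-!
# The coefficients of the system with cutoffs
-/

set_option autoImplicit false

namespace Pool.Agent.helper68.S2

/-- leading coefficient of the system with cutoffs `χ` (for `F`) and `θ` (for `u`) -/
noncomputable def Gc (χ θ : ℝ → ℝ) (u F : SS) : SS :=
  (I (cmp (fun y => Real.exp (2 * θ y)) u) / (4 * Real.pi)) •
    (cmp (fun y => χ y ^ 2) F * cmp (fun y => Real.exp (-2 * θ y)) u)
/-- lower order term -/
noncomputable def Bc (χ θ : ℝ → ℝ) (u F : SS) : SS :=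
  (2 : ℝ) • (cmp (fun y => χ y ^ 2) F) -
    (2 * (I (cmp χ F * cmp (fun y => Real.exp (2 * θ y)) u) /
      I (cmp (fun y => Real.exp (2 * θ y)) u))) • cmp χ F

end Pool.Agent.helper68.S2
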