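import Mathlib
import Pool.Agent.helper68.S2.Flow

/-!
# The two-point estimate
-/

set_option autoImplicit false

open MeasureTheory Metric Set Filter
open scoped ContDiff Topology

namespace Pool.Agent.helper68.S2

/-! ### Orthonormal frames -/

theorem exists_unit_orth (v w : E3) : ∃ e : E3, ‖e‖ = 1 ∧ inner ℝ v e = 0 ∧ inner ℝ w e = 0 := by
  set S : Submodule ℝ E3 := Submodule.span ℝ {v, w} with hS
  have h1 : Module.finrank ℝ S ≤ 2 := by
    have := finrank_span_le_card (R := ℝ) ({v, w} : Set E3)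
    refine this.trans ?_
    rw [Set.toFinset_card]
    have h2 := Set.ncard_insert_le v {w}
    rw [Set.ncard_singleton] at h2
    rw [Set.ncard_eq_toFinset_card'] at h2
    rw [Set.toFinset_card] at h2
    exact h2
  have h2 : Module.finrank ℝ S + Module.finrank ℝ Sᗮ = 3 := by
    have := Submodule.finrank_add_finrank_orthogonal (K := S) (𝕜 := ℝ)
    simpa using this
  have h3 : 0 < Module.finrank ℝ Sᗮ := by omega
  have h4 : Nontrivial Sᗮ := Module.finrank_pos_iff.mp h3
  obtain ⟨e, he⟩ := exists_ne (0 : Sᗮ)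
  have hne : (e : E3) ≠ 0 := fun h => he (Subtype.ext h)
  have hn : 0 < ‖(e : E3)‖ := norm_pos_iff.mpr hne
  refine ⟨‖(e : E3)‖⁻¹ • (e : E3), ?_, ?_, ?_⟩
  · rw [norm_smul, norm_inv, norm_norm, inv_mul_cancel₀ hn.ne']
  · rw [real_inner_smul_right, (Submodule.mem_orthogonal S (e : E3)).mp e.2 v
      (Submodule.subset_span (by simp)), mul_zero]
  · rw [real_inner_smul_right, (Submodule.mem_orthogonal S (e : E3)).mp e.2 w
      (Submodule.subset_span (by simp)), mul_zero]

theorem orthonormal_triple {a b c : E3} (ha : ‖a‖ = 1) (hb : ‖b‖ = 1) (hc : ‖c‖ = 1)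
    (hab : inner ℝ a b = 0) (hac : inner ℝ a c = 0) (hbc : inner ℝ b c = 0) :
    Orthonormal ℝ ![a, b, c] := by
  constructor
  · intro i
    fin_cases i <;> simp [ha, hb, hc]
  · intro i j hij
    have hba : inner ℝ b a = 0 := by rw [real_inner_comm]; exact hab
    have hca : inner ℝ c a = 0 := by rw [real_inner_comm]; exact hac
    have hcb : inner ℝ c b = 0 := by rw [real_inner_comm]; exact hbc
    fin_cases i <;> fin_cases j <;> simp_all

theorem exists_frames (x y : Sph) : ∃ (e₁ e₂ : E3) (σ₁ : ℝ),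
    ‖e₁‖ = 1 ∧ ‖e₂‖ = 1 ∧ inner ℝ (x : E3) e₁ = 0 ∧ inner ℝ (x : E3) e₂ = 0 ∧ inner ℝ e₁ e₂ = 0 ∧
    (y : E3) = (inner ℝ (x : E3) (y : E3)) • (x : E3) + σ₁ • e₁ ∧
    (inner ℝ (x : E3) (y : E3)) ^ 2 + σ₁ ^ 2 = 1 := by
  obtain ⟨e₂, h2, hx2, hy2⟩ := exists_unit_orth (x : E3) (y : E3)
  obtain ⟨e₁, h1, hx1, h21⟩ := exists_unit_orth (x : E3) e₂
  have h12 : inner ℝ e₁ e₂ = 0 := by rw [real_inner_comm]; exact h21
  have ho := orthonormal_triple (norm_sph x) h1 h2 hx1 hx2 h12
  have hcard : Fintype.card (Fin 3) = Module.finrank ℝ E3 := by simp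
  let b : OrthonormalBasis (Fin 3) ℝ E3 :=
    OrthonormalBasis.mk ho (by
      have := (ho.linearIndependent.span_eq_top_of_card_eq_finrank hcard)
      rw [this])
  have hb : ∀ i, b i = ![(x : E3), e₁, e₂] i := fun i => by
    simp [b]
  have hy : (y : E3) = (inner ℝ (x : E3) (y : E3)) • (x : E3) + (inner ℝ e₁ (y : E3)) • e₁ := by
    have h3 := b.sum_repr' (y : E3)
    rw [Fin.sum_univ_three, hb, hb, hb] at h3
    simp only [Matrix.cons_val_zero, Matrix.cons_val_one, Matrix.cons_val] at h3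
    rw [real_inner_comm (y : E3) e₂, hy2, zero_smul, add_zero] at h3
    exact h3.symm
  refine ⟨e₁, e₂, inner ℝ e₁ (y : E3), h1, h2, hx1, hx2, h12, hy, ?_⟩
  have h3 : ‖(y : E3)‖ ^ 2 = 1 := by rw [norm_sph]; norm_num
  rw [← real_inner_self_eq_norm_sq] at h3
  set ρ := inner ℝ (x : E3) (y : E3)
  set τ := inner ℝ e₁ (y : E3)
  rw [hy, inner_add_left, inner_add_right, inner_add_right, real_inner_smul_left,
    real_inner_smul_left, real_inner_smul_left, real_inner_smul_left, real_inner_smul_right,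
    real_inner_smul_right, real_inner_smul_right, real_inner_smul_right,
    real_inner_self_eq_norm_sq, real_inner_self_eq_norm_sq, norm_sph, h1,
    real_inner_comm (x : E3) e₁, hx1] at h3
  linarith

/-! ### The comparison function -/

/-- the comparison function of `ρ = ⟨x, y⟩` -/
noncomputable def Psi (n ρ : ℝ) : ℝ := 2 * Real.arsinh (n * √((1 - ρ) / 2))

theorem Psi_nonneg {n : ℝ} (hn : 0 ≤ n) (ρ : ℝ) : 0 ≤ Psi n ρ := by
  unfold Psi
  have : 0 ≤ Real.arsinh (n * √((1 - ρ) / 2)) := by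
    rw [Real.arsinh_nonneg_iff]
    positivity
  linarith

theorem cosh_Psi (n : ℝ) {ρ : ℝ} (hρ : ρ ≤ 1) : Real.cosh (Psi n ρ) = 1 + n ^ 2 * (1 - ρ) := by
  unfold Psi
  rw [Real.cosh_two_mul, Real.cosh_sq, Real.sinh_arsinh, mul_pow,
    Real.sq_sqrt (by linarith)]
  ring

theorem continuous_Psi (n : ℝ) : Continuous (Psi n) := by
  unfold Psi
  have : Continuous Real.arsinh := Real.continuous_arsinh
  fun_prop

theorem inner_sph_le (x y : Sph) : inner ℝ (x : E3) (y : E3) ≤ 1 := by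
  have := real_inner_le_norm (x : E3) (y : E3)
  rw [norm_sph, norm_sph, one_mul] at this
  exact this

/-! ### The test along a pair of great circles -/

theorem curve_test (f : SS) {n e : ℝ} (hn : 0 ≤ n) {x y : Sph}
    (hmax : ∀ x' y' : Sph, f y' - f x' - Psi n (inner ℝ (x' : E3) (y' : E3)) ≤ e)
    (heq : f y - f x - Psi n (inner ℝ (x : E3) (y : E3)) = e)
    (hpos : 0 < Psi n (inner ℝ (x : E3) (y : E3)))
    {ex ey : E3} (hex : ‖ex‖ = 1) (hey : ‖ey‖ = 1) (hxx : inner ℝ (x : E3) ex = 0)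
    (hyy : inner ℝ (y : E3) ey = 0) (a b : ℝ) :
    Real.sinh (Psi n (inner ℝ (x : E3) (y : E3))) * (b * D1 f y ey - a * D1 f x ex)
      + n ^ 2 * (b * inner ℝ (x : E3) ey + a * inner ℝ ex (y : E3)) = 0 ∧
    Real.cosh (Psi n (inner ℝ (x : E3) (y : E3))) * (b * D1 f y ey - a * D1 f x ex) ^ 2
      + Real.sinh (Psi n (inner ℝ (x : E3) (y : E3))) * (b ^ 2 * D2 f y ey ey - a ^ 2 * D2 f x ex ex)
      + n ^ 2 * (-(a ^ 2 + b ^ 2) * inner ℝ (x : E3) (y : E3) + 2 * a * b * inner ℝ ex ey) ≤ 0 := by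
  set ρ₀ := inner ℝ (x : E3) (y : E3) with hρ₀
  -- the difference of values
  set m : ℝ → ℝ := fun s => ext f (gc y ey b s) - ext f (gc x ex a s) - e with hm
  set m₁ : ℝ → ℝ := fun s =>
    D1 f (gc y ey b s) (-(b * Real.sin (b * s)) • (y : E3) + (b * Real.cos (b * s)) • ey) -
    D1 f (gc x ex a s) (-(a * Real.sin (a * s)) • (x : E3) + (a * Real.cos (a * s)) • ex) with hm₁
  have hmd : ∀ s, HasDerivAt m (m₁ s) s := fun s =>
    ((hasDerivAt_ext_gc f y ey (norm_sph y) hey hyy b s).sub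
      (hasDerivAt_ext_gc f x ex (norm_sph x) hex hxx a s)).sub_const e
  have hm2 : HasDerivAt m₁ (b ^ 2 * D2 f y ey ey - a ^ 2 * D2 f x ex ex) 0 :=
    (hasDerivAt_deriv_gc f y ey b).sub (hasDerivAt_deriv_gc f x ex a)
  have hm0 : m 0 = Psi n ρ₀ := by
    simp only [hm, gc_zero, ext_sph]
    linarith
  have hm10 : m₁ 0 = b * D1 f y ey - a * D1 f x ex := by
    simp only [hm₁, mul_zero, Real.sin_zero, Real.cos_zero, mul_one, neg_zero, zero_smul,
      zero_add, gc_zero, D1_smul]
  -- the inner product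
  set c₁ := inner ℝ (x : E3) ey with hc₁
  set c₂ := inner ℝ ex (y : E3) with hc₂
  set c₃ := inner ℝ ex ey with hc₃
  set r : ℝ → ℝ := fun s => Real.cos (a * s) * Real.cos (b * s) * ρ₀ +
    Real.cos (a * s) * Real.sin (b * s) * c₁ + Real.sin (a * s) * Real.cos (b * s) * c₂ +
    Real.sin (a * s) * Real.sin (b * s) * c₃ with hr
  have hrin : ∀ s, inner ℝ (gc x ex a s) (gc y ey b s) = r s := by
    intro s
    simp only [hr, gc, inner_add_left, inner_add_right, real_inner_smul_left,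
      real_inner_smul_right]
    ring
  have hca : ∀ s, HasDerivAt (fun s : ℝ => Real.cos (a * s)) (-(a * Real.sin (a * s))) s := by
    intro s
    have h0 : HasDerivAt (fun s : ℝ => a * s) a s := by simpa using (hasDerivAt_id s).const_mul a
    exact ((Real.hasDerivAt_cos (a * s)).comp s h0).congr_deriv (by ring)
  have hsa : ∀ s, HasDerivAt (fun s : ℝ => Real.sin (a * s)) (a * Real.cos (a * s)) s := by
    intro s
    have h0 : HasDerivAt (fun s : ℝ => a * s) a s := by simpa using (hasDerivAt_id s).const_mul a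
    exact ((Real.hasDerivAt_sin (a * s)).comp s h0).congr_deriv (by ring)
  have hcb : ∀ s, HasDerivAt (fun s : ℝ => Real.cos (b * s)) (-(b * Real.sin (b * s))) s := by
    intro s
    have h0 : HasDerivAt (fun s : ℝ => b * s) b s := by simpa using (hasDerivAt_id s).const_mul b
    exact ((Real.hasDerivAt_cos (b * s)).comp s h0).congr_deriv (by ring)
  have hsb : ∀ s, HasDerivAt (fun s : ℝ => Real.sin (b * s)) (b * Real.cos (b * s)) s := by
    intro s
    have h0 : HasDerivAt (fun s : ℝ => b * s) b s := by simpa using (hasDerivAt_id s).const_mul b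
    exact ((Real.hasDerivAt_sin (b * s)).comp s h0).congr_deriv (by ring)
  set r₁ : ℝ → ℝ := fun s =>
    (-(a * Real.sin (a * s)) * Real.cos (b * s) + Real.cos (a * s) * -(b * Real.sin (b * s))) * ρ₀ +
    (-(a * Real.sin (a * s)) * Real.sin (b * s) + Real.cos (a * s) * (b * Real.cos (b * s))) * c₁ +
    (a * Real.cos (a * s) * Real.cos (b * s) + Real.sin (a * s) * -(b * Real.sin (b * s))) * c₂ +
    (a * Real.cos (a * s) * Real.sin (b * s) + Real.sin (a * s) * (b * Real.cos (b * s))) * c₃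
    with hr₁
  have hrd : ∀ s, HasDerivAt r (r₁ s) s := fun s =>
    (((((hca s).mul (hcb s)).mul_const ρ₀).add (((hca s).mul (hsb s)).mul_const c₁)).add
      (((hsa s).mul (hcb s)).mul_const c₂)).add (((hsa s).mul (hsb s)).mul_const c₃)
  have hr2 : HasDerivAt r₁ (-(a ^ 2 + b ^ 2) * ρ₀ + 2 * a * b * c₃) 0 := by
    have e1 := ((((hsa 0).const_mul a).neg.mul (hcb 0)).add
      ((hca 0).mul ((hsb 0).const_mul b).neg)).mul_const ρ₀
    have e2 := ((((hsa 0).const_mul a).neg.mul (hsb 0)).add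
      ((hca 0).mul ((hcb 0).const_mul b))).mul_const c₁
    have e3 := ((((hca 0).const_mul a).mul (hcb 0)).add
      ((hsa 0).mul ((hsb 0).const_mul b).neg)).mul_const c₂
    have e4 := ((((hca 0).const_mul a).mul (hsb 0)).add
      ((hsa 0).mul ((hcb 0).const_mul b))).mul_const c₃
    refine (((e1.add e2).add e3).add e4).congr_deriv ?_
    simp only [mul_zero, Real.sin_zero, Real.cos_zero, Pi.neg_apply]
    ring
  have hr0 : r 0 = ρ₀ := by simp [hr]
  have hr10 : r₁ 0 = b * c₁ + a * c₂ := by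
    simp [hr₁]
  -- the test function
  set W : ℝ → ℝ := fun s => Real.cosh (m s) - 1 - n ^ 2 * (1 - r s) with hW
  set W₁ : ℝ → ℝ := fun s => Real.sinh (m s) * m₁ s + n ^ 2 * r₁ s with hW₁
  have hWd : ∀ s, HasDerivAt W (W₁ s) s := by
    intro s
    have h1 := (Real.hasDerivAt_cosh (m s)).comp s (hmd s)
    have h2 := ((hrd s).const_sub 1).const_mul (n ^ 2)
    exact ((h1.sub_const 1).sub h2).congr_deriv (by simp only [hW₁]; ring)
  have hW2 : HasDerivAt W₁ (Real.cosh (Psi n ρ₀) * (b * D1 f y ey - a * D1 f x ex) ^ 2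
      + Real.sinh (Psi n ρ₀) * (b ^ 2 * D2 f y ey ey - a ^ 2 * D2 f x ex ex)
      + n ^ 2 * (-(a ^ 2 + b ^ 2) * ρ₀ + 2 * a * b * c₃)) 0 := by
    have h1 := (Real.hasDerivAt_sinh (m 0)).comp 0 (hmd 0)
    have h2 := (h1.mul hm2).add (hr2.const_mul (n ^ 2))
    refine h2.congr_deriv ?_
    simp only [Function.comp_apply, hm0, hm10]
    ring
  have hWmax : ∀ᶠ s in 𝓝 (0 : ℝ), W s ≤ W 0 := by
    have hW0 : W 0 = 0 := by
      simp only [hW, hm0, hr0]
      rw [cosh_Psi n (inner_sph_le x y)]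
      ring
    rw [hW0]
    have hmc : ContinuousAt m 0 := (hmd 0).continuousAt
    have hmp : ∀ᶠ s in 𝓝 (0 : ℝ), 0 < m s := hmc.eventually_const_lt (by rw [hm0]; exact hpos)
    filter_upwards [hmp] with s hs
    have h1 := hmax (gcs x ex hex hxx a s) (gcs y ey hey hyy b s)
    have h2 : ((gcs x ex hex hxx a s : Sph) : E3) = gc x ex a s := rfl
    have h3 : ((gcs y ey hey hyy b s : Sph) : E3) = gc y ey b s := rfl
    have h4 : f (gcs y ey hey hyy b s) = ext f (gc y ey b s) := by rw [← h3, ext_sph]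
    have h5 : f (gcs x ex hex hxx a s) = ext f (gc x ex a s) := by rw [← h2, ext_sph]
    have h6 := inner_sph_le (gcs x ex hex hxx a s) (gcs y ey hey hyy b s)
    rw [h2, h3, hrin] at h1 h6
    rw [h4, h5] at h1
    have h7 : m s ≤ Psi n (r s) := by
      simp only [hm]
      linarith
    have h8 : Real.cosh (m s) ≤ Real.cosh (Psi n (r s)) := by
      rw [Real.cosh_le_cosh, abs_of_pos hs, abs_of_nonneg (Psi_nonneg hn _)]
      exact h7
    rw [cosh_Psi n h6] at h8
    simp only [hW]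
    linarith
  constructor
  · have h1 := deriv_eq_zero_of_max (hWd 0) hWmax
    simp only [hW₁, hm0, hm10, hr10] at h1
    exact h1
  · exact second_deriv_nonpos (Eventually.of_forall hWd) hW2 hWmax

theorem two_point_algebra {ν c S a ρ σ₁ m1 X : ℝ} (hS : 0 < S)
    (hcS : c ^ 2 - S ^ 2 = 1) (ha : a = c - S) (hρ : ν * (1 - ρ) = c - 1) (hσ : ρ ^ 2 + σ₁ ^ 2 = 1)
    (h1 : S * m1 + ν * ((a + 1) * σ₁) = 0)
    (h2 : c * m1 ^ 2 + S * X + ν * (-(1 + a) ^ 2 * ρ - (1 + a ^ 2) * ρ + 2 * a) ≤ 0) :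
    X ≤ a ^ 2 - 1 := by
  have hS2 : S ^ 2 = c ^ 2 - 1 := by linarith
  have ha2 : a ^ 2 = 2 * c * a - 1 := by
    rw [ha]
    linear_combination -hcS
  have hSm : S ^ 2 * m1 ^ 2 = S ^ 2 * (2 * a * (2 * ν - c + 1)) := by
    have e1 : S * m1 = -(ν * ((a + 1) * σ₁)) := by linarith
    have e2 : S ^ 2 * m1 ^ 2 = ν ^ 2 * (a + 1) ^ 2 * σ₁ ^ 2 := by
      rw [← mul_pow, e1]
      ring
    have e3 : σ₁ ^ 2 = 1 - ρ ^ 2 := by linarith
    have e4 : ν ^ 2 * (1 - ρ ^ 2) = (c - 1) * (2 * ν - (c - 1)) := by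
      rw [← hρ]
      ring
    have e5 : (a + 1) ^ 2 = 2 * a * (c + 1) := by linear_combination ha2
    calc S ^ 2 * m1 ^ 2 = (a + 1) ^ 2 * (ν ^ 2 * (1 - ρ ^ 2)) := by rw [e2, e3]; ring
      _ = _ := by rw [e4, e5, hS2]; ring
  have hm1 : m1 ^ 2 = 2 * a * (2 * ν - c + 1) := mul_left_cancel₀ (by positivity) hSm
  have hνρ : ν * ρ = ν - c + 1 := by linarith
  have key : c * m1 ^ 2 + ν * (-(1 + a) ^ 2 * ρ - (1 + a ^ 2) * ρ + 2 * a) = - (S * (a ^ 2 - 1)) := by
    have e1 : ν * (-(1 + a) ^ 2 * ρ - (1 + a ^ 2) * ρ + 2 * a)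
        = -(2 + 2 * a + 2 * a ^ 2) * (ν * ρ) + 2 * a * ν := by ring
    have e2 : -(S * (a ^ 2 - 1)) = 2 * a * S ^ 2 := by
      have : S = c - a := by linarith
      rw [this]
      linear_combination (c - a) * ha2
    rw [e1, e2, hm1, hνρ, ha2, hS2]
    ring
  have h3 : S * X ≤ S * (a ^ 2 - 1) := by linarith
  exact le_of_mul_le_mul_left h3 hS

/-- **Second order analysis at a touching pair.** -/
theorem touch_static (f : SS) {n e : ℝ} (hn : 0 < n) (he : 0 < e) {x y : Sph}
    (hmax : ∀ x' y' : Sph, f y' - f x' - Psi n (inner ℝ (x' : E3) (y' : E3)) ≤ e)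
    (heq : f y - f x - Psi n (inner ℝ (x : E3) (y : E3)) = e) :
    Pc f x ≤ Real.exp (-2 * Psi n (inner ℝ (x : E3) (y : E3))) * Pc f y := by
  set ρ := inner ℝ (x : E3) (y : E3) with hρ
  have hρ1 : ρ ≤ 1 := inner_sph_le x y
  have hc := cosh_Psi n hρ1
  -- positivity
  have hpos : 0 < Psi n ρ := by
    rcases lt_or_eq_of_le (Psi_nonneg hn.le ρ) with h | h
    · exact h
    · exfalso
      rw [← h, Real.cosh_zero] at hc
      have h1 : ρ = 1 := by
        have : n ^ 2 * (1 - ρ) = 0 := by linarith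
        rcases mul_eq_zero.mp this with h2 | h2
        · have := pow_pos hn 2
          linarith
        · linarith
      have h2 : (x : E3) = (y : E3) := by
        rw [hρ] at h1
        exact (inner_eq_one_iff_of_norm_eq_one (norm_sph x) (norm_sph y)).mp h1
      have h3 : x = y := Subtype.ext h2
      rw [← h3, ← h] at heq
      linarith
  obtain ⟨e₁, e₂, σ₁, he1, he2, hx1, hx2, h12, hy, hσ⟩ := exists_frames x y
  rw [← hρ] at hy hσ
  -- the frame at `y`
  set e₁' : E3 := σ₁ • (x : E3) + (-ρ) • e₁ with he₁'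
  have h11 : inner ℝ e₁ e₁ = (1 : ℝ) := by rw [real_inner_self_eq_norm_sq, he1]; norm_num
  have hxx : inner ℝ (x : E3) (x : E3) = (1 : ℝ) := by
    rw [real_inner_self_eq_norm_sq, norm_sph]; norm_num
  have h1x : inner ℝ e₁ (x : E3) = (0 : ℝ) := by rw [real_inner_comm]; exact hx1
  have h2x : inner ℝ e₂ (x : E3) = (0 : ℝ) := by rw [real_inner_comm]; exact hx2
  have h21 : inner ℝ e₂ e₁ = (0 : ℝ) := by rw [real_inner_comm]; exact h12
  have n1' : ‖e₁'‖ = 1 := by
    have : ‖e₁'‖ ^ 2 = 1 := by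
      rw [← real_inner_self_eq_norm_sq, he₁']
      simp only [inner_add_left, inner_add_right, real_inner_smul_left, real_inner_smul_right,
        hxx, hx1, h1x, h11]
      linarith
    nlinarith [norm_nonneg e₁']
  have hy1' : inner ℝ (y : E3) e₁' = (0 : ℝ) := by
    rw [hy, he₁']
    simp only [inner_add_left, inner_add_right, real_inner_smul_left, real_inner_smul_right,
        hxx, hx1, h1x, h11]
    ring
  have hy2 : inner ℝ (y : E3) e₂ = (0 : ℝ) := by
    rw [hy]
    simp only [inner_add_left, real_inner_smul_left, hx2, h12]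
    ring
  have h1'2 : inner ℝ e₁' e₂ = (0 : ℝ) := by
    rw [he₁']
    simp only [inner_add_left, real_inner_smul_left, hx2, h12]
    ring
  have hLx := Lap_frame f x e₁ e₂ (orthonormal_triple (norm_sph x) he1 he2 hx1 hx2 h12)
  have hLy := Lap_frame f y e₁' e₂ (orthonormal_triple (norm_sph y) n1' he2 hy1' hy2 h1'2)
  -- the speeds
  set a : ℝ := Real.exp (-Psi n ρ) with ha
  have hacS : a = Real.cosh (Psi n ρ) - Real.sinh (Psi n ρ) := by
    rw [ha, Real.cosh_sub_sinh]
  have hapos : 0 < a := Real.exp_pos _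
  have hSpos : 0 < Real.sinh (Psi n ρ) := Real.sinh_pos_iff.mpr hpos
  have t1 := curve_test f hn.le hmax heq hpos he1 n1' hx1 hy1' 1 a
  have t2 := curve_test f hn.le hmax heq hpos he2 he2 hx2 hy2 1 a
  rw [← hρ] at t1 t2
  have i1 : inner ℝ (x : E3) e₁' = σ₁ := by
    rw [he₁']
    simp only [inner_add_right, real_inner_smul_right, hxx, hx1]
    ring
  have i2 : inner ℝ e₁ (y : E3) = σ₁ := by
    rw [hy]
    simp only [inner_add_right, real_inner_smul_right, h1x, h11]
    ring
  have i3 : inner ℝ e₁ e₁' = -ρ := by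
    rw [he₁']
    simp only [inner_add_right, real_inner_smul_right, h1x, h11]
    ring
  have i4 : inner ℝ e₂ (y : E3) = (0 : ℝ) := by rw [real_inner_comm]; exact hy2
  have i5 : inner ℝ e₂ e₂ = (1 : ℝ) := by rw [real_inner_self_eq_norm_sq, he2]; norm_num
  rw [i1, i2, i3] at t1
  rw [hx2, i4, i5] at t2
  obtain ⟨t11, t12⟩ := t1
  obtain ⟨-, t22⟩ := t2
  have key := two_point_algebra (ν := n ^ 2) (c := Real.cosh (Psi n ρ))
    (S := Real.sinh (Psi n ρ)) (a := a) (ρ := ρ) (σ₁ := σ₁)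
    (m1 := a * D1 f y e₁' - 1 * D1 f x e₁)
    (X := a ^ 2 * Lap f y - Lap f x) hSpos (Real.cosh_sq_sub_sinh_sq _) hacS
    (by rw [hc]; ring) hσ (by linarith) (by
      rw [hLx, hLy]
      have hch : 0 < Real.cosh (Psi n ρ) := Real.cosh_pos _
      have : 0 ≤ Real.cosh (Psi n ρ) * (a * D1 f y e₂ - 1 * D1 f x e₂) ^ 2 := by positivity
      linarith)
  have ha2 : Real.exp (-2 * Psi n ρ) = a ^ 2 := by
    rw [ha, ← Real.exp_nat_mul]
    congr 1
    push_cast
    ring
  rw [ha2]
  have e1 : Pc f x = 1 - Lap f x := rfl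
  have e2 : Pc f y = 1 - Lap f y := rfl
  rw [e1, e2]
  linarith

/-- **The two-point estimate is preserved.** -/
theorem two_point {T : ℝ} {u F : ℝ → SS} (h : IsFlow (Icc 0 T) u F) {n : ℝ} (hn : 0 < n)
    (h0 : ∀ x y : Sph, u 0 y - u 0 x ≤ Psi n (inner ℝ (x : E3) (y : E3))) :
    ∀ t ∈ Icc (0 : ℝ) T, ∀ x y : Sph, u t y - u t x ≤ Psi n (inner ℝ (x : E3) (y : E3)) := by
  -- bound of `F`
  obtain ⟨C, hC⟩ : ∃ C, ∀ z ∈ Icc (0 : ℝ) T ×ˢ (univ : Set Sph), ‖F z.1 z.2‖ ≤ C :=
    (isCompact_Icc.prod isCompact_univ).exists_bound_of_continuousOn (h.cF 0)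
  set C' := |C| + 1 with hC'
  have hC'pos : 0 < C' := by positivity
  have hFC : ∀ t ∈ Icc (0 : ℝ) T, ∀ p, F t p < C' := by
    intro t ht p
    have h1 := hC (t, p) ⟨ht, mem_univ p⟩
    rw [Real.norm_eq_abs] at h1
    have h2 := le_abs_self (F t p)
    have h3 := le_abs_self C
    simp only at h1
    linarith
  set B := 4 * C' with hB
  intro t ht x y
  have key : ∀ ε > 0, ε * Real.exp (B * T) ≤ 1 / 2 →
      u t y - u t x - Psi n (inner ℝ (x : E3) (y : E3)) - ε * Real.exp (B * t) < 0 := by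
    intro ε hε hε2
    have hcu : ContinuousOn (fun z : ℝ × Sph => u z.1 z.2) (Icc 0 T ×ˢ univ) := h.cu 0
    refine touch (Q := Sph × Sph) (T := T)
      (Z := fun s q => u s q.2 - u s q.1 - Psi n (inner ℝ (q.1 : E3) (q.2 : E3))
        - ε * Real.exp (B * s)) ?_ ?_ ?_ t ht (x, y)
    · have c1 : ContinuousOn (fun z : ℝ × (Sph × Sph) => u z.1 z.2.2) (Icc 0 T ×ˢ univ) :=
        hcu.comp (f := fun z : ℝ × (Sph × Sph) => (z.1, z.2.2)) (by fun_prop)
          (fun z hz => ⟨hz.1, mem_univ _⟩)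
      have c2 : ContinuousOn (fun z : ℝ × (Sph × Sph) => u z.1 z.2.1) (Icc 0 T ×ˢ univ) :=
        hcu.comp (f := fun z : ℝ × (Sph × Sph) => (z.1, z.2.1)) (by fun_prop)
          (fun z hz => ⟨hz.1, mem_univ _⟩)
      have c3 : Continuous (fun z : ℝ × (Sph × Sph) =>
          Psi n (inner ℝ (z.2.1 : E3) (z.2.2 : E3))) := by
        refine (continuous_Psi n).comp ?_
        have d1 : Continuous (fun z : ℝ × (Sph × Sph) => (z.2.1 : E3)) := by fun_prop
        have d2 : Continuous (fun z : ℝ × (Sph × Sph) => (z.2.2 : E3)) := by fun_prop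
        exact d1.inner d2
      have c4 : Continuous (fun z : ℝ × (Sph × Sph) => ε * Real.exp (B * z.1)) := by fun_prop
      exact ((c1.sub c2).sub c3.continuousOn).sub c4.continuousOn
    · intro q
      have h1 := h0 q.1 q.2
      have h2 : 0 < ε * Real.exp (B * 0) := by positivity
      linarith
    · intro s hs hsT q hq hq' _
      obtain ⟨x₁, y₁⟩ := q
      simp only at hq hq'
      have hsI : s ∈ Icc (0 : ℝ) T := ⟨hs.le, hsT⟩
      set e := ε * Real.exp (B * s) with he
      have hepos : 0 < e := by positivity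
      have hehalf : e ≤ 1 / 2 := by
        refine le_trans ?_ hε2
        rw [he]
        apply mul_le_mul_of_nonneg_left _ hε.le
        apply Real.exp_le_exp.mpr
        have : 0 ≤ B := by positivity
        nlinarith
      have hst := touch_static (u s) hn hepos (x := x₁) (y := y₁)
        (fun x' y' => by have := hq' (x', y'); simp only at this; linarith) (by linarith)
      set Ψ := Psi n (inner ℝ (x₁ : E3) (y₁ : E3)) with hΨ
      -- compare `F`
      have hFy := h.F_apply hsI y₁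
      have hFx := h.F_apply hsI x₁
      have hPx := h.Ppos hsI x₁
      have hPy := h.Ppos hsI y₁
      have hlam := lam_pos (u s)
      have hcmp : F s y₁ ≤ F s x₁ * Real.exp (2 * e) := by
        rw [hFy, hFx, div_mul_eq_mul_div, div_le_div_iff₀ hPy hPx]
        have e1 : Real.exp (2 * u s y₁) * Real.exp (-2 * Ψ)
            = Real.exp (2 * u s x₁) * Real.exp (2 * e) := by
          rw [← Real.exp_add, ← Real.exp_add]
          congr 1
          linarith
        calc lam (u s) * Real.exp (2 * u s y₁) * Pc (u s) x₁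
            ≤ lam (u s) * Real.exp (2 * u s y₁) * (Real.exp (-2 * Ψ) * Pc (u s) y₁) := by
              apply mul_le_mul_of_nonneg_left hst
              positivity
          _ = lam (u s) * (Real.exp (2 * u s y₁) * Real.exp (-2 * Ψ)) * Pc (u s) y₁ := by ring
          _ = _ := by rw [e1]; ring
      have hexp : Real.exp (2 * e) ≤ 1 + 2 * (2 * e) := by
        have h1 : |2 * e| ≤ 1 := by rw [abs_of_pos (by positivity)]; linarith
        have h2 := Real.abs_exp_sub_one_sub_id_le h1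
        have h3 := (abs_le.mp h2).2
        have h4 : (2 * e) ^ 2 ≤ 2 * e := by nlinarith
        linarith
      have hFx' := hFC s hsI x₁
      have hFx0 := h.Fpos s hsI x₁
      refine ⟨F s y₁ - F s x₁ - B * e, ?_, ?_⟩
      · have h1 : F s x₁ * Real.exp (2 * e) ≤ F s x₁ * (1 + 2 * (2 * e)) :=
          mul_le_mul_of_nonneg_left hexp hFx0.le
        have h2 : F s x₁ * e < C' * e := mul_lt_mul_of_pos_right hFx' hepos
        have h3 : B * e = 4 * (C' * e) := by rw [hB]; ring
        nlinarith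
      · have d1 : ∀ p, HasDerivWithinAt (fun s => u s p) (F s p - 1) (Icc 0 s) s := fun p =>
          ((h.du 0).zero hsI p).mono (Icc_subset_Icc_right hsT)
        have d2 : HasDerivWithinAt (fun r : ℝ => ε * Real.exp (B * r)) (B * e) (Icc 0 s) s := by
          have h0 : HasDerivAt (fun r : ℝ => B * r) B s := by
            simpa using (hasDerivAt_id s).const_mul B
          have h1 := ((Real.hasDerivAt_exp (B * s)).comp s h0).const_mul ε
          exact (h1.congr_deriv (by rw [he]; ring)).hasDerivWithinAt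
        exact ((((d1 y₁).sub (d1 x₁)).sub_const Ψ).sub d2).congr_deriv (by ring)
  by_contra hcon
  push Not at hcon
  set g := u t y - u t x - Psi n (inner ℝ (x : E3) (y : E3)) with hg
  have hgpos : 0 < g := by linarith
  have hE : 0 < Real.exp (B * T) := Real.exp_pos _
  have hEt : 0 < Real.exp (B * t) := Real.exp_pos _
  have hδ : 0 < min (1 / 2 / Real.exp (B * T)) (g / Real.exp (B * t)) := by
    apply lt_min <;> positivity
  have := key _ hδ (by
    have := min_le_left (1 / 2 / Real.exp (B * T)) (g / Real.exp (B * t))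
    calc _ ≤ (1 / 2 / Real.exp (B * T)) * Real.exp (B * T) :=
          mul_le_mul_of_nonneg_right this hE.le
      _ = 1 / 2 := by field_simp)
  have h2 : min (1 / 2 / Real.exp (B * T)) (g / Real.exp (B * t)) * Real.exp (B * t) ≤ g := by
    have := min_le_right (1 / 2 / Real.exp (B * T)) (g / Real.exp (B * t))
    calc _ ≤ (g / Real.exp (B * t)) * Real.exp (B * t) :=
          mul_le_mul_of_nonneg_right this hEt.le
      _ = g := by field_simp
  linarith

end Pool.Agent.helper68.S2
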