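import Mathlib
import Pool.Agent.helper68.S2.TwoPt

/-!
# Uniform bounds for `u` and its gradient
-/

set_option autoImplicit false

open MeasureTheory Metric Set Filter
open scoped ContDiff Topology

namespace Pool.Agent.helper68.S2

/-- `|∇u|²` -/
noncomputable def gr (u : SS) : SS := X 0 u * X 0 u + X 1 u * X 1 u + X 2 u * X 2 u

theorem gr_apply (u : SS) (p : Sph) : gr u p = (X 0 u p) ^ 2 + (X 1 u p) ^ 2 + (X 2 u p) ^ 2 := by
  unfold gr
  simp only [ss_add, ss_mul]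
  ring

theorem gr_nonneg (u : SS) (p : Sph) : 0 ≤ gr u p := by
  rw [gr_apply]; positivity

theorem arsinh_le_self {x : ℝ} (hx : 0 ≤ x) : Real.arsinh x ≤ x := by
  rw [← Real.sinh_le_sinh, Real.sinh_arsinh]
  exact Real.self_le_sinh_iff.mpr hx

theorem sinh_le_mul_exp {z : ℝ} (_hz : 0 ≤ z) : Real.sinh z ≤ z * Real.exp z := by
  rw [Real.sinh_eq]
  have h1 := Real.add_one_le_exp (-(2 * z))
  have h2 : Real.exp (-z) = Real.exp z * Real.exp (-(2 * z)) := by
    rw [← Real.exp_add]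
    congr 1
    ring
  have h3 := Real.exp_pos z
  rw [h2]
  nlinarith

theorem half_one_sub_cos (s : ℝ) : (1 - Real.cos s) / 2 = (Real.sin (s / 2)) ^ 2 := by
  have := Real.cos_sq' (s / 2)
  have h2 := Real.cos_two_mul (s / 2)
  rw [mul_div_cancel₀ _ two_ne_zero] at h2
  rw [h2, this]
  ring

theorem Psi_cos_le {n : ℝ} (hn : 0 ≤ n) {s : ℝ} (hs : 0 ≤ s) : Psi n (Real.cos s) ≤ n * s := by
  unfold Psi
  rw [half_one_sub_cos, Real.sqrt_sq_eq_abs]
  have h2 : |Real.sin (s / 2)| ≤ s / 2 := by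
    have := Real.abs_sin_sub_sin_le (s / 2) 0
    rw [Real.sin_zero, sub_zero, sub_zero, abs_of_nonneg (by positivity : (0 : ℝ) ≤ s / 2)] at this
    exact this
  have h3 : n * |Real.sin (s / 2)| ≤ n * (s / 2) := mul_le_mul_of_nonneg_left h2 hn
  have h4 : Real.arsinh (n * |Real.sin (s / 2)|) ≤ n * |Real.sin (s / 2)| :=
    arsinh_le_self (by positivity)
  linarith

/-- the derivative of the extension through the rotation fields -/
theorem D1_eq (f : SS) (p : Sph) (v : E3) :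
    D1 f p v = ((p : E3) 1 * v 2 - (p : E3) 2 * v 1) * X 0 f p
      + ((p : E3) 2 * v 0 - (p : E3) 0 * v 2) * X 1 f p
      + ((p : E3) 0 * v 1 - (p : E3) 1 * v 0) * X 2 f p := by
  have h1 : v = ((p : E3) 0 * v 0 + (p : E3) 1 * v 1 + (p : E3) 2 * v 2) • (p : E3)
      + ((p : E3) 1 * v 2 - (p : E3) 2 * v 1) • cr 0 p
      + ((p : E3) 2 * v 0 - (p : E3) 0 * v 2) • cr 1 p
      + ((p : E3) 0 * v 1 - (p : E3) 1 * v 0) • cr 2 p := by
    have hsq := co_sq p
    simp only [co_apply] at hsq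
    ext j
    fin_cases j
    · simp [cr0, cr1, cr2]
      linear_combination (-v 0) * hsq
    · simp [cr0, cr1, cr2]
      linear_combination (-v 1) * hsq
    · simp [cr0, cr1, cr2]
      linear_combination (-v 2) * hsq
  have h2 : D1 f p v = D1 f p (((p : E3) 0 * v 0 + (p : E3) 1 * v 1 + (p : E3) 2 * v 2) • (p : E3)
      + ((p : E3) 1 * v 2 - (p : E3) 2 * v 1) • cr 0 p
      + ((p : E3) 2 * v 0 - (p : E3) 0 * v 2) • cr 1 p
      + ((p : E3) 0 * v 1 - (p : E3) 1 * v 0) • cr 2 p) := by rw [← h1]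
  rw [h2, D1_add, D1_add, D1_add, D1_smul, D1_smul, D1_smul, D1_smul, D1_self]
  rw [← X_D1, ← X_D1, ← X_D1]
  ring

/-- gradient bound from the two-point bound -/
theorem gr_le_of_two_point (u : SS) {n : ℝ} (hn : 0 < n)
    (h : ∀ x y : Sph, u y - u x ≤ Psi n (inner ℝ (x : E3) (y : E3))) (p : Sph) :
    gr u p ≤ n ^ 2 := by
  -- directional derivative
  have hdir : ∀ e : E3, ‖e‖ = 1 → inner ℝ (p : E3) e = 0 → D1 u p e ≤ n := by
    intro e he hpe
    have h1 := hasDerivAt_ext_gc u (p : E3) e (norm_sph p) he hpe 1 0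
    simp only [mul_zero, Real.sin_zero, Real.cos_zero, mul_one, neg_zero, zero_smul,
      zero_add, one_smul, gc_zero] at h1
    have h2 : HasDerivWithinAt (fun s => ext u (gc (p : E3) e 1 s)) (D1 u p e) (Ioi 0) 0 :=
      h1.hasDerivWithinAt
    rw [hasDerivWithinAt_iff_tendsto_slope' (by simp)] at h2
    refine le_of_tendsto h2 ?_
    filter_upwards [self_mem_nhdsWithin] with s hs
    have hs : (0 : ℝ) < s := hs
    rw [slope_def_field, gc_zero, ext_sph, sub_zero]
    rw [div_le_iff₀ hs]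
    have h3 : ((gcs p e he hpe 1 s : Sph) : E3) = gc p e 1 s := rfl
    have h4 := h p (gcs p e he hpe 1 s)
    have h5 : u (gcs p e he hpe 1 s) = ext u (gc p e 1 s) := by rw [← h3, ext_sph]
    rw [h5, h3] at h4
    have h6 : inner ℝ (p : E3) (gc p e 1 s) = Real.cos s := by
      unfold gc
      rw [inner_add_right, real_inner_smul_right, real_inner_smul_right, hpe,
        real_inner_self_eq_norm_sq, norm_sph]
      simp
    rw [h6] at h4
    exact h4.trans (Psi_cos_le hn.le hs.le)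
  set g0 := X 0 u p with hg0
  set g1 := X 1 u p with hg1
  set g2 := X 2 u p with hg2
  set v : E3 := g0 • cr 0 p + g1 • cr 1 p + g2 • cr 2 p with hv
  have hDv : D1 u p v = g0 ^ 2 + g1 ^ 2 + g2 ^ 2 := by
    rw [hv, D1_add, D1_add, D1_smul, D1_smul, D1_smul, ← X_D1, ← X_D1, ← X_D1]
    ring
  have hsq := co_sq p
  simp only [co_apply] at hsq
  have hvn : ‖v‖ ^ 2 ≤ g0 ^ 2 + g1 ^ 2 + g2 ^ 2 := by
    rw [EuclideanSpace.norm_eq, Real.sq_sqrt (by positivity), Fin.sum_univ_three]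
    simp only [Real.norm_eq_abs, sq_abs]
    have e0 : v 0 = g1 * (p : E3) 2 - g2 * (p : E3) 1 := by simp [hv, cr0, cr1, cr2]; ring
    have e1 : v 1 = g2 * (p : E3) 0 - g0 * (p : E3) 2 := by simp [hv, cr0, cr1, cr2]; ring
    have e2 : v 2 = g0 * (p : E3) 1 - g1 * (p : E3) 0 := by simp [hv, cr0, cr1, cr2]; ring
    rw [e0, e1, e2]
    have e3 : (g1 * (p : E3) 2 - g2 * (p : E3) 1) ^ 2 + (g2 * (p : E3) 0 - g0 * (p : E3) 2) ^ 2
        + (g0 * (p : E3) 1 - g1 * (p : E3) 0) ^ 2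
        = (g0 ^ 2 + g1 ^ 2 + g2 ^ 2) - (g0 * (p : E3) 0 + g1 * (p : E3) 1 + g2 * (p : E3) 2) ^ 2 := by
      linear_combination (g0 ^ 2 + g1 ^ 2 + g2 ^ 2) * hsq
    rw [e3]
    nlinarith [sq_nonneg (g0 * (p : E3) 0 + g1 * (p : E3) 1 + g2 * (p : E3) 2)]
  have hpv : inner ℝ (p : E3) v = 0 := by
    rw [EuclideanSpace.inner_eq_star_dotProduct]
    simp [hv, cr0, cr1, cr2, dotProduct, Fin.sum_univ_three]
    ring
  rw [gr_apply, ← hg0, ← hg1, ← hg2]
  by_cases hv0 : v = 0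
  · rw [hv0] at hDv
    have : D1 u p 0 = 0 := map_zero _
    rw [this] at hDv
    rw [← hDv]
    positivity
  · have hvpos : 0 < ‖v‖ := norm_pos_iff.mpr hv0
    have h1 := hdir (‖v‖⁻¹ • v) (by
      rw [norm_smul, norm_inv, norm_norm, inv_mul_cancel₀ hvpos.ne']) (by
      rw [real_inner_smul_right, hpv, mul_zero])
    rw [D1_smul, hDv, inv_mul_le_iff₀ hvpos] at h1
    set G := g0 ^ 2 + g1 ^ 2 + g2 ^ 2 with hG
    -- `G ≤ ‖v‖ n`, `‖v‖² ≤ G`
    have h2 : ‖v‖ ≤ n := by nlinarith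
    nlinarith

/-- a uniform bound for the rotation derivatives -/
theorem exists_X_bound (f : SS) : ∃ C, 0 ≤ C ∧ ∀ i p, |X i f p| ≤ C := by
  have h : ∀ i, ∃ C, ∀ p : Sph, |X i f p| ≤ C := by
    intro i
    obtain ⟨C, hC⟩ := (isCompact_univ (X := Sph)).exists_bound_of_continuousOn
      (continuous_ss (X i f)).continuousOn
    exact ⟨C, fun p => hC p (mem_univ p)⟩
  choose C hC using h
  refine ⟨|C 0| + |C 1| + |C 2|, by positivity, fun i p => ?_⟩
  have h1 := (hC i p).trans (le_abs_self (C i))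
  fin_cases i
  · simp only [Fin.zero_eta, Fin.isValue] at h1 ⊢
    have := abs_nonneg (C 1)
    have := abs_nonneg (C 2)
    linarith
  · simp only [Fin.mk_one, Fin.isValue] at h1 ⊢
    have := abs_nonneg (C 0)
    have := abs_nonneg (C 2)
    linarith
  · simp only [Fin.reduceFinMk, Fin.isValue] at h1 ⊢
    have := abs_nonneg (C 1)
    have := abs_nonneg (C 0)
    linarith

theorem abs_coord_le {v : E3} (h : ‖v‖ = 1) (j : Fin 3) : |v j| ≤ 1 := by
  have := EuclideanSpace.norm_eq v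
  have h1 : ‖v j‖ ≤ ‖v‖ := PiLp.norm_apply_le v j
  rw [h, Real.norm_eq_abs] at h1
  exact h1

theorem D1_le (f : SS) {C : ℝ} (hC : ∀ i p, |X i f p| ≤ C) (p : Sph) {v : E3} (hv : ‖v‖ = 1) :
    |D1 f p v| ≤ 6 * C := by
  rw [D1_eq]
  have a0 := abs_coord_le (norm_sph p) 0
  have a1 := abs_coord_le (norm_sph p) 1
  have a2 := abs_coord_le (norm_sph p) 2
  have b0 := abs_coord_le hv 0
  have b1 := abs_coord_le hv 1
  have b2 := abs_coord_le hv 2
  have key : ∀ {a b c d x : ℝ}, |a| ≤ 1 → |b| ≤ 1 → |c| ≤ 1 → |d| ≤ 1 → |x| ≤ C →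
      |(a * b - c * d) * x| ≤ 2 * C := by
    intro a b c d x ha hb hc hd hx
    rw [abs_mul]
    have h1 : |a * b - c * d| ≤ 2 := by
      have h2 : |a * b| ≤ 1 := by
        rw [abs_mul]; exact mul_le_one₀ ha (abs_nonneg _) hb
      have h3 : |c * d| ≤ 1 := by
        rw [abs_mul]; exact mul_le_one₀ hc (abs_nonneg _) hd
      have := abs_sub (a * b) (c * d)
      linarith
    exact mul_le_mul h1 hx (abs_nonneg _) (by norm_num)
  have k0 := key a1 b2 a2 b1 (hC 0 p)
  have k1 := key a2 b0 a0 b2 (hC 1 p)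
  have k2 := key a0 b1 a1 b0 (hC 2 p)
  refine (abs_add_le _ _).trans ?_
  have := abs_add_le (((p : E3) 1 * v 2 - (p : E3) 2 * v 1) * X 0 f p)
    (((p : E3) 2 * v 0 - (p : E3) 0 * v 2) * X 1 f p)
  linarith

/-- every smooth function satisfies a two-point bound -/
theorem exists_two_point (f : SS) :
    ∃ n, 0 < n ∧ ∀ x y : Sph, f y - f x ≤ Psi n (inner ℝ (x : E3) (y : E3)) := by
  obtain ⟨C₀, hC₀, hC⟩ := exists_X_bound f
  set C := 6 * C₀ with hCdef
  have hCnn : 0 ≤ C := by positivity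
  have hpi := Real.pi_pos
  set n := C * Real.pi / 2 * Real.exp (C * Real.pi / 2) + 1 with hn
  have hnpos : 0 < n := by positivity
  refine ⟨n, hnpos, fun x y => ?_⟩
  obtain ⟨e₁, e₂, σ₁, he1, -, hx1, -, -, hy, hσ⟩ := exists_frames x y
  set ρ := inner ℝ (x : E3) (y : E3) with hρ
  -- make the sine non-negative
  obtain ⟨e, τ, he, hxe, hτ, hy', hτ2⟩ : ∃ (e : E3) (τ : ℝ), ‖e‖ = 1 ∧ inner ℝ (x : E3) e = 0 ∧
      0 ≤ τ ∧ (y : E3) = ρ • (x : E3) + τ • e ∧ ρ ^ 2 + τ ^ 2 = 1 := by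
    rcases le_total 0 σ₁ with h | h
    · exact ⟨e₁, σ₁, he1, hx1, h, hy, hσ⟩
    · refine ⟨-e₁, -σ₁, by rw [norm_neg]; exact he1, by rw [inner_neg_right, hx1, neg_zero],
        by linarith, ?_, by linarith [neg_sq σ₁]⟩
      rw [hy]
      simp
  have hρ1 : ρ ≤ 1 := inner_sph_le x y
  have hρm : -1 ≤ ρ := by nlinarith
  set θ := Real.arccos ρ with hθ
  have hθ0 : 0 ≤ θ := Real.arccos_nonneg ρ
  have hθpi : θ ≤ Real.pi := Real.arccos_le_pi ρ
  have hcos : Real.cos θ = ρ := Real.cos_arccos hρm hρ1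
  have hsin : Real.sin θ = τ := by
    rw [hθ, Real.sin_arccos]
    rw [show 1 - ρ ^ 2 = τ ^ 2 by linarith, Real.sqrt_sq hτ]
  have hyg : (y : E3) = gc x e 1 θ := by
    unfold gc
    rw [one_mul, hcos, hsin]
    exact hy'
  -- mean value estimate
  have h1 : ext f (gc x e 1 θ) - ext f (gc x e 1 0) ≤ C * (θ - 0) := by
    have hder : ∀ s, HasDerivAt (fun s => ext f (gc x e 1 s))
        (D1 f (gc x e 1 s) (-(1 * Real.sin (1 * s)) • (x : E3) + (1 * Real.cos (1 * s)) • e)) s :=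
      fun s => hasDerivAt_ext_gc f x e (norm_sph x) he hxe 1 s
    have hbd : ∀ s, D1 f (gc x e 1 s) (-(1 * Real.sin (1 * s)) • (x : E3)
        + (1 * Real.cos (1 * s)) • e) ≤ C := by
      intro s
      have h3 : ((gcs x e he hxe 1 s : Sph) : E3) = gc x e 1 s := rfl
      rw [← h3]
      refine (le_abs_self _).trans (D1_le f hC _ ?_)
      have hxx : inner ℝ (x : E3) (x : E3) = (1 : ℝ) := by
        rw [real_inner_self_eq_norm_sq, norm_sph]; norm_num
      have hee : inner ℝ e e = (1 : ℝ) := by rw [real_inner_self_eq_norm_sq, he]; norm_num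
      have hex : inner ℝ e (x : E3) = (0 : ℝ) := by rw [real_inner_comm]; exact hxe
      have h4 : ‖-(1 * Real.sin (1 * s)) • (x : E3) + (1 * Real.cos (1 * s)) • e‖ ^ 2 = 1 := by
        rw [← real_inner_self_eq_norm_sq]
        simp only [inner_add_left, inner_add_right, real_inner_smul_left, real_inner_smul_right,
          hxx, hxe, hee, hex]
        have := Real.sin_sq_add_cos_sq (1 * s)
        linear_combination this
      nlinarith [norm_nonneg (-(1 * Real.sin (1 * s)) • (x : E3) + (1 * Real.cos (1 * s)) • e)]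
    exact (convex_univ (𝕜 := ℝ)).image_sub_le_mul_sub_of_deriv_le
      (fun s _ => (hder s).continuousAt.continuousWithinAt)
      (fun s _ => (hder s).differentiableAt.differentiableWithinAt)
      (fun s _ => by rw [(hder s).deriv]; exact hbd s) 0 (mem_univ _) θ (mem_univ _) hθ0
  rw [gc_zero, ← hyg, ext_sph, ext_sph, sub_zero] at h1
  refine h1.trans ?_
  rw [← hcos]
  unfold Psi
  rw [half_one_sub_cos, Real.sqrt_sq_eq_abs]
  have hs0 : 0 ≤ Real.sin (θ / 2) := Real.sin_nonneg_of_nonneg_of_le_pi (by linarith) (by linarith)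
  rw [abs_of_nonneg hs0]
  have h2 : C * θ / 2 ≤ Real.arsinh (n * Real.sin (θ / 2)) := by
    rw [← Real.sinh_le_sinh, Real.sinh_arsinh]
    have h3 := sinh_le_mul_exp (z := C * θ / 2) (by positivity)
    have h4 := Real.mul_le_sin (x := θ / 2) (by linarith) (by linarith)
    have h5 : Real.exp (C * θ / 2) ≤ Real.exp (C * Real.pi / 2) := by
      apply Real.exp_le_exp.mpr
      have := mul_le_mul_of_nonneg_left hθpi hCnn
      linarith
    calc Real.sinh (C * θ / 2) ≤ C * θ / 2 * Real.exp (C * θ / 2) := h3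
      _ ≤ C * θ / 2 * Real.exp (C * Real.pi / 2) := by
        apply mul_le_mul_of_nonneg_left h5; positivity
      _ = C * Real.pi / 2 * Real.exp (C * Real.pi / 2) * (2 / Real.pi * (θ / 2)) := by
        field_simp
      _ ≤ n * (2 / Real.pi * (θ / 2)) := by
        apply mul_le_mul_of_nonneg_right _ (by positivity)
        rw [hn]; linarith
      _ ≤ n * Real.sin (θ / 2) := mul_le_mul_of_nonneg_left h4 hnpos.le
  linarith

end Pool.Agent.helper68.S2
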