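import Mathlib
import Pool.Agent.helper68.S2.Grad
import Pool.Agent.helper68.S2.EnDefs

/-!
# Conservation of energy and uniform bounds for `u`
-/

set_option autoImplicit false

open MeasureTheory Metric Set Filter
open scoped ContDiff Topology

namespace Pool.Agent.helper68.S2

variable {J : Set ℝ} {u F : ℝ → SS}

theorem X_one_ss (i : Fin 3) : X i (1 : SS) = 0 := (X i).map_one_eq_zero

theorem X_algebraMap (i : Fin 3) (c : ℝ) : X i (algebraMap ℝ SS c) = 0 :=
  (X i).map_algebraMap c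

/-- derivative of the energy along any curve -/
theorem dEn_curve (hJ : Convex ℝ J) {u v : ℝ → SS} (hu : CC J u) (hv : CC J v) (hd : CD J u v)
    {t : ℝ} (ht : t ∈ J) :
    HasDerivWithinAt (fun s => En (u s)) (2 * I (Pc (u t) * v t)) J t := by
  have h1 : ∀ i, HasDerivWithinAt (fun s => I (X i (u s) * X i (u s)))
      (I (X i (v t) * X i (u t) + X i (u t) * X i (v t))) J t := fun i =>
    I_deriv (v := fun t => X i (v t) * X i (u t) + X i (u t) * X i (v t)) hJ
      (((hd.X i).mul (hd.X i)) 0) ((((hv.X i).mul (hu.X i)).add ((hu.X i).mul (hv.X i))) 0) ht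
  have h2 : HasDerivWithinAt (fun s => I (u s)) (I (v t)) J t := I_deriv hJ (hd 0) (hv 0) ht
  have h3 := (HasDerivWithinAt.fun_sum fun i (_ : i ∈ (Finset.univ : Finset (Fin 3))) => h1 i).add
    (h2.const_mul 2)
  refine h3.congr_deriv ?_
  have e1 : ∀ i, I (X i (v t) * X i (u t) + X i (u t) * X i (v t))
      = -2 * I (X i (X i (u t)) * v t) := by
    intro i
    have e2 := ibp i (X i (u t)) (v t)
    rw [map_add, mul_comm (X i (v t)) (X i (u t))]
    linarith
  simp only [e1, Fin.sum_univ_three]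
  unfold Pc
  rw [Lap_eq]
  simp only [sub_mul, add_mul, one_mul, map_sub, map_add]
  ring

namespace IsFlow

theorem dEn (h : IsFlow J u F) (hJ : Convex ℝ J) {t : ℝ} (ht : t ∈ J) :
    HasDerivWithinAt (fun s => En (u s)) 0 J t := by
  refine (dEn_curve hJ h.cu (h.cF.sub (CC.const 1)) h.du ht).congr_deriv ?_
  rw [mul_sub, mul_one, map_sub, mul_comm (Pc (u t)) (F t), h.eq t ht, map_smul, I_Pc]
  unfold lam
  have hA := (ar_pos (u t)).ne'
  change 2 * (4 * Real.pi / ar (u t) * ar (u t) - 4 * Real.pi) = 0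
  field_simp
  ring

theorem En_eq {T : ℝ} (h : IsFlow (Icc 0 T) u F) {t : ℝ} (ht : t ∈ Icc (0 : ℝ) T) :
    En (u t) = En (u 0) := by
  have h0 : (0 : ℝ) ∈ Icc (0 : ℝ) T := ⟨le_rfl, ht.1.trans ht.2⟩
  have key := (convex_Icc (0 : ℝ) T).norm_image_sub_le_of_norm_hasDerivWithin_le
    (f := fun s => En (u s)) (f' := fun _ => 0) (C := 0) (x := 0) (y := t)
    (fun s hs => h.dEn (convex_Icc 0 T) hs) (fun s _ => by simp) h0 ht
  simp only [zero_mul, norm_le_zero_iff] at key
  exact sub_eq_zero.mp key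

end IsFlow

theorem En_eq_gr (u : SS) : En u = I (gr u) + 2 * I u := by
  unfold En gr
  rw [Fin.sum_univ_three, map_add, map_add]

/-- **Uniform `C¹` bound.** -/
theorem bounds_u (u₀ : SS) : ∃ M n : ℝ, 0 < M ∧ 0 < n ∧ ∀ (T : ℝ) (u F : ℝ → SS),
    IsFlow (Icc 0 T) u F → u 0 = u₀ → ∀ t ∈ Icc (0 : ℝ) T, ∀ p, |u t p| ≤ M ∧ gr (u t) p ≤ n := by
  obtain ⟨n, hn, h2⟩ := exists_two_point u₀
  have hpi := Real.pi_pos
  set m : ℝ := 2 * Real.arsinh n with hm
  have hm0 : 0 ≤ m := by
    have := Real.arsinh_nonneg_iff.mpr hn.le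
    linarith
  set M : ℝ := (|En u₀| + n ^ 2 * (4 * Real.pi)) / (8 * Real.pi) + m + 1 with hM
  have hMpos : 0 < M := by positivity
  refine ⟨M, n ^ 2, hMpos, by positivity, fun T u F h hu0 t ht p => ?_⟩
  have htp := two_point h hn (by rw [hu0]; exact h2) t ht
  have hgr : ∀ q, gr (u t) q ≤ n ^ 2 := gr_le_of_two_point (u t) hn htp
  refine ⟨?_, hgr p⟩
  -- oscillation
  have hosc : ∀ x y : Sph, u t y - u t x ≤ m := by
    intro x y
    refine (htp x y).trans ?_
    unfold Psi
    have h3 : √((1 - inner ℝ (x : E3) (y : E3)) / 2) ≤ 1 := by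
      rw [Real.sqrt_le_one]
      have := abs_le.mp (abs_real_inner_le_norm (x : E3) (y : E3))
      rw [norm_sph, norm_sph] at this
      linarith
    have h4 : n * √((1 - inner ℝ (x : E3) (y : E3)) / 2) ≤ n := by
      calc _ ≤ n * 1 := mul_le_mul_of_nonneg_left h3 hn.le
        _ = n := mul_one n
    have h5 := Real.arsinh_le_arsinh.mpr h4
    linarith
  -- the integral of `u`
  have hE : En (u t) = En u₀ := by rw [h.En_eq ht, hu0]
  rw [En_eq_gr] at hE
  have hgI : I (gr (u t)) ≤ n ^ 2 * (4 * Real.pi) := by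
    have := I_mono (f := gr (u t)) (g := algebraMap ℝ SS (n ^ 2)) fun q => by
      rw [ss_algebraMap]; exact hgr q
    rwa [I_const] at this
  have hgI0 : 0 ≤ I (gr (u t)) := I_nonneg (gr_nonneg _)
  have hEa := abs_le.mp (le_refl |En u₀|)
  have hI1 : I (u t) ≤ (|En u₀| + n ^ 2 * (4 * Real.pi)) / 2 := by linarith
  have hI2 : -((|En u₀| + n ^ 2 * (4 * Real.pi)) / 2) ≤ I (u t) := by linarith
  -- compare with the mean
  have hup : u t p * (4 * Real.pi) ≤ I (u t) + m * (4 * Real.pi) := by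
    have := I_mono (f := algebraMap ℝ SS (u t p - m)) (g := u t) fun q => by
      rw [ss_algebraMap]; linarith [hosc q p]
    rw [I_const] at this
    linarith
  have hlo : I (u t) ≤ u t p * (4 * Real.pi) + m * (4 * Real.pi) := by
    have := I_mono (f := u t) (g := algebraMap ℝ SS (u t p + m)) fun q => by
      rw [ss_algebraMap]; linarith [hosc p q]
    rw [I_const] at this
    linarith
  set A := (|En u₀| + n ^ 2 * (4 * Real.pi)) / (8 * Real.pi) with hA
  have hA2 : (|En u₀| + n ^ 2 * (4 * Real.pi)) / 2 = A * (4 * Real.pi) := by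
    rw [hA]; field_simp; ring
  rw [hA2] at hI1 hI2
  have h4pi : 0 < 4 * Real.pi := by positivity
  rw [abs_le]
  constructor
  · have : -(A + m) * (4 * Real.pi) ≤ u t p * (4 * Real.pi) := by linarith
    have := le_of_mul_le_mul_right this h4pi
    linarith
  · have : u t p * (4 * Real.pi) ≤ (A + m) * (4 * Real.pi) := by linarith
    have := le_of_mul_le_mul_right this h4pi
    linarith

end Pool.Agent.helper68.S2
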