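import Mathlib
import Pool.Agent.helper68.S2.Bd

/-!
# Uniform curvature bounds
-/

set_option autoImplicit false

open MeasureTheory Metric Set Filter
open scoped ContDiff Topology

namespace Pool.Agent.helper68.S2

/-- sum of the squares of all second rotation derivatives -/
noncomputable def Hs (u : SS) (p : Sph) : ℝ := ∑ i : Fin 3, ∑ j : Fin 3, (X j (X i u) p) ^ 2

theorem Lap_mul_ss (f g : SS) : Lap (f * g) = Lap f * g
    + (2 : ℝ) • (X 0 f * X 0 g + X 1 f * X 1 g + X 2 f * X 2 g) + f * Lap g := by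
  simp only [Lap_eq, X_mul, map_add]
  rw [two_smul]
  ring

theorem Lap_mul_apply (f g : SS) (p : Sph) : Lap (f * g) p = Lap f p * g p
    + 2 * (X 0 f p * X 0 g p + X 1 f p * X 1 g p + X 2 f p * X 2 g p) + f p * Lap g p := by
  rw [Lap_mul_ss]
  simp only [ss_add, ss_mul, ss_smul]

theorem Lap_Ex (c : ℝ) (u : SS) (p : Sph) :
    Lap (Ex c u) p = Ex c u p * (c * Lap u p + c ^ 2 * gr u p) := by
  rw [gr_apply, Lap_eq, Lap_eq]
  simp only [X_Ex, X_smul, X_mul, ss_add, ss_mul, ss_smul]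
  ring

theorem Lap_Lg {f : SS} (hf : ∀ p, 0 < f p) (p : Sph) :
    Lap (Lg f) p = Lap f p / f p - gr f p / (f p) ^ 2 := by
  have hp := (hf p).ne'
  rw [gr_apply, Lap_eq, Lap_eq]
  simp only [X_Lg hf, X_mul, X_Inv hf, ss_add, ss_mul, ss_neg, Inv_apply hf]
  field_simp
  ring

theorem X_gr (u : SS) (j : Fin 3) (p : Sph) : X j (gr u) p =
    2 * (X 0 u p * X j (X 0 u) p + X 1 u p * X j (X 1 u) p + X 2 u p * X j (X 2 u) p) := by
  unfold gr
  simp only [map_add, X_mul, ss_add, ss_mul]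
  ring

theorem Lap_gr (u : SS) (p : Sph) : Lap (gr u) p =
    2 * Hs u p + 2 * (X 0 u p * X 0 (Lap u) p + X 1 u p * X 1 (Lap u) p + X 2 u p * X 2 (Lap u) p)
    := by
  unfold gr Hs
  rw [map_add, map_add, ss_add, ss_add, Lap_mul_apply, Lap_mul_apply, Lap_mul_apply]
  simp only [Lap_X, Fin.sum_univ_three]
  ring

theorem gr_gr_le (u : SS) (p : Sph) : gr (gr u) p ≤ 4 * gr u p * Hs u p := by
  rw [gr_apply (gr u), X_gr, X_gr, X_gr, gr_apply]
  unfold Hs
  simp only [Fin.sum_univ_three]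
  set a := X 0 u p
  set b := X 1 u p
  set c := X 2 u p
  have key : ∀ x y z : ℝ, (a * x + b * y + c * z) ^ 2 ≤ (a ^ 2 + b ^ 2 + c ^ 2) * (x ^ 2 + y ^ 2 + z ^ 2) := by
    intro x y z
    nlinarith [sq_nonneg (a * y - b * x), sq_nonneg (a * z - c * x), sq_nonneg (b * z - c * y)]
  have k0 := key (X 0 (X 0 u) p) (X 0 (X 1 u) p) (X 0 (X 2 u) p)
  have k1 := key (X 1 (X 0 u) p) (X 1 (X 1 u) p) (X 1 (X 2 u) p)
  have k2 := key (X 2 (X 0 u) p) (X 2 (X 1 u) p) (X 2 (X 2 u) p)
  nlinarith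

theorem Hs_nonneg (u : SS) (p : Sph) : 0 ≤ Hs u p := by
  unfold Hs
  positivity

theorem Hs_ge (u : SS) (p : Sph) : (Lap u p) ^ 2 ≤ 3 * Hs u p := by
  rw [Lap_eq, ss_add, ss_add]
  unfold Hs
  simp only [Fin.sum_univ_three]
  set a := X 0 (X 0 u) p
  set b := X 1 (X 1 u) p
  set c := X 2 (X 2 u) p
  nlinarith [sq_nonneg (a - b), sq_nonneg (b - c), sq_nonneg (a - c), sq_nonneg (X 0 (X 1 u) p),
    sq_nonneg (X 0 (X 2 u) p), sq_nonneg (X 1 (X 0 u) p), sq_nonneg (X 1 (X 2 u) p),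
    sq_nonneg (X 2 (X 0 u) p), sq_nonneg (X 2 (X 1 u) p)]

/-! ### Static identities for the flow relation -/

section Static

variable {u F : SS} {k : ℝ} (heq : F * Pc u = k • Ex 2 u) (hF : ∀ p, 0 < F p)
  (hP : ∀ p, 0 < Pc u p)

include heq hF hP

theorem stat_X (i : Fin 3) (p : Sph) :
    X i F p = 2 * F p * X i u p - F p / Pc u p * X i (Pc u) p := by
  have h1 : X i (F * Pc u) = X i (k • Ex 2 u) := by rw [heq]
  rw [X_mul, X_smul, X_Ex] at h1
  have h2 : (X i F * Pc u + F * X i (Pc u)) p = (k • (2 : ℝ) • (Ex 2 u * X i u)) p := by rw [h1]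
  simp only [ss_add, ss_mul, ss_smul] at h2
  have h3 : (F * Pc u) p = (k • Ex 2 u) p := by rw [heq]
  simp only [ss_mul, ss_smul] at h3
  have h4 : k * (2 * (Ex 2 u p * X i u p)) = 2 * (F p * Pc u p) * X i u p := by
    rw [h3]; ring
  rw [h4] at h2
  have hPp := (hP p).ne'
  field_simp
  linarith

theorem stat_Lap (p : Sph) :
    Lap F p = F p * (2 * (1 - Pc u p) + 4 * gr u p)
      - (2 * (X 0 F p * X 0 (Pc u) p + X 1 F p * X 1 (Pc u) p + X 2 F p * X 2 (Pc u) p)
        + F p * Lap (Pc u) p) / Pc u p := by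
  have h1 : Lap (F * Pc u) p = Lap (k • Ex 2 u) p := by rw [heq]
  rw [Lap_mul_apply, map_smul, ss_smul, Lap_Ex] at h1
  have h3 : (F * Pc u) p = (k • Ex 2 u) p := by rw [heq]
  simp only [ss_mul, ss_smul] at h3
  have hL : Lap u p = 1 - Pc u p := by
    unfold Pc
    rw [ss_sub, ss_one]
    ring
  have h4 : k * (Ex 2 u p * (2 * Lap u p + 2 ^ 2 * gr u p))
      = F p * Pc u p * (2 * (1 - Pc u p) + 4 * gr u p) := by
    rw [h3, hL]; ring
  rw [h4] at h1
  have hPp := (hP p).ne'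
  field_simp
  linarith

theorem X_Pc (i : Fin 3) (p : Sph) : X i (Lap u) p = - X i (Pc u) p := by
  unfold Pc
  rw [map_sub, X_one_ss, ss_sub, ss_zero]
  ring

/-- evolution of `log P + |∇u|²` -/
theorem stat_one (p : Sph) :
    -(Lap F p / Pc u p) + 2 * (X 0 u p * X 0 F p + X 1 u p * X 1 F p + X 2 u p * X 2 F p)
    = F p / Pc u p * Lap (Lg (Pc u) + gr u) p - 2 * (F p / Pc u p) + 2 * F p
      - 2 * (F p / Pc u p) * Hs u p - (F p / Pc u p) * (gr F p / F p ^ 2) + 4 * F p * gr u p := by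
  rw [map_add, ss_add, Lap_Lg hP, Lap_gr, stat_Lap heq hF hP, gr_apply F, gr_apply (Pc u),
    X_Pc heq hF hP, X_Pc heq hF hP, X_Pc heq hF hP, stat_X heq hF hP, stat_X heq hF hP,
    stat_X heq hF hP, gr_apply u]
  have hPp := (hP p).ne'
  have hFp := (hF p).ne'
  field_simp
  ring

/-- evolution of `log F + log A + β |∇u|²` -/
theorem stat_two (β c : ℝ) (p : Sph) :
    Lap F p / Pc u p + 2 * F p - 2
      + β * (2 * (X 0 u p * X 0 F p + X 1 u p * X 1 F p + X 2 u p * X 2 F p))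
    = F p / Pc u p * Lap (Lg F + c • (1 : SS) + β • gr u) p
      + (F p / Pc u p) * (gr F p / F p ^ 2) + 2 * F p - 2
      + β * (4 * F p * gr u p - 2 * (F p / Pc u p) * Hs u p) := by
  have h1 : Lap (1 : SS) = 0 := by
    rw [Lap_eq]; simp
  rw [map_add, map_add, map_smul, map_smul, ss_add, ss_add, ss_smul, ss_smul, h1, ss_zero,
    Lap_Lg hF, Lap_gr, gr_apply F,
    X_Pc heq hF hP, X_Pc heq hF hP, X_Pc heq hF hP, gr_apply u]
  have hPp := (hP p).ne'
  have hFp := (hF p).ne'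
  have e0 := stat_X heq hF hP 0 p
  have e1 := stat_X heq hF hP 1 p
  have e2 := stat_X heq hF hP 2 p
  have f0 : X 0 (Pc u) p = Pc u p / F p * (2 * F p * X 0 u p - X 0 F p) := by
    rw [e0]; field_simp; ring
  have f1 : X 1 (Pc u) p = Pc u p / F p * (2 * F p * X 1 u p - X 1 F p) := by
    rw [e1]; field_simp; ring
  have f2 : X 2 (Pc u) p = Pc u p / F p * (2 * F p * X 2 u p - X 2 F p) := by
    rw [e2]; field_simp; ring
  rw [f0, f1, f2]
  field_simp
  ring

end Static

/-- one constant bounding a smooth function from above -/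
theorem exists_le (f : SS) : ∃ C, 0 < C ∧ ∀ p, f p ≤ C := by
  obtain ⟨C, hC⟩ := (isCompact_univ (X := Sph)).exists_bound_of_continuousOn
    (continuous_ss f).continuousOn
  refine ⟨|C| + 1, by positivity, fun p => ?_⟩
  have h1 := hC p (mem_univ p)
  rw [Real.norm_eq_abs] at h1
  have h2 := le_abs_self (f p)
  have h3 := le_abs_self C
  linarith

/-- upper bound for `P` -/
theorem P_bound (u₀ : SS) (Q : ℝ) (hQ : 0 ≤ Q) : ∃ C, 0 < C ∧ ∀ (T : ℝ) (u F : ℝ → SS),
    IsFlow (Icc 0 T) u F → u 0 = u₀ → (∀ t ∈ Icc (0 : ℝ) T, ∀ p, gr (u t) p ≤ Q) →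
    ∀ t ∈ Icc (0 : ℝ) T, ∀ p, Pc (u t) p ≤ C := by
  obtain ⟨m, hm, hm'⟩ := exists_le (Lg (Pc u₀) + gr u₀)
  set M : ℝ := m + Real.log (5 + 6 * Q) + Q with hM
  refine ⟨Real.exp M, Real.exp_pos _, fun T u F h hu0 hgr t ht p => ?_⟩
  have hJ : Convex ℝ (Icc (0 : ℝ) T) := convex_Icc 0 T
  have hlog : 0 ≤ Real.log (5 + 6 * Q) := Real.log_nonneg (by linarith)
  have hPpos : ∀ t ∈ Icc (0 : ℝ) T, ∀ p, 0 < Pc (u t) p := fun t ht p => h.Ppos ht p
  have hcont : CC (Icc 0 T) (fun t => Lg (Pc (u t)) + gr (u t)) :=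
    (h.cP.Lg hPpos).add ((((h.cu.X 0).mul (h.cu.X 0)).add ((h.cu.X 1).mul (h.cu.X 1))).add
      ((h.cu.X 2).mul (h.cu.X 2)))
  have hder := (h.dP.Lg hPpos).add ((((h.du.X 0).mul (h.du.X 0)).add
    ((h.du.X 1).mul (h.du.X 1))).add ((h.du.X 2).mul (h.du.X 2)))
  have key := maxp (T := T) (f := fun t => Lg (Pc (u t)) + gr (u t)) (hcont 0) (hder 0) (M := M)
    (fun q => by
      rw [hu0]
      have := hm' q
      linarith) ?_ t ht p
  · have h1 : Lg (Pc (u t)) p ≤ M := by
      have := gr_nonneg (u t) p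
      rw [ss_add] at key
      linarith
    rw [Lg_apply (hPpos t ht)] at h1
    have h2 := Real.exp_le_exp.mpr h1
    rwa [Real.exp_log (hPpos t ht p)] at h2
  · intro s hs hsT q hmax hgt
    have hsI : s ∈ Icc (0 : ℝ) T := ⟨hs.le, hsT⟩
    have hLap := Lap_nonpos_of_max hmax
    have hstat := stat_one (h.eq s hsI) (h.Fpos s hsI) (hPpos s hsI) q
    have hP := hPpos s hsI q
    have hF := h.Fpos s hsI q
    have hgrq := hgr s hsI q
    have hgr0 := gr_nonneg (u s) q
    have hHs := Hs_ge (u s) q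
    have hL : Lap (u s) q = 1 - Pc (u s) q := by
      unfold Pc
      rw [ss_sub, ss_one]
      ring
    rw [hL] at hHs
    have hG : 0 < F s q / Pc (u s) q := div_pos hF hP
    have hrest : 0 ≤ (F s q / Pc (u s) q) * (gr (F s) q / F s q ^ 2) := by
      have := gr_nonneg (F s) q
      positivity
    -- size of `P`
    have hPbig : 5 + 6 * Q ≤ Pc (u s) q := by
      rw [ss_add, Lg_apply (hPpos s hsI)] at hgt
      have h1 : Real.log (5 + 6 * Q) ≤ Real.log (Pc (u s) q) := by linarith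
      exact (Real.log_le_log_iff (by linarith) hP).mp h1
    have hmain : -(Lap (F s) q / Pc (u s) q) + 2 * (X 0 (u s) q * X 0 (F s) q
        + X 1 (u s) q * X 1 (F s) q + X 2 (u s) q * X 2 (F s) q) ≤ 0 := by
      rw [hstat]
      have h1 : F s q / Pc (u s) q * Lap (Lg (Pc (u s)) + gr (u s)) q ≤ 0 :=
        mul_nonpos_of_nonneg_of_nonpos hG.le hLap
      have h2 : 2 * F s q + 4 * F s q * gr (u s) q ≤ 2 * (F s q / Pc (u s) q) * Hs (u s) q := by
        have h3 : F s q * ((1 + 2 * Q) * Pc (u s) q) ≤ F s q * Hs (u s) q := by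
          apply mul_le_mul_of_nonneg_left _ hF.le
          nlinarith
        have h4 : F s q * (1 + 2 * Q) ≤ F s q / Pc (u s) q * Hs (u s) q := by
          rw [div_mul_eq_mul_div, le_div_iff₀ hP]
          linarith
        have h5 : F s q * gr (u s) q ≤ F s q * Q := mul_le_mul_of_nonneg_left hgrq hF.le
        linarith
      linarith
    refine le_trans (le_of_eq ?_) hmain
    simp only [ss_add, ss_mul, ss_neg, ss_sub, Inv_apply (hPpos s hsI), map_sub, X_one_ss, ss_zero]
    field_simp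
    ring

/-- upper bound for `F` -/
theorem F_bound (u₀ : SS) (Q M : ℝ) (hQ : 0 ≤ Q) : ∃ C, 0 < C ∧ ∀ (T : ℝ) (u F : ℝ → SS),
    IsFlow (Icc 0 T) u F → u 0 = u₀ → (∀ t ∈ Icc (0 : ℝ) T, ∀ p, |u t p| ≤ M) →
    (∀ t ∈ Icc (0 : ℝ) T, ∀ p, gr (u t) p ≤ Q) →
    ∀ t ∈ Icc (0 : ℝ) T, ∀ p, F t p ≤ C := by
  set β : ℝ := 1 / (4 * (Q + 1)) with hβ
  have hβpos : 0 < β := by positivity
  have hβQ : 4 * β * Q ≤ 1 := by
    rw [hβ]
    have : 4 * (1 / (4 * (Q + 1))) * Q = Q / (Q + 1) := by field_simp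
    rw [this, div_le_one (by linarith)]
    linarith
  have hβ4 : β ≤ 1 / 4 := by
    rw [hβ, div_le_div_iff₀ (by positivity) (by norm_num)]
    linarith
  obtain ⟨m, hm, hm'⟩ := exists_le (Lg (Fq u₀) + Real.log (ar u₀) • (1 : SS) + β • gr u₀)
  have hpi := Real.pi_pos
  set K : ℝ := |Real.log (4 * Real.pi)| + 2 * |M| + 1 + |Real.log (β / 36)| + m with hK
  refine ⟨Real.exp (K + |Real.log (4 * Real.pi)| + 2 * |M|), Real.exp_pos _,
    fun T u F h hu0 hM hgr t ht p => ?_⟩
  have hJ : Convex ℝ (Icc (0 : ℝ) T) := convex_Icc 0 T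
  have hPpos : ∀ t ∈ Icc (0 : ℝ) T, ∀ p, 0 < Pc (u t) p := fun t ht p => h.Ppos ht p
  have hAc : ∀ t ∈ Icc (0 : ℝ) T, HasDerivWithinAt (fun s => Real.log (ar (u s)))
      (2 * (av (u t) (F t) - 1)) (Icc 0 T) t := by
    intro t ht
    have hA := (ar_pos (u t)).ne'
    refine ((h.dar hJ ht).log hA).congr_deriv ?_
    field_simp
  have hcont : CC (Icc 0 T) (fun t => Lg (F t) + Real.log (ar (u t)) • (1 : SS) + β • gr (u t)) := by
    refine ((h.cF.Lg h.Fpos).add (CC.smul (fun t ht => (hAc t ht).continuousWithinAt)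
      (CC.const 1))).add (CC.smul continuousOn_const ?_)
    exact ((((h.cu.X 0).mul (h.cu.X 0)).add ((h.cu.X 1).mul (h.cu.X 1))).add
      ((h.cu.X 2).mul (h.cu.X 2)))
  have hder := (((h.dF hJ).Lg h.Fpos).add (CD.smul hAc (CD.const (1 : SS)))).add
    (CD.smul (fun t _ => hasDerivWithinAt_const t (Icc 0 T) β)
    ((((h.du.X 0).mul (h.du.X 0)).add ((h.du.X 1).mul (h.du.X 1))).add ((h.du.X 2).mul (h.du.X 2))))
  -- lower bound of the area
  have hAlow : ∀ t ∈ Icc (0 : ℝ) T, Real.log (4 * Real.pi) - 2 * |M| ≤ Real.log (ar (u t)) := by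
    intro t ht
    have h1 : Real.exp (-2 * |M|) * (4 * Real.pi) ≤ ar (u t) := by
      have := I_mono (f := algebraMap ℝ SS (Real.exp (-2 * |M|))) (g := Ex 2 (u t)) fun q => by
        rw [ss_algebraMap, Ex_apply]
        apply Real.exp_le_exp.mpr
        have h2 := (abs_le.mp (hM t ht q)).1
        have h3 := le_abs_self M
        linarith
      rwa [I_const] at this
    have h2 := Real.log_le_log (by positivity) h1
    rw [Real.log_mul (Real.exp_pos _).ne' (by positivity), Real.log_exp] at h2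
    linarith
  have key := maxp (T := T)
    (f := fun t => Lg (F t) + Real.log (ar (u t)) • (1 : SS) + β • gr (u t)) (hcont 0) (hder 0)
    (M := K)
    (fun q => by
      have h0 : (0 : ℝ) ∈ Icc (0 : ℝ) T := ⟨le_rfl, ht.1.trans ht.2⟩
      have hF0 : F 0 = Fq u₀ := by rw [h.F_eq h0, hu0]; rfl
      rw [hu0, hF0]
      have := hm' q
      have a1 := abs_nonneg (Real.log (4 * Real.pi))
      have a2 := abs_nonneg M
      have a3 := abs_nonneg (Real.log (β / 36))
      linarith) ?_ t ht p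
  · simp only [ss_add, ss_smul, ss_one, mul_one] at key
    have hg := gr_nonneg (u t) p
    have hA := hAlow t ht
    have hg' : 0 ≤ β * gr (u t) p := by positivity
    have a1 := neg_abs_le (Real.log (4 * Real.pi))
    have h1 : Lg (F t) p ≤ K + |Real.log (4 * Real.pi)| + 2 * |M| := by linarith
    rw [Lg_apply (h.Fpos t ht)] at h1
    have h2 := Real.exp_le_exp.mpr h1
    rwa [Real.exp_log (h.Fpos t ht p)] at h2
  · intro s hs hsT q hmax hgt
    have hsI : s ∈ Icc (0 : ℝ) T := ⟨hs.le, hsT⟩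
    have hLap := Lap_nonpos_of_max hmax
    have hXz := fun i => X_eq_zero_of_max hmax i
    have hP := hPpos s hsI q
    have hF := h.Fpos s hsI q
    have hstat := stat_two (h.eq s hsI) (h.Fpos s hsI) (hPpos s hsI) β (Real.log (ar (u s))) q
    have hgrq := hgr s hsI q
    have hgr0 := gr_nonneg (u s) q
    have hHs := Hs_ge (u s) q
    have hHs0 := Hs_nonneg (u s) q
    have hL : Lap (u s) q = 1 - Pc (u s) q := by
      unfold Pc
      rw [ss_sub, ss_one]
      ring
    rw [hL] at hHs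
    have hG : 0 < F s q / Pc (u s) q := div_pos hF hP
    -- gradient of `F` at the maximum
    have hXF : ∀ i, X i (F s) q = -(β * X i (gr (u s)) q) * F s q := by
      intro i
      have h1 := hXz i
      simp only [map_add, X_smul, X_Lg (h.Fpos s hsI), X_one_ss, smul_zero, ss_add, ss_mul, ss_smul,
        ss_zero, Inv_apply (h.Fpos s hsI), add_zero] at h1
      field_simp at h1
      linarith
    have hgrF : gr (F s) q / F s q ^ 2 ≤ β * Hs (u s) q := by
      have h1 : gr (F s) q = β ^ 2 * gr (gr (u s)) q * F s q ^ 2 := by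
        rw [gr_apply (F s), hXF, hXF, hXF, gr_apply (gr (u s))]
        ring
      rw [h1, mul_div_assoc, div_self (by positivity), mul_one]
      have h2 := gr_gr_le (u s) q
      calc β ^ 2 * gr (gr (u s)) q ≤ β ^ 2 * (4 * gr (u s) q * Hs (u s) q) :=
            mul_le_mul_of_nonneg_left h2 (by positivity)
        _ = β * Hs (u s) q * (4 * β * gr (u s) q) := by ring
        _ ≤ β * Hs (u s) q * 1 := by
            apply mul_le_mul_of_nonneg_left _ (by positivity)
            have : 4 * β * gr (u s) q ≤ 4 * β * Q :=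
              mul_le_mul_of_nonneg_left hgrq (by positivity)
            linarith
        _ = _ := mul_one _
    -- size of `P`
    have hFq := h.F_apply hsI q
    have hPsmall : Pc (u s) q ≤ β / 36 := by
      have hA := ar_pos (u s)
      simp only [ss_add, ss_smul, ss_one, mul_one] at hgt
      rw [Lg_apply (h.Fpos s hsI), hFq, Real.log_div (by have := lam_pos (u s); positivity) hP.ne',
        Real.log_mul (lam_pos (u s)).ne' (Real.exp_pos _).ne', Real.log_exp] at hgt
      have h1 : Real.log (lam (u s)) = Real.log (4 * Real.pi) - Real.log (ar (u s)) := by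
        unfold lam
        rw [Real.log_div (by positivity) hA.ne']
      rw [h1] at hgt
      have h2 : u s q ≤ |M| := ((abs_le.mp (hM s hsI q)).2).trans (le_abs_self M)
      have h3 : β * gr (u s) q ≤ 1 / 4 := by
        have : 4 * β * gr (u s) q ≤ 4 * β * Q := mul_le_mul_of_nonneg_left hgrq (by positivity)
        linarith
      have a1 := le_abs_self (Real.log (4 * Real.pi))
      have a3 := neg_abs_le (Real.log (β / 36))
      have h4 : Real.log (Pc (u s) q) ≤ Real.log (β / 36) := by linarith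
      exact (Real.log_le_log_iff hP (by positivity)).mp h4
    have hPhalf : Pc (u s) q ≤ 1 / 2 := by linarith
    have hH12 : 1 / 12 ≤ Hs (u s) q := by nlinarith
    have hmain : Lap (F s) q / Pc (u s) q + 2 * F s q - 2
      + β * (2 * (X 0 (u s) q * X 0 (F s) q + X 1 (u s) q * X 1 (F s) q
        + X 2 (u s) q * X 2 (F s) q)) ≤ 0 := by
      rw [hstat]
      have h1 : F s q / Pc (u s) q * Lap (Lg (F s) + Real.log (ar (u s)) • (1 : SS)
          + β • gr (u s)) q ≤ 0 := mul_nonpos_of_nonneg_of_nonpos hG.le hLap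
      have h2 : F s q / Pc (u s) q * (gr (F s) q / F s q ^ 2)
          ≤ F s q / Pc (u s) q * (β * Hs (u s) q) := mul_le_mul_of_nonneg_left hgrF hG.le
      have h3 : F s q * gr (u s) q * β ≤ F s q * (1 / 4) := by
        rw [mul_assoc]
        apply mul_le_mul_of_nonneg_left _ hF.le
        have : 4 * β * gr (u s) q ≤ 4 * β * Q := mul_le_mul_of_nonneg_left hgrq (by positivity)
        linarith
      have h4 : 3 * F s q ≤ F s q / Pc (u s) q * (β * Hs (u s) q) := by
        rw [div_mul_eq_mul_div, le_div_iff₀ hP]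
        have h5 : F s q * (3 * Pc (u s) q) ≤ F s q * (β * Hs (u s) q) := by
          apply mul_le_mul_of_nonneg_left _ hF.le
          have h6 : β * (1 / 12) ≤ β * Hs (u s) q := mul_le_mul_of_nonneg_left hH12 hβpos.le
          linarith
        linarith
      nlinarith
    refine le_trans (le_of_eq ?_) hmain
    simp only [ss_add, ss_mul, ss_neg, ss_sub, ss_smul, Inv_apply (hPpos s hsI),
      Inv_apply (h.Fpos s hsI), map_sub, X_one_ss, ss_zero, ss_one, ss_algebraMap]
    field_simp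
    ring

/-- **Uniform bounds for the whole system.** -/
theorem bounds_all (u₀ : SS) : ∃ c C : ℝ, 0 < c ∧ ∀ (T : ℝ) (u F : ℝ → SS),
    IsFlow (Icc 0 T) u F → u 0 = u₀ → ∀ t ∈ Icc (0 : ℝ) T, ∀ p,
      |u t p| ≤ C ∧ gr (u t) p ≤ C ∧ c ≤ F t p ∧ F t p ≤ C ∧ c ≤ Pc (u t) p ∧ Pc (u t) p ≤ C := by
  obtain ⟨M, Q, hM, hQ, hMQ⟩ := bounds_u u₀
  obtain ⟨CP, hCP, hP⟩ := P_bound u₀ Q hQ.le
  obtain ⟨CF, hCF, hF⟩ := F_bound u₀ Q M hQ.le
  set C := M + Q + CP + CF with hC
  set c := Real.exp (-4 * M) / C with hc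
  have hCpos : 0 < C := by positivity
  refine ⟨c, C, by positivity, fun T u F h hu0 t ht p => ?_⟩
  have hu : ∀ t ∈ Icc (0 : ℝ) T, ∀ p, |u t p| ≤ M := fun t ht p => (hMQ T u F h hu0 t ht p).1
  have hg : ∀ t ∈ Icc (0 : ℝ) T, ∀ p, gr (u t) p ≤ Q := fun t ht p => (hMQ T u F h hu0 t ht p).2
  have hPt := hP T u F h hu0 hg t ht p
  have hFt := hF T u F h hu0 hu hg t ht p
  have hut := hu t ht p
  have hgt := hg t ht p
  have hpi := Real.pi_pos
  have hPC : Pc (u t) p ≤ C := by linarith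
  have hFC : F t p ≤ C := by linarith
  have hPpos := h.Ppos ht p
  have hFpos := h.Fpos t ht p
  -- lower bound of `λ e^{2u}`
  have hnum : Real.exp (-4 * M) ≤ lam (u t) * Real.exp (2 * u t p) := by
    have h1 : ar (u t) ≤ Real.exp (2 * M) * (4 * Real.pi) := by
      have := I_mono (f := Ex 2 (u t)) (g := algebraMap ℝ SS (Real.exp (2 * M))) fun q => by
        rw [ss_algebraMap, Ex_apply]
        apply Real.exp_le_exp.mpr
        have h2 := (abs_le.mp (hu t ht q)).2
        linarith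
      rwa [I_const] at this
    have h2 : Real.exp (-2 * M) ≤ lam (u t) := by
      unfold lam
      rw [le_div_iff₀ (ar_pos _)]
      calc Real.exp (-2 * M) * ar (u t) ≤ Real.exp (-2 * M) * (Real.exp (2 * M) * (4 * Real.pi)) :=
            mul_le_mul_of_nonneg_left h1 (Real.exp_pos _).le
        _ = 4 * Real.pi := by
            rw [← mul_assoc, ← Real.exp_add]
            simp
    have h3 : Real.exp (-2 * M) ≤ Real.exp (2 * u t p) := by
      apply Real.exp_le_exp.mpr
      have := (abs_le.mp hut).1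
      linarith
    calc Real.exp (-4 * M) = Real.exp (-2 * M) * Real.exp (-2 * M) := by
          rw [← Real.exp_add]; congr 1; ring
      _ ≤ _ := mul_le_mul h2 h3 (Real.exp_pos _).le (lam_pos _).le
  have hprod : F t p * Pc (u t) p = lam (u t) * Real.exp (2 * u t p) := by
    rw [h.F_apply ht p]
    field_simp
  refine ⟨by linarith, by linarith, ?_, hFC, ?_, hPC⟩
  · rw [hc, div_le_iff₀ hCpos]
    calc Real.exp (-4 * M) ≤ F t p * Pc (u t) p := by rw [hprod]; exact hnum
      _ ≤ F t p * C := mul_le_mul_of_nonneg_left hPC hFpos.le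
  · rw [hc, div_le_iff₀ hCpos]
    calc Real.exp (-4 * M) ≤ F t p * Pc (u t) p := by rw [hprod]; exact hnum
      _ = Pc (u t) p * F t p := mul_comm _ _
      _ ≤ Pc (u t) p * C := mul_le_mul_of_nonneg_left hFC hPpos.le

end Pool.Agent.helper68.S2
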