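import Mathlib
import Pool.Agent.helper9.S2.Norms

/-!
# Interpolation, and the exchange of time and space derivatives
-/

set_option autoImplicit false

open MeasureTheory Metric Set Filter
open scoped ContDiff Topology

namespace Pool.Agent.helper68.S2

theorem NN_Xw_le (s : ℕ) (w : List (Fin 3)) (f : SS) : NN s (Xw w f) ≤ NN (s + w.length) f := by
  induction w generalizing f with
  | nil => exact le_rfl
  | cons i w ih =>
    rw [Xw_cons]
    exact (ih _).trans (NN_X_le _ f i)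

theorem SupB.word {A : ℝ} (hA : SupB A) (w : List (Fin 3)) (f : SS) (p : Sph) :
    |Xw w f p| ^ 2 ≤ 2 * A ^ 2 * NN (2 + w.length) f :=
  (hA.sup_le _ p).trans (mul_le_mul_of_nonneg_left (NN_Xw_le 2 w f) (by positivity))

theorem I_sq_le_of_abs {f : SS} {C : ℝ} (h : ∀ p, |f p| ≤ C) : I (f * f) ≤ C ^ 2 * (4 * Real.pi) := by
  have := I_mono (f := f * f) (g := algebraMap ℝ SS (C ^ 2)) fun p => by
    rw [ss_algebraMap, ss_mul, ← abs_mul_abs_self, sq]
    exact mul_self_le_mul_self (abs_nonneg _) (h p)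
  rwa [I_const] at this

theorem M_le_of_words (k : ℕ) {f : SS} {C : ℝ}
    (h : ∀ w : List (Fin 3), w.length = k → ∀ p, |Xw w f p| ≤ C) :
    M k f ≤ 3 ^ k * (C ^ 2 * (4 * Real.pi)) := by
  induction k generalizing f with
  | zero =>
    rw [M_zero, pow_zero, one_mul]
    exact I_sq_le_of_abs (h [] rfl)
  | succ k ih =>
    rw [M_succ]
    have h1 : ∀ i : Fin 3, M k (X i f) ≤ 3 ^ k * (C ^ 2 * (4 * Real.pi)) := fun i =>
      ih fun w hw p => h (i :: w) (by simp [hw]) p
    refine (Finset.sum_le_sum fun i _ => h1 i).trans (le_of_eq ?_)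
    simp
    ring

theorem NN_le_of_words (k : ℕ) : ∃ B, 0 ≤ B ∧ ∀ (f : SS) (C : ℝ),
    (∀ w : List (Fin 3), w.length ≤ k → ∀ p, |Xw w f p| ≤ C) → NN k f ≤ B * C ^ 2 := by
  refine ⟨∑ j ∈ Finset.range (k + 1), 3 ^ j * (4 * Real.pi), by positivity, fun f C h => ?_⟩
  unfold NN
  rw [Finset.sum_mul]
  apply Finset.sum_le_sum
  intro j hj
  have hj' : j ≤ k := by
    have := Finset.mem_range.mp hj
    omega
  refine (M_le_of_words j (C := C) fun w hw p => h w (by omega) p).trans (le_of_eq ?_)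
  ring

theorem tendsto_M {ι : Type*} {l : Filter ι} {f : ι → SS}
    (h0 : Tendsto (fun i => M 0 (f i)) l (𝓝 0)) (hb : ∀ k, ∃ C, ∀ᶠ i in l, M k (f i) ≤ C)
    (k : ℕ) : Tendsto (fun i => M k (f i)) l (𝓝 0) := by
  induction k with
  | zero => exact h0
  | succ k ih =>
    obtain ⟨C, hC⟩ := hb (k + 2)
    have h1 : Tendsto (fun i => √(M k (f i)) * √C) l (𝓝 0) := by
      have := (ih.sqrt).mul_const (√C)
      simpa using this
    refine squeeze_zero' (Eventually.of_forall fun i => M_nonneg _ _) ?_ h1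
    filter_upwards [hC] with i hi
    exact (M_interp k (f i)).trans
      (mul_le_mul_of_nonneg_left (Real.sqrt_le_sqrt hi) (Real.sqrt_nonneg _))

theorem tendsto_words {A : ℝ} (hA : SupB A) {ι : Type*} {l : Filter ι} {f : ι → SS}
    (h0 : Tendsto (fun i => M 0 (f i)) l (𝓝 0)) (hb : ∀ k, ∃ C, ∀ᶠ i in l, M k (f i) ≤ C)
    (w : List (Fin 3)) {ε : ℝ} (hε : 0 < ε) : ∀ᶠ i in l, ∀ p, |Xw w (f i) p| < ε := by
  have h1 : Tendsto (fun i => 2 * A ^ 2 * NN (2 + w.length) (f i)) l (𝓝 0) := by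
    have h2 : Tendsto (fun i => NN (2 + w.length) (f i)) l (𝓝 0) := by
      unfold NN
      have := tendsto_finsetSum (Finset.range (2 + w.length + 1))
        (fun k _ => tendsto_M h0 hb k)
      simpa using this
    simpa using h2.const_mul (2 * A ^ 2)
  have h2 := h1.eventually (gt_mem_nhds (show (0 : ℝ) < ε ^ 2 by positivity))
  filter_upwards [h2] with i hi p
  have h3 := (hA.word w (f i) p).trans_lt hi
  exact lt_of_pow_lt_pow_left₀ 2 hε.le h3

/-- a common bound for a smooth function -/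
theorem exists_abs_le (f : SS) : ∃ C, 0 ≤ C ∧ ∀ p, |f p| ≤ C := by
  obtain ⟨C, hC⟩ := (isCompact_univ (X := Sph)).exists_bound_of_continuousOn
    (continuous_ss f).continuousOn
  refine ⟨|C|, abs_nonneg C, fun p => ?_⟩
  have h1 := hC p (mem_univ p)
  rw [Real.norm_eq_abs] at h1
  exact h1.trans (le_abs_self C)

/-- **Time and space derivatives commute** when the words are locally Lipschitz in time. -/
theorem CD_of_zero {A : ℝ} (hA : SupB A) {J : Set ℝ} (hJ : Convex ℝ J) {u v : ℝ → SS}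
    (hd : CDn J 0 u v) (hv : CCn J 0 v)
    (hL : ∀ w, ∀ t ∈ J, ∃ L, ∀ᶠ s in 𝓝[J] t, ∀ p, |Xw w (u s) p - Xw w (u t) p| ≤ L * |s - t|) :
    CD J u v := by
  apply CD.of_words
  intro w t ht p
  rw [hasDerivWithinAt_iff_tendsto_slope]
  set l := 𝓝[J \ {t}] t with hl
  have hle : l ≤ 𝓝[J] t := nhdsWithin_mono t sdiff_subset
  have hne : ∀ᶠ s in l, s ≠ t := by
    filter_upwards [self_mem_nhdsWithin] with s hs
    exact hs.2
  set f : ℝ → SS := fun s => (s - t)⁻¹ • (u s - u t) - v t with hf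
  have hfw : ∀ w s q, Xw w (f s) q = (s - t)⁻¹ * (Xw w (u s) q - Xw w (u t) q) - Xw w (v t) q := by
    intro w s q
    simp only [hf, Xw_sub, Xw_smul, ss_sub, ss_smul]
  have hd' : ∀ t ∈ J, ∀ p, HasDerivWithinAt (fun s => u s p) (v t p) J t := hd
  have hv' : ContinuousOn (fun z : ℝ × Sph => v z.1 z.2) (J ×ˢ univ) := hv
  have h0 : Tendsto (fun s => M 0 (f s)) l (𝓝 0) := by
    rw [Metric.tendsto_nhds]
    intro ε hε
    have hpi := Real.pi_pos
    obtain ⟨η, hη, hη2⟩ : ∃ η, 0 < η ∧ η ^ 2 * (4 * Real.pi) < ε := by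
      refine ⟨√(ε / (8 * Real.pi)), by positivity, ?_⟩
      rw [Real.sq_sqrt (by positivity)]
      have : ε / (8 * Real.pi) * (4 * Real.pi) = ε / 2 := by field_simp; ring
      rw [this]
      linarith
    have h1 := unif_deriv (u := fun t p => u t p) (v := fun t p => v t p) hJ hd' hv' ht hη
    filter_upwards [hle h1, hne] with s hs hst
    have hst' : s - t ≠ 0 := sub_ne_zero.mpr hst
    have h2 : ∀ q, |f s q| ≤ η := by
      intro q
      have h3 := hs q
      have h4 : f s q = (s - t)⁻¹ * (u s q - u t q - (s - t) * v t q) := by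
        have := hfw [] s q
        simp only [Xw_nil] at this
        rw [this]
        field_simp
      rw [h4, abs_mul, abs_inv, inv_mul_le_iff₀ (abs_pos.mpr hst'), mul_comm |s - t|]
      exact h3
    rw [Real.dist_eq, sub_zero, abs_of_nonneg (M_nonneg _ _), M_zero]
    exact (I_sq_le_of_abs h2).trans_lt hη2
  have hb : ∀ k, ∃ C, ∀ᶠ s in l, M k (f s) ≤ C := by
    intro k
    -- a common bound for all words of length `k`
    have h1 : ∀ w : List (Fin 3), ∃ C, 0 ≤ C ∧ ∀ᶠ s in l, ∀ q, |Xw w (f s) q| ≤ C := by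
      intro w
      obtain ⟨L, hL⟩ := hL w t ht
      obtain ⟨C, hC0, hC⟩ := exists_abs_le (Xw w (v t))
      refine ⟨|L| + C, by positivity, ?_⟩
      filter_upwards [hle hL, hne] with s hs hst q
      have hst' : s - t ≠ 0 := sub_ne_zero.mpr hst
      rw [hfw]
      refine (abs_sub _ _).trans (add_le_add ?_ (hC q))
      rw [abs_mul, abs_inv, inv_mul_le_iff₀ (abs_pos.mpr hst'), mul_comm |s - t|]
      exact (hs q).trans (mul_le_mul_of_nonneg_right (le_abs_self L) (abs_nonneg _))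
    have h2 : ∃ C, 0 ≤ C ∧ ∀ᶠ s in l, ∀ w : List (Fin 3), w.length = k → ∀ q, |Xw w (f s) q| ≤ C := by
      have hfin : {w : List (Fin 3) | w.length = k}.Finite := List.finite_length_eq (Fin 3) k
      choose C hC0 hC using h1
      refine ⟨∑ w ∈ hfin.toFinset, C w, Finset.sum_nonneg fun w _ => hC0 w, ?_⟩
      have h3 : ∀ᶠ s in l, ∀ w ∈ hfin.toFinset, ∀ q, |Xw w (f s) q| ≤ C w :=
        (Filter.eventually_all_finset _).mpr fun w _ => hC w
      filter_upwards [h3] with s hs w hw q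
      have hmem : w ∈ hfin.toFinset := hfin.mem_toFinset.mpr hw
      exact (hs w hmem q).trans (Finset.single_le_sum (f := C) (fun w _ => hC0 w) hmem)
    obtain ⟨C, _, hC⟩ := h2
    exact ⟨_, hC.mono fun s hs => M_le_of_words k (C := C) fun w hw q => hs w hw q⟩
  rw [Metric.tendsto_nhds]
  intro ε hε
  filter_upwards [tendsto_words hA h0 hb w hε, hne] with s hs hst
  have hst' : s - t ≠ 0 := sub_ne_zero.mpr hst
  have h1 := hs p
  rw [hfw] at h1
  rw [Real.dist_eq, slope_def_field, div_eq_inv_mul]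
  exact h1

end Pool.Agent.helper68.S2
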