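import Mathlib
import Pool.Agent.helper68.S2.Interp
import Pool.Agent.helper68.S2.GB

/-!
# Passage to the limit in the Galerkin scheme
-/

set_option autoImplicit false

open MeasureTheory Metric Set Filter
open scoped ContDiff Topology

namespace Pool.Agent.helper68.S2

/-- limits along ultrafilters exist in the algebra of smooth functions -/
def UltraStat : Prop := ∀ (U : Ultrafilter ℕ) (f : ℕ → SS),
  (∀ w, ∃ C, ∀ i p, |Xw w (f i) p| ≤ C) →
  ∃ g : SS, ∀ w, TendstoUniformly (fun i p => Xw w (f i) p) (Xw w g) (U : Filter ℕ)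

/-- a Galerkin solution -/
def GSol (P : SS →ₗ[ℝ] SS) (Φ : SS → SS → SS) (a b : SS) (T : ℝ) (u F : ℝ → SS) : Prop :=
  u 0 = P a ∧ F 0 = P b ∧ CC (Icc 0 T) u ∧ CC (Icc 0 T) F ∧ CD (Icc 0 T) u (fun t => F t - 1) ∧
    CD (Icc 0 T) F (fun t => P (Φ (u t) (F t))) ∧ (∀ t ∈ Icc (0 : ℝ) T, P (u t) = u t ∧ P (F t) = F t)

theorem GSol.mono {P : SS →ₗ[ℝ] SS} {Φ : SS → SS → SS} {a b : SS} {T T' : ℝ} {u F : ℝ → SS}
    (h : GSol P Φ a b T u F) (hT : T' ≤ T) : GSol P Φ a b T' u F := by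
  obtain ⟨h1, h2, h3, h4, h5, h6, h7⟩ := h
  have hs : Icc (0 : ℝ) T' ⊆ Icc 0 T := Icc_subset_Icc_right hT
  exact ⟨h1, h2, h3.mono hs, h4.mono hs, h5.mono hs, h6.mono hs, fun t ht => h7 t (hs ht)⟩

/-- the tail in all norms -/
theorem tail_M {P : ℕ → SS →ₗ[ℝ] SS} (hX : ∀ N i f, P N (X i f) = X i (P N f))
    (htail : ∀ (N : ℕ) f, ((N : ℝ) + 1) ^ 2 * I ((f - P N f) * (f - P N f)) ≤ I (Lap f * Lap f))
    (N k : ℕ) (g : SS) : ((N : ℝ) + 1) ^ 2 * M k (g - P N g) ≤ M (k + 2) g := by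
  induction k generalizing g with
  | zero =>
    rw [M_zero, zero_add, M_two]
    exact htail N g
  | succ k ih =>
    rw [M_succ, M_succ (k + 2), Finset.mul_sum]
    apply Finset.sum_le_sum
    intro i _
    rw [map_sub, ← hX]
    exact ih (X i g)

theorem tail_NN {P : ℕ → SS →ₗ[ℝ] SS} (hX : ∀ N i f, P N (X i f) = X i (P N f))
    (htail : ∀ (N : ℕ) f, ((N : ℝ) + 1) ^ 2 * I ((f - P N f) * (f - P N f)) ≤ I (Lap f * Lap f))
    (N s : ℕ) (g : SS) : ((N : ℝ) + 1) ^ 2 * NN s (g - P N g) ≤ (s + 1) * NN (s + 2) g := by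
  unfold NN
  rw [Finset.mul_sum]
  have h1 : ∀ k ∈ Finset.range (s + 1), ((N : ℝ) + 1) ^ 2 * M k (g - P N g) ≤ NN (s + 2) g := by
    intro k hk
    have := Finset.mem_range.mp hk
    exact (tail_M hX htail N k g).trans (M_le_NN (by omega) g)
  refine (Finset.sum_le_sum h1).trans (le_of_eq ?_)
  simp [NN]

theorem NN_addL (s : ℕ) (f g : SS) : NN s (f + g) ≤ 2 * NN s f + 2 * NN s g := by
  unfold NN
  rw [Finset.mul_sum, Finset.mul_sum, ← Finset.sum_add_distrib]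
  exact Finset.sum_le_sum fun k _ => M_add_le k f g

theorem NN_smulL (s : ℕ) (c : ℝ) (f : SS) : NN s (c • f) = c ^ 2 * NN s f := by
  unfold NN
  rw [Finset.mul_sum]
  exact Finset.sum_congr rfl fun k _ => M_smul k c f

theorem NN_P_le {P : ℕ → SS →ₗ[ℝ] SS} (hX : ∀ N i f, P N (X i f) = X i (P N f))
    (htail : ∀ (N : ℕ) f, ((N : ℝ) + 1) ^ 2 * I ((f - P N f) * (f - P N f)) ≤ I (Lap f * Lap f))
    (N s : ℕ) (g : SS) : NN s (P N g) ≤ 2 * NN s g + 2 * ((s + 1) * NN (s + 2) g) := by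
  have h1 : P N g = g + (-1 : ℝ) • (g - P N g) := by
    rw [neg_one_smul]; abel
  have h2 : NN s (P N g) ≤ 2 * NN s g + 2 * NN s (g - P N g) := by
    conv_lhs => rw [h1]
    refine (NN_addL _ _ _).trans (le_of_eq ?_)
    rw [NN_smulL]
    ring
  have h3 := tail_NN hX htail N s g
  have h4 : NN s (g - P N g) ≤ ((N : ℝ) + 1) ^ 2 * NN s (g - P N g) := by
    have h5 := NN_nonneg s (g - P N g)
    have h6 : (1 : ℝ) ≤ ((N : ℝ) + 1) ^ 2 := by
      have : (0 : ℝ) ≤ N := Nat.cast_nonneg N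
      nlinarith
    nlinarith
  linarith

theorem abs_le_sqrt_of {x K : ℝ} (h : |x| ^ 2 ≤ K) : |x| ≤ √K := by
  rw [← Real.sqrt_sq (abs_nonneg x)]
  exact Real.sqrt_le_sqrt h

/-- joint continuity from a Lipschitz bound in time -/
theorem contOn_of_lip {g : ℝ → SS} (h : ∀ T, ∃ L, ∀ s ∈ Icc (0 : ℝ) T, ∀ t ∈ Icc (0 : ℝ) T, ∀ p,
    |g s p - g t p| ≤ L * |s - t|) :
    ContinuousOn (fun z : ℝ × Sph => g z.1 z.2) (Ici 0 ×ˢ univ) := by
  rintro ⟨t, p⟩ ⟨ht, -⟩
  have ht : (0 : ℝ) ≤ t := ht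
  obtain ⟨L, hL⟩ := h (t + 1)
  rw [ContinuousWithinAt, Metric.tendsto_nhds]
  intro ε hε
  have h1 : Tendsto (fun z : ℝ × Sph => L * |z.1 - t|) (𝓝[Ici 0 ×ˢ univ] (t, p)) (𝓝 0) := by
    have : Continuous fun z : ℝ × Sph => L * |z.1 - t| := by fun_prop
    have h2 := this.tendsto (t, p)
    simp only [sub_self, abs_zero, mul_zero] at h2
    exact h2.mono_left nhdsWithin_le_nhds
  have h2 : Tendsto (fun z : ℝ × Sph => g t z.2) (𝓝[Ici 0 ×ˢ univ] (t, p)) (𝓝 (g t p)) := by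
    have : Continuous fun z : ℝ × Sph => g t z.2 := (continuous_ss (g t)).comp continuous_snd
    exact (this.tendsto (t, p)).mono_left nhdsWithin_le_nhds
  have h3 := h1.eventually (gt_mem_nhds (show (0 : ℝ) < ε / 2 by positivity))
  have h4 := (Metric.tendsto_nhds.mp h2) (ε / 2) (by positivity)
  have h5 : ∀ᶠ z : ℝ × Sph in 𝓝[Ici 0 ×ˢ univ] (t, p), z.1 < t + 1 := by
    have : Continuous fun z : ℝ × Sph => z.1 := continuous_fst
    exact nhdsWithin_le_nhds ((this.tendsto (t, p)).eventually (gt_mem_nhds (by simp)))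
  filter_upwards [h3, h4, h5, self_mem_nhdsWithin] with z hz3 hz4 hz5 hz6
  have hz1 : (0 : ℝ) ≤ z.1 := hz6.1
  have e1 := hL z.1 ⟨hz1, hz5.le⟩ t ⟨ht, by linarith⟩ z.2
  rw [Real.dist_eq] at hz4 ⊢
  have e2 := abs_sub_le (g z.1 z.2) (g t z.2) (g t p)
  linarith

theorem CC_of_lip {g : ℝ → SS} (h : ∀ T w, ∃ L, ∀ s ∈ Icc (0 : ℝ) T, ∀ t ∈ Icc (0 : ℝ) T, ∀ p,
    |Xw w (g s) p - Xw w (g t) p| ≤ L * |s - t|) : CC (Ici 0) g :=
  CC.of_words fun w => contOn_of_lip (g := fun t => Xw w (g t)) fun T => h T w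

/-- Lipschitz bound in time from a bound on the time derivative -/
theorem lip_of_CD {T : ℝ} {u v : ℝ → SS} (hd : CD (Icc 0 T) u v) (w : List (Fin 3)) {C : ℝ}
    (hC : ∀ t ∈ Icc (0 : ℝ) T, ∀ p, |Xw w (v t) p| ≤ C) :
    ∀ s ∈ Icc (0 : ℝ) T, ∀ t ∈ Icc (0 : ℝ) T, ∀ p, |Xw w (u s) p - Xw w (u t) p| ≤ C * |s - t| := by
  intro s hs t ht p
  have key := (convex_Icc (0 : ℝ) T).norm_image_sub_le_of_norm_hasDerivWithin_le
    (f := fun r => Xw w (u r) p) (f' := fun r => Xw w (v r) p) (C := C) (x := t) (y := s)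
    (fun r hr => ((hd.Xw w) 0).zero hr p)
    (fun r hr => by rw [Real.norm_eq_abs]; exact hC r hr p) ht hs
  simpa [Real.norm_eq_abs] using key

/-- derivative of a limit along an ultrafilter -/
theorem limder {U : Filter ℕ} [U.NeBot] {v v' : ℕ → ℝ → ℝ} {V : ℝ → ℝ} {G t T : ℝ} (ht : 0 ≤ t)
    (htT : t < T)
    (hd : ∀ᶠ N in U, ∀ s ∈ Icc (0 : ℝ) T, HasDerivWithinAt (v N) (v' N s) (Icc 0 T) s)
    (hlim : ∀ s ∈ Icc (0 : ℝ) T, Tendsto (fun N => v N s) U (𝓝 (V s)))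
    (hG : ∀ c > 0, ∃ δ > 0, ∀ᶠ N in U, ∀ s ∈ Icc (0 : ℝ) T, |s - t| < δ → |v' N s - G| ≤ c) :
    HasDerivWithinAt V G (Ici 0) t := by
  rw [hasDerivWithinAt_iff_isLittleO, Asymptotics.isLittleO_iff]
  intro c hc
  obtain ⟨δ, hδ, h1⟩ := hG c hc
  have hδ' : 0 < min δ (T - t) := lt_min hδ (by linarith)
  filter_upwards [nhdsWithin_le_nhds (ball_mem_nhds t hδ'), self_mem_nhdsWithin] with s hs hs0
  rw [mem_ball, Real.dist_eq] at hs
  have hs0 : (0 : ℝ) ≤ s := hs0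
  have hsδ : |s - t| < δ := hs.trans_le (min_le_left _ _)
  have hsT : s ≤ T := by
    have := hs.trans_le (min_le_right _ _)
    have := (abs_lt.mp this).2
    linarith
  have htI : t ∈ Icc (0 : ℝ) T := ⟨ht, htT.le⟩
  have hsI : s ∈ Icc (0 : ℝ) T := ⟨hs0, hsT⟩
  have h2 : ∀ᶠ N in U, |v N s - v N t - (s - t) * G| ≤ c * |s - t| := by
    filter_upwards [h1, hd] with N hN hdN
    have hconv : Convex ℝ (Icc (0 : ℝ) T ∩ ball t δ) := (convex_Icc 0 T).inter (convex_ball t δ)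
    have hdd : ∀ r ∈ Icc (0 : ℝ) T ∩ ball t δ, HasDerivWithinAt (fun r => v N r - r * G)
        (v' N r - G) (Icc (0 : ℝ) T ∩ ball t δ) r := by
      intro r hr
      have e1 : HasDerivWithinAt (v N) (v' N r) (Icc (0 : ℝ) T ∩ ball t δ) r :=
        (hdN r hr.1).mono inter_subset_left
      have e2 : HasDerivWithinAt (fun s : ℝ => s * G) G (Icc (0 : ℝ) T ∩ ball t δ) r := by
        simpa using (hasDerivWithinAt_id r (Icc (0 : ℝ) T ∩ ball t δ)).mul_const G
      exact e1.sub e2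
    have hbb : ∀ r ∈ Icc (0 : ℝ) T ∩ ball t δ, ‖v' N r - G‖ ≤ c := by
      intro r hr
      rw [Real.norm_eq_abs]
      have := hr.2
      rw [mem_ball, Real.dist_eq] at this
      exact hN r hr.1 this
    have key := hconv.norm_image_sub_le_of_norm_hasDerivWithin_le hdd hbb
      (x := t) (y := s) ⟨htI, mem_ball_self hδ⟩ ⟨hsI, by rw [mem_ball, Real.dist_eq]; exact hsδ⟩
    simp only [Real.norm_eq_abs] at key
    have e : v N s - v N t - (s - t) * G = v N s - s * G - (v N t - t * G) := by ring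
    rw [e]
    exact key
  have h3 : Tendsto (fun N => |v N s - v N t - (s - t) * G|) U (𝓝 |V s - V t - (s - t) * G|) :=
    (((hlim s hsI).sub (hlim t htI)).sub_const _).abs
  have h4 := le_of_tendsto h3 h2
  rw [Real.norm_eq_abs, Real.norm_eq_abs, smul_eq_mul]
  exact h4

/-- the pointwise-in-time ultralimit of a family of curves with bounded words -/
theorem exists_curve_limit (hul : UltraStat) (U : Ultrafilter ℕ) (hU : (U : Filter ℕ) ≤ atTop)
    {v : ℕ → ℝ → SS}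
    (hv : ∀ T w, ∃ C, ∀ N : ℕ, T ≤ (N : ℝ) + 1 → ∀ t ∈ Icc (0 : ℝ) T, ∀ p, |Xw w (v N t) p| ≤ C) :
    ∃ g : ℝ → SS, ∀ t, 0 ≤ t → ∀ w, ∀ ε > 0, ∀ᶠ N in (U : Filter ℕ), ∀ p,
      |Xw w (v N t) p - Xw w (g t) p| < ε := by
  have h1 : ∀ t : ℝ, ∃ g : SS, 0 ≤ t → ∀ w, ∀ ε > 0, ∀ᶠ N in (U : Filter ℕ), ∀ p,
      |Xw w (v N t) p - Xw w g p| < ε := by
    intro t
    classical
    obtain ⟨g, hg⟩ := hul U (fun N => if 0 ≤ t ∧ t ≤ (N : ℝ) + 1 then v N t else 0) (fun w => by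
      obtain ⟨C, hC⟩ := hv t w
      refine ⟨|C|, fun N p => ?_⟩
      split_ifs with h
      · exact (hC N h.2 t ⟨h.1, le_rfl⟩ p).trans (le_abs_self C)
      · rw [Xw_zero, ss_zero, abs_zero]
        exact abs_nonneg C)
    refine ⟨g, fun ht w ε hε => ?_⟩
    have h2 := (Metric.tendstoUniformly_iff.mp (hg w)) ε hε
    have h3 : ∀ᶠ N : ℕ in (U : Filter ℕ), t ≤ (N : ℝ) + 1 := by
      apply hU
      filter_upwards [eventually_ge_atTop ⌈t⌉₊] with N hN
      have : t ≤ ⌈t⌉₊ := Nat.le_ceil t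
      have : ((⌈t⌉₊ : ℕ) : ℝ) ≤ N := by exact_mod_cast hN
      linarith
    filter_upwards [h2, h3] with N hN hN3 p
    have h4 := hN p
    rw [if_pos ⟨ht, hN3⟩, Real.dist_eq, abs_sub_comm] at h4
    exact h4
  choose g hg using h1
  exact ⟨g, hg⟩

theorem abs_Lap_le (f : SS) {δ : ℝ} (p : Sph) (h : ∀ i : Fin 3, |Xw [i, i] f p| ≤ δ) :
    |Lap f p| ≤ 3 * δ := by
  rw [Lap_eq, ss_add, ss_add]
  have h0 := h 0
  have h1 := h 1
  have h2 := h 2
  have e : ∀ i, Xw [i, i] f = X i (X i f) := fun i => rfl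
  rw [e] at h0 h1 h2
  have a1 := abs_add_le (X 0 (X 0 f) p + X 1 (X 1 f) p) (X 2 (X 2 f) p)
  have a2 := abs_add_le (X 0 (X 0 f) p) (X 1 (X 1 f) p)
  linarith

theorem tendsto_P {A : ℝ} (hA : SupB A) {P : ℕ → SS →ₗ[ℝ] SS}
    (hX : ∀ N i f, P N (X i f) = X i (P N f))
    (htail : ∀ (N : ℕ) f, ((N : ℝ) + 1) ^ 2 * I ((f - P N f) * (f - P N f)) ≤ I (Lap f * Lap f))
    (g : SS) (p : Sph) : Tendsto (fun N => P N g p) atTop (𝓝 (g p)) := by
  rw [Metric.tendsto_nhds]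
  intro ε hε
  have h1 : Tendsto (fun N : ℕ => 2 * A ^ 2 * (3 * NN 4 g) / ((N : ℝ) + 1) ^ 2) atTop (𝓝 0) := by
    have h2 : Tendsto (fun N : ℕ => ((N : ℝ) + 1) ^ 2) atTop atTop := by
      apply Filter.Tendsto.comp (tendsto_pow_atTop two_ne_zero)
      exact tendsto_atTop_add_const_right _ _ tendsto_natCast_atTop_atTop
    exact tendsto_const_nhds.div_atTop h2
  filter_upwards [h1.eventually (gt_mem_nhds (show (0 : ℝ) < ε ^ 2 by positivity))] with N hN
  have h4 := hA.sup_le (g - P N g) p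
  have h5 := tail_NN hX htail N 2 g
  have hNpos : (0 : ℝ) < ((N : ℝ) + 1) ^ 2 := by positivity
  have h8 : NN 2 (g - P N g) ≤ 3 * NN 4 g / ((N : ℝ) + 1) ^ 2 := by
    rw [le_div_iff₀ hNpos]
    norm_num at h5
    linarith
  have h9 : |(g - P N g) p| ^ 2 < ε ^ 2 := by
    refine lt_of_le_of_lt (h4.trans (mul_le_mul_of_nonneg_left h8 (by positivity))) ?_
    rw [← mul_div_assoc]
    exact hN
  rw [Real.dist_eq, abs_sub_comm]
  exact lt_of_pow_lt_pow_left₀ 2 hε.le h9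

/-- **Limit of Galerkin solutions.** -/
theorem exists_limit {A : ℝ} (hA : SupB A) (hul : UltraStat) (P : ℕ → SS →ₗ[ℝ] SS)
    (hX : ∀ N i f, P N (X i f) = X i (P N f))
    (htail : ∀ (N : ℕ) f, ((N : ℝ) + 1) ^ 2 * I ((f - P N f) * (f - P N f)) ≤ I (Lap f * Lap f))
    (Φ : SS → SS → SS)
    (hN : ∀ (s : ℕ) (K : ℝ), ∃ B, ∀ u F : SS, NN (s + 4) u ≤ K → NN (s + 4) F ≤ K →
      NN s (Φ u F) ≤ B)
    (hLip : ∀ K : ℝ, ∃ L, 0 ≤ L ∧ ∀ (u F u' F' : SS) (δ : ℝ), (∀ p, |Lap F p| ≤ K) →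
      (∀ p, |u p - u' p| ≤ δ) → (∀ p, |F p - F' p| ≤ δ) → (∀ p, |Lap F p - Lap F' p| ≤ δ) →
      ∀ p, |Φ u F p - Φ u' F' p| ≤ L * δ)
    (a b : SS)
    (hGal : ∀ (N : ℕ) (T : ℝ), 0 < T → ∃ u F : ℝ → SS, GSol (P N) Φ a b T u F)
    (hbd : ∀ (T : ℝ) (s : ℕ), ∃ B, ∀ (N : ℕ) (u F : ℝ → SS), GSol (P N) Φ a b T u F →
      ∀ t ∈ Icc (0 : ℝ) T, NN s (u t) ≤ B ∧ NN s (F t) ≤ B) :
    ∃ u F : ℝ → SS, CC (Ici 0) u ∧ CC (Ici 0) F ∧ CD (Ici 0) u (fun t => F t - 1) ∧
      CD (Ici 0) F (fun t => Φ (u t) (F t)) ∧ u 0 = a ∧ F 0 = b := by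
  -- the approximate solutions
  choose u F hs using fun N : ℕ => hGal N ((N : ℝ) + 1) (by positivity)
  have hsT : ∀ (T : ℝ) (N : ℕ), T ≤ (N : ℝ) + 1 → GSol (P N) Φ a b T (u N) (F N) :=
    fun T N h => (hs N).mono h
  -- bounds in all norms
  have hB : ∀ (T : ℝ) (s : ℕ), ∃ B, ∀ N : ℕ, T ≤ (N : ℝ) + 1 → ∀ t ∈ Icc (0 : ℝ) T,
      NN s (u N t) ≤ B ∧ NN s (F N t) ≤ B := by
    intro T s
    obtain ⟨B, hB⟩ := hbd T s
    exact ⟨B, fun N hN t ht => hB N _ _ (hsT T N hN) t ht⟩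
  have hBΦ : ∀ (T : ℝ) (s : ℕ), ∃ B, ∀ N : ℕ, T ≤ (N : ℝ) + 1 → ∀ t ∈ Icc (0 : ℝ) T,
      NN s (Φ (u N t) (F N t)) ≤ B := by
    intro T s
    obtain ⟨B, hB⟩ := hB T (s + 4)
    obtain ⟨B', hB'⟩ := hN s B
    exact ⟨B', fun N hN t ht => hB' _ _ (hB N hN t ht).1 (hB N hN t ht).2⟩
  -- bounds of the words
  have wu : ∀ T w, ∃ C, ∀ N : ℕ, T ≤ (N : ℝ) + 1 → ∀ t ∈ Icc (0 : ℝ) T, ∀ p,
      |Xw w (u N t) p| ≤ C := by
    intro T w
    obtain ⟨B, hB⟩ := hB T (2 + w.length)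
    refine ⟨√(2 * A ^ 2 * B), fun N hN t ht p => abs_le_sqrt_of ((hA.word w _ p).trans ?_)⟩
    exact mul_le_mul_of_nonneg_left (hB N hN t ht).1 (by positivity)
  have wF : ∀ T w, ∃ C, ∀ N : ℕ, T ≤ (N : ℝ) + 1 → ∀ t ∈ Icc (0 : ℝ) T, ∀ p,
      |Xw w (F N t) p| ≤ C := by
    intro T w
    obtain ⟨B, hB⟩ := hB T (2 + w.length)
    refine ⟨√(2 * A ^ 2 * B), fun N hN t ht p => abs_le_sqrt_of ((hA.word w _ p).trans ?_)⟩
    exact mul_le_mul_of_nonneg_left (hB N hN t ht).2 (by positivity)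
  have wPΦ : ∀ T w, ∃ C, ∀ N : ℕ, T ≤ (N : ℝ) + 1 → ∀ t ∈ Icc (0 : ℝ) T, ∀ p,
      |Xw w (P N (Φ (u N t) (F N t))) p| ≤ C := by
    intro T w
    obtain ⟨B, hB⟩ := hBΦ T (2 + w.length)
    obtain ⟨B', hB'⟩ := hBΦ T (2 + w.length + 2)
    refine ⟨√(2 * A ^ 2 * (2 * B + 2 * (((2 + w.length : ℕ) + 1) * B'))),
      fun N hN t ht p => abs_le_sqrt_of ((hA.word w _ p).trans ?_)⟩
    apply mul_le_mul_of_nonneg_left _ (by positivity)
    refine (NN_P_le hX htail N _ _).trans ?_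
    have h1 := hB N hN t ht
    have h2 := hB' N hN t ht
    have h3 : (((2 + w.length : ℕ) : ℝ) + 1) * NN (2 + w.length + 2) (Φ (u N t) (F N t))
        ≤ (((2 + w.length : ℕ) : ℝ) + 1) * B' :=
      mul_le_mul_of_nonneg_left h2 (by positivity)
    linarith
  -- Lipschitz bounds in time
  have lu : ∀ T w, ∃ L, ∀ N : ℕ, T ≤ (N : ℝ) + 1 → ∀ s ∈ Icc (0 : ℝ) T, ∀ t ∈ Icc (0 : ℝ) T, ∀ p,
      |Xw w (u N s) p - Xw w (u N t) p| ≤ L * |s - t| := by
    intro T w
    obtain ⟨C, hC⟩ := wF T w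
    obtain ⟨C1, hC10, hC1⟩ := exists_abs_le (Xw w 1)
    refine ⟨C + C1, fun N hN => lip_of_CD (hsT T N hN).2.2.2.2.1 w fun t ht p => ?_⟩
    rw [Xw_sub, ss_sub]
    exact (abs_sub _ _).trans (add_le_add (hC N hN t ht p) (hC1 p))
  have lF : ∀ T w, ∃ L, ∀ N : ℕ, T ≤ (N : ℝ) + 1 → ∀ s ∈ Icc (0 : ℝ) T, ∀ t ∈ Icc (0 : ℝ) T, ∀ p,
      |Xw w (F N s) p - Xw w (F N t) p| ≤ L * |s - t| := by
    intro T w
    obtain ⟨C, hC⟩ := wPΦ T w
    exact ⟨C, fun N hN => lip_of_CD (hsT T N hN).2.2.2.2.2.1 w fun t ht p => hC N hN t ht p⟩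
  -- the limit
  set U : Ultrafilter ℕ := hyperfilter ℕ with hUdef
  have hU : (U : Filter ℕ) ≤ atTop := Nat.hyperfilter_le_atTop
  obtain ⟨ul, hul1⟩ := exists_curve_limit hul U hU wu
  obtain ⟨Fl, hFl1⟩ := exists_curve_limit hul U hU wF
  have hUT : ∀ T : ℝ, ∀ᶠ N : ℕ in (U : Filter ℕ), T ≤ (N : ℝ) + 1 := by
    intro T
    apply hU
    filter_upwards [eventually_ge_atTop ⌈T⌉₊] with N hN
    have : T ≤ ⌈T⌉₊ := Nat.le_ceil T
    have : ((⌈T⌉₊ : ℕ) : ℝ) ≤ N := by exact_mod_cast hN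
    linarith
  have passL : ∀ {v : ℕ → ℝ → SS} {g : ℝ → SS}, (∀ t, 0 ≤ t → ∀ w, ∀ ε > 0,
      ∀ᶠ N in (U : Filter ℕ), ∀ p, |Xw w (v N t) p - Xw w (g t) p| < ε) →
      ∀ {T L : ℝ} {w : List (Fin 3)}, (∀ N : ℕ, T ≤ (N : ℝ) + 1 → ∀ s ∈ Icc (0 : ℝ) T,
        ∀ t ∈ Icc (0 : ℝ) T, ∀ p, |Xw w (v N s) p - Xw w (v N t) p| ≤ L * |s - t|) →
      ∀ s ∈ Icc (0 : ℝ) T, ∀ t ∈ Icc (0 : ℝ) T, ∀ p,
        |Xw w (g s) p - Xw w (g t) p| ≤ L * |s - t| := by
    intro v g hg T L w hL s hs t ht p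
    apply le_of_forall_pos_le_add
    intro ε hε
    obtain ⟨N, hN1, hN2, hN3⟩ := (((hg s hs.1 w (ε / 2) (by positivity)).and
      ((hg t ht.1 w (ε / 2) (by positivity)).and (hUT T))).exists)
    have e1 := hN1 p
    have e2 := hN2 p
    have e3 := hL N hN3 s hs t ht p
    have e4 : Xw w (g s) p - Xw w (g t) p = -(Xw w (v N s) p - Xw w (g s) p)
        + (Xw w (v N s) p - Xw w (v N t) p) + (Xw w (v N t) p - Xw w (g t) p) := by ring
    rw [e4]
    have a1 := abs_add_le (-(Xw w (v N s) p - Xw w (g s) p)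
        + (Xw w (v N s) p - Xw w (v N t) p)) (Xw w (v N t) p - Xw w (g t) p)
    have a2 := abs_add_le (-(Xw w (v N s) p - Xw w (g s) p))
        (Xw w (v N s) p - Xw w (v N t) p)
    rw [abs_neg] at a2
    linarith
  have Lu : ∀ T w, ∃ L, ∀ s ∈ Icc (0 : ℝ) T, ∀ t ∈ Icc (0 : ℝ) T, ∀ p,
      |Xw w (ul s) p - Xw w (ul t) p| ≤ L * |s - t| := fun T w => by
    obtain ⟨L, hL⟩ := lu T w
    exact ⟨L, passL hul1 hL⟩
  have LF : ∀ T w, ∃ L, ∀ s ∈ Icc (0 : ℝ) T, ∀ t ∈ Icc (0 : ℝ) T, ∀ p,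
      |Xw w (Fl s) p - Xw w (Fl t) p| ≤ L * |s - t| := fun T w => by
    obtain ⟨L, hL⟩ := lF T w
    exact ⟨L, passL hFl1 hL⟩
  have cu : CC (Ici 0) ul := CC_of_lip Lu
  have cF : CC (Ici 0) Fl := CC_of_lip LF
  -- pointwise limits
  have pt : ∀ {v : ℕ → ℝ → SS} {g : ℝ → SS}, (∀ t, 0 ≤ t → ∀ w, ∀ ε > 0,
      ∀ᶠ N in (U : Filter ℕ), ∀ p, |Xw w (v N t) p - Xw w (g t) p| < ε) →
      ∀ t, 0 ≤ t → ∀ p, Tendsto (fun N => v N t p) (U : Filter ℕ) (𝓝 (g t p)) := by
    intro v g hg t ht p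
    rw [Metric.tendsto_nhds]
    intro ε hε
    filter_upwards [hg t ht [] ε hε] with N hN
    exact hN p
  -- the local Lipschitz property in the form needed
  have locL : ∀ {g : ℝ → SS}, (∀ T w, ∃ L, ∀ s ∈ Icc (0 : ℝ) T, ∀ t ∈ Icc (0 : ℝ) T, ∀ p,
      |Xw w (g s) p - Xw w (g t) p| ≤ L * |s - t|) →
      ∀ w, ∀ t ∈ Ici (0 : ℝ), ∃ L, ∀ᶠ s in 𝓝[Ici 0] t, ∀ p,
        |Xw w (g s) p - Xw w (g t) p| ≤ L * |s - t| := by
    intro g hg w t ht
    have ht : (0 : ℝ) ≤ t := ht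
    obtain ⟨L, hL⟩ := hg (t + 1) w
    refine ⟨L, ?_⟩
    filter_upwards [nhdsWithin_le_nhds (gt_mem_nhds (show t < t + 1 by linarith)),
      self_mem_nhdsWithin] with s hs hs0 p
    exact hL s ⟨hs0, le_of_lt hs⟩ t ⟨ht, by linarith⟩ p
  -- continuity of `Φ` along the limit
  have lapB : ∀ T, ∃ K, 0 ≤ K ∧ ∀ t ∈ Icc (0 : ℝ) T, ∀ p, |Lap (Fl t) p| ≤ K := by
    intro T
    have hcT : ContinuousOn (fun z : ℝ × Sph => Lap (Fl z.1) z.2) (Icc 0 T ×ˢ univ) :=
      (cF.Lap.mono (K := Icc 0 T) (fun t ht => ht.1)) 0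
    obtain ⟨K, hK⟩ := ((isCompact_Icc (a := (0 : ℝ)) (b := T)).prod
      (isCompact_univ (X := Sph))).exists_bound_of_continuousOn hcT
    refine ⟨|K|, abs_nonneg K, fun t ht p => ?_⟩
    have := hK (t, p) ⟨ht, mem_univ p⟩
    rw [Real.norm_eq_abs] at this
    exact this.trans (le_abs_self K)
  have lapLip : ∀ {g : ℝ → SS}, (∀ T w, ∃ L, ∀ s ∈ Icc (0 : ℝ) T, ∀ t ∈ Icc (0 : ℝ) T, ∀ p,
      |Xw w (g s) p - Xw w (g t) p| ≤ L * |s - t|) →
      ∀ T, ∃ L, 0 ≤ L ∧ ∀ s ∈ Icc (0 : ℝ) T, ∀ t ∈ Icc (0 : ℝ) T, ∀ p,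
        |g s p - g t p| ≤ L * |s - t| ∧ |Lap (g s) p - Lap (g t) p| ≤ L * |s - t| := by
    intro g hg T
    obtain ⟨L0, h0⟩ := hg T []
    choose L2 h2 using fun i : Fin 3 => hg T [i, i]
    refine ⟨|L0| + 3 * (|L2 0| + |L2 1| + |L2 2|), by positivity, fun s hs t ht p => ⟨?_, ?_⟩⟩
    · refine (h0 s hs t ht p).trans (mul_le_mul_of_nonneg_right ?_ (abs_nonneg _))
      have := le_abs_self L0
      have a0 := abs_nonneg (L2 0)
      have a1 := abs_nonneg (L2 1)
      have a2 := abs_nonneg (L2 2)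
      linarith
    · have h3 := abs_Lap_le (g s - g t) (δ := (|L2 0| + |L2 1| + |L2 2|) * |s - t|) p (fun i => by
        rw [Xw_sub, ss_sub]
        refine (h2 i s hs t ht p).trans (mul_le_mul_of_nonneg_right ?_ (abs_nonneg _))
        have a0 := abs_nonneg (L2 0)
        have a1 := abs_nonneg (L2 1)
        have a2 := abs_nonneg (L2 2)
        have b0 := le_abs_self (L2 0)
        have b1 := le_abs_self (L2 1)
        have b2 := le_abs_self (L2 2)
        fin_cases i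
        · simp only [Fin.zero_eta, Fin.isValue]
          linarith
        · simp only [Fin.mk_one, Fin.isValue]
          linarith
        · simp only [Fin.reduceFinMk, Fin.isValue]
          linarith)
      rw [map_sub, ss_sub] at h3
      refine h3.trans ?_
      have e1 : 3 * ((|L2 0| + |L2 1| + |L2 2|) * |s - t|)
          = (3 * (|L2 0| + |L2 1| + |L2 2|)) * |s - t| := by ring
      rw [e1]
      exact mul_le_mul_of_nonneg_right (by linarith [abs_nonneg L0]) (abs_nonneg _)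
  have cΦ : CCn (Ici 0) 0 (fun t => Φ (ul t) (Fl t)) := by
    apply contOn_of_lip (g := fun t => Φ (ul t) (Fl t))
    intro T
    obtain ⟨K, hK0, hK⟩ := lapB T
    obtain ⟨L, hL0, hL⟩ := hLip K
    obtain ⟨L1, hL10, hL1⟩ := lapLip Lu T
    obtain ⟨L2, hL20, hL2⟩ := lapLip LF T
    refine ⟨L * (L1 + L2), fun s hs t ht p => ?_⟩
    have h1 := hL (ul s) (Fl s) (ul t) (Fl t) ((L1 + L2) * |s - t|) (hK s hs)
      (fun q => ((hL1 s hs t ht q).1).trans
        (mul_le_mul_of_nonneg_right (by linarith) (abs_nonneg _)))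
      (fun q => ((hL2 s hs t ht q).1).trans
        (mul_le_mul_of_nonneg_right (by linarith) (abs_nonneg _)))
      (fun q => ((hL2 s hs t ht q).2).trans
        (mul_le_mul_of_nonneg_right (by linarith) (abs_nonneg _))) p
    calc _ ≤ _ := h1
      _ = _ := by ring
  -- the time derivative of `u`
  have du0 : CDn (Ici 0) 0 ul (fun t => Fl t - 1) := by
    intro t ht p
    have ht : (0 : ℝ) ≤ t := ht
    refine limder (U := (U : Filter ℕ)) (v := fun N s => u N s p)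
      (v' := fun N s => (F N s - 1) p) (T := t + 1) ht (by linarith) ?_ ?_ ?_
    · filter_upwards [hUT (t + 1)] with N hN s hs
      exact ((hsT (t + 1) N hN).2.2.2.2.1 0).zero hs p
    · exact fun s hs => pt hul1 s hs.1 p
    · intro c hc
      obtain ⟨L, hL⟩ := lF (t + 1) []
      refine ⟨c / (2 * (|L| + 1)), by positivity, ?_⟩
      filter_upwards [hUT (t + 1), hFl1 t ht [] (c / 2) (by positivity)] with N hN hN2 s hs hst
      have e1 := hL N hN s hs t ⟨ht, by linarith⟩ p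
      have e2 := hN2 p
      simp only [Xw_nil] at e1 e2
      rw [ss_sub, ss_sub]
      have e3 : F N s p - (1 : SS) p - (Fl t p - (1 : SS) p) = (F N s p - F N t p)
        + (F N t p - Fl t p) := by ring
      rw [e3]
      have e4 : L * |s - t| ≤ c / 2 := by
        calc L * |s - t| ≤ (|L| + 1) * |s - t| :=
              mul_le_mul_of_nonneg_right (by linarith [le_abs_self L]) (abs_nonneg _)
          _ ≤ (|L| + 1) * (c / (2 * (|L| + 1))) :=
              mul_le_mul_of_nonneg_left hst.le (by positivity)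
          _ = c / 2 := by field_simp
      have := abs_add_le (F N s p - F N t p) (F N t p - Fl t p)
      linarith
  -- the time derivative of `F`
  have dF0 : CDn (Ici 0) 0 Fl (fun t => Φ (ul t) (Fl t)) := by
    intro t ht p
    have ht : (0 : ℝ) ≤ t := ht
    refine limder (U := (U : Filter ℕ)) (v := fun N s => F N s p)
      (v' := fun N s => P N (Φ (u N s) (F N s)) p) (T := t + 1) ht (by linarith) ?_ ?_ ?_
    · filter_upwards [hUT (t + 1)] with N hN s hs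
      exact ((hsT (t + 1) N hN).2.2.2.2.2.1 0).zero hs p
    · exact fun s hs => pt hFl1 s hs.1 p
    · intro c hc
      -- bound of the Laplacian of the approximations
      choose C2 hC2 using fun i : Fin 3 => wF (t + 1) [i, i]
      set K := 3 * (|C2 0| + |C2 1| + |C2 2|) with hK
      have hLapN : ∀ N : ℕ, t + 1 ≤ (N : ℝ) + 1 → ∀ s ∈ Icc (0 : ℝ) (t + 1), ∀ q,
          |Lap (F N s) q| ≤ K := by
        intro N hN s hs q
        refine abs_Lap_le (F N s) q (fun i => (hC2 i N hN s hs q).trans ?_)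
        have a0 := abs_nonneg (C2 0)
        have a1 := abs_nonneg (C2 1)
        have a2 := abs_nonneg (C2 2)
        have b0 := le_abs_self (C2 0)
        have b1 := le_abs_self (C2 1)
        have b2 := le_abs_self (C2 2)
        fin_cases i
        · simp only [Fin.zero_eta, Fin.isValue]
          linarith
        · simp only [Fin.mk_one, Fin.isValue]
          linarith
        · simp only [Fin.reduceFinMk, Fin.isValue]
          linarith
      obtain ⟨L, hL0, hL⟩ := hLip K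
      obtain ⟨L1, hL1⟩ := lu (t + 1) []
      obtain ⟨L2, hL2⟩ := lF (t + 1) []
      choose L3 hL3 using fun i : Fin 3 => lF (t + 1) [i, i]
      set L4 := |L1| + |L2| + 3 * (|L3 0| + |L3 1| + |L3 2|) with hL4
      have hL40 : 0 ≤ L4 := by positivity
      obtain ⟨B, hB4⟩ := hBΦ (t + 1) 4
      -- the tail is small
      have htl : ∀ᶠ N in (U : Filter ℕ), ∀ s ∈ Icc (0 : ℝ) (t + 1),
          |P N (Φ (u N s) (F N s)) p - Φ (u N s) (F N s) p| ≤ c / 2 := by
        have h1 : Tendsto (fun N : ℕ => 2 * A ^ 2 * (3 * |B|) / ((N : ℝ) + 1) ^ 2) atTop (𝓝 0) := by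
          have h2 : Tendsto (fun N : ℕ => ((N : ℝ) + 1) ^ 2) atTop atTop := by
            apply Filter.Tendsto.comp (tendsto_pow_atTop two_ne_zero)
            exact tendsto_atTop_add_const_right _ _ tendsto_natCast_atTop_atTop
          exact tendsto_const_nhds.div_atTop h2
        have h3 := (h1.mono_left hU).eventually (gt_mem_nhds (show (0 : ℝ) < (c / 2) ^ 2 by positivity))
        filter_upwards [h3, hUT (t + 1)] with N hN hNT s hs
        have h4 := hA.sup_le (P N (Φ (u N s) (F N s)) - Φ (u N s) (F N s)) p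
        have h5 := tail_NN hX htail N 2 (Φ (u N s) (F N s))
        have h6 := hB4 N hNT s hs
        have h7 : NN 2 (P N (Φ (u N s) (F N s)) - Φ (u N s) (F N s))
            = NN 2 (Φ (u N s) (F N s) - P N (Φ (u N s) (F N s))) := by
          have : P N (Φ (u N s) (F N s)) - Φ (u N s) (F N s)
            = (-1 : ℝ) • (Φ (u N s) (F N s) - P N (Φ (u N s) (F N s))) := by
            rw [neg_one_smul]; abel
          rw [this, NN_smulL]
          ring
        rw [h7] at h4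
        have hNpos : (0 : ℝ) < ((N : ℝ) + 1) ^ 2 := by positivity
        have h8 : NN 2 (Φ (u N s) (F N s) - P N (Φ (u N s) (F N s))) ≤ 3 * |B| / ((N : ℝ) + 1) ^ 2 := by
          rw [le_div_iff₀ hNpos]
          have h9 := le_abs_self B
          norm_num at h5
          linarith
        have h9 : |(P N (Φ (u N s) (F N s)) - Φ (u N s) (F N s)) p| ^ 2 < (c / 2) ^ 2 := by
          refine lt_of_le_of_lt (h4.trans (mul_le_mul_of_nonneg_left h8 (by positivity))) ?_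
          rw [← mul_div_assoc]
          exact hN
        rw [ss_sub] at h9
        exact (lt_of_pow_lt_pow_left₀ 2 (by positivity) h9).le
      set η := c / (4 * (L + 1)) with hη
      have hηpos : 0 < η := by positivity
      refine ⟨η / (L4 + 1), by positivity, ?_⟩
      have hconv : ∀ᶠ N in (U : Filter ℕ), ∀ q, |u N t q - ul t q| ≤ η ∧ |F N t q - Fl t q| ≤ η ∧
          |Lap (F N t) q - Lap (Fl t) q| ≤ η := by
        have c1 := hul1 t ht [] η hηpos
        have c2 := hFl1 t ht [] η hηpos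
        have c3 : ∀ᶠ N in (U : Filter ℕ), ∀ i : Fin 3, ∀ q,
            |Xw [i, i] (F N t) q - Xw [i, i] (Fl t) q| < η / 3 :=
          Filter.eventually_all.mpr fun i => hFl1 t ht [i, i] (η / 3) (by positivity)
        filter_upwards [c1, c2, c3] with N h1 h2 h3 q
        refine ⟨(h1 q).le, (h2 q).le, ?_⟩
        have := abs_Lap_le (F N t - Fl t) (δ := η / 3) q (fun i => by
          rw [Xw_sub, ss_sub]
          exact (h3 i q).le)
        rw [map_sub, ss_sub] at this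
        linarith
      filter_upwards [htl, hUT (t + 1), hconv] with N hN1 hN2 hN3 s hs hst
      have htI : t ∈ Icc (0 : ℝ) (t + 1) := ⟨ht, by linarith⟩
      have hst' : L4 * |s - t| ≤ η := by
        calc L4 * |s - t| ≤ (L4 + 1) * |s - t| :=
              mul_le_mul_of_nonneg_right (by linarith) (abs_nonneg _)
          _ ≤ (L4 + 1) * (η / (L4 + 1)) := mul_le_mul_of_nonneg_left hst.le (by positivity)
          _ = η := by field_simp
      have habs := abs_nonneg (s - t)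
      have k1 : ∀ q, |u N s q - ul t q| ≤ 2 * η := by
        intro q
        have e1 := hL1 N hN2 s hs t htI q
        simp only [Xw_nil] at e1
        have e2 := (hN3 q).1
        have e3 : L1 * |s - t| ≤ L4 * |s - t| := by
          apply mul_le_mul_of_nonneg_right _ habs
          have := le_abs_self L1
          have a1 := abs_nonneg L2
          have a2 := abs_nonneg (L3 0)
          have a3 := abs_nonneg (L3 1)
          have a4 := abs_nonneg (L3 2)
          linarith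
        have := abs_sub_le (u N s q) (u N t q) (ul t q)
        linarith
      have k2 : ∀ q, |F N s q - Fl t q| ≤ 2 * η := by
        intro q
        have e1 := hL2 N hN2 s hs t htI q
        simp only [Xw_nil] at e1
        have e2 := (hN3 q).2.1
        have e3 : L2 * |s - t| ≤ L4 * |s - t| := by
          apply mul_le_mul_of_nonneg_right _ habs
          have := le_abs_self L2
          have a1 := abs_nonneg L1
          have a2 := abs_nonneg (L3 0)
          have a3 := abs_nonneg (L3 1)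
          have a4 := abs_nonneg (L3 2)
          linarith
        have := abs_sub_le (F N s q) (F N t q) (Fl t q)
        linarith
      have k3 : ∀ q, |Lap (F N s) q - Lap (Fl t) q| ≤ 2 * η := by
        intro q
        have e1 := abs_Lap_le (F N s - F N t) (δ := (|L3 0| + |L3 1| + |L3 2|) * |s - t|) q
          (fun i => by
            rw [Xw_sub, ss_sub]
            refine (hL3 i N hN2 s hs t htI q).trans (mul_le_mul_of_nonneg_right ?_ habs)
            have a0 := abs_nonneg (L3 0)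
            have a1 := abs_nonneg (L3 1)
            have a2 := abs_nonneg (L3 2)
            have b0 := le_abs_self (L3 0)
            have b1 := le_abs_self (L3 1)
            have b2 := le_abs_self (L3 2)
            fin_cases i
            · simp only [Fin.zero_eta, Fin.isValue]
              linarith
            · simp only [Fin.mk_one, Fin.isValue]
              linarith
            · simp only [Fin.reduceFinMk, Fin.isValue]
              linarith)
        rw [map_sub, ss_sub] at e1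
        have e2 := (hN3 q).2.2
        have e3 : 3 * ((|L3 0| + |L3 1| + |L3 2|) * |s - t|) ≤ L4 * |s - t| := by
          rw [← mul_assoc]
          apply mul_le_mul_of_nonneg_right _ habs
          have a1 := abs_nonneg L1
          have a2 := abs_nonneg L2
          linarith
        have := abs_sub_le (Lap (F N s) q) (Lap (F N t) q) (Lap (Fl t) q)
        linarith
      have h1 := hL (u N s) (F N s) (ul t) (Fl t) (2 * η) (hLapN N hN2 s hs) k1 k2 k3 p
      have h2 := hN1 s hs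
      have h3 : L * (2 * η) ≤ c / 2 := by
        rw [hη]
        have : L * (2 * (c / (4 * (L + 1)))) = (L / (L + 1)) * (c / 2) := by field_simp; ring
        rw [this]
        have h4 : L / (L + 1) ≤ 1 := by
          rw [div_le_one (by linarith)]
          linarith
        nlinarith
      have := abs_sub_le (P N (Φ (u N s) (F N s)) p) (Φ (u N s) (F N s) p) (Φ (ul t) (Fl t) p)
      linarith
  refine ⟨ul, Fl, cu, cF, CD_of_zero hA (convex_Ici 0) du0 ((cF.sub (CC.const 1)) 0) (locL Lu),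
    CD_of_zero hA (convex_Ici 0) dF0 cΦ (locL LF), ?_, ?_⟩
  · apply ssext
    intro p
    have h1 := pt hul1 0 le_rfl p
    have h2 : (fun N => u N 0 p) = fun N => P N a p := by
      funext N
      rw [(hs N).1]
    rw [h2] at h1
    exact tendsto_nhds_unique h1 ((tendsto_P hA hX htail a p).mono_left hU)
  · apply ssext
    intro p
    have h1 := pt hFl1 0 le_rfl p
    have h2 : (fun N => F N 0 p) = fun N => P N b p := by
      funext N
      rw [(hs N).2.1]
    rw [h2] at h1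
    exact tendsto_nhds_unique h1 ((tendsto_P hA hX htail b p).mono_left hU)

end Pool.Agent.helper68.S2
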