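import Mathlib
import Pool.Agent.helper68.S2.Limit
import Pool.Agent.helper43.S2.Exit
import Pool.Agent.helper44.S2G
import Pool.Agent.helper9.S2.RegFlow
import Pool.Agent.helper24.S2Conv
import Pool.Agent.helper73.S2.Ultra
import Pool.Agent.helper99.S2P

/-!
# Existence and convergence of the flow on the sphere
-/

set_option autoImplicit false

open MeasureTheory Metric Set Filter
open scoped ContDiff Topology

namespace Pool.Agent.helper68.S2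

theorem supB_two : SupB 1 := by
  intro f p m hm
  rw [one_mul]
  exact sup_bound f p m hm

theorem ultraStat : UltraStat := fun U f hf => SpecL.ultralimit U f hf

/-- uniform bounds for Galerkin solutions -/
def GalBd (χ θ : ℝ → ℝ) (a b : SS) : Prop := ∀ (T : ℝ) (s : ℕ), ∃ B,
  ∀ (P : SS →ₗ[ℝ] SS) (u F : ℝ → SS), (∀ f g, I (P f * g) = I (f * P g)) →
  (∀ i f, P (X i f) = X i (P f)) → (∀ f, P (P f) = P f) → P 1 = 1 → u 0 = P a → F 0 = P b →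
  CC (Icc 0 T) u → CC (Icc 0 T) F → CD (Icc 0 T) u (fun t => F t - 1) →
  CD (Icc 0 T) F (fun t => P (Gc χ θ (u t) (F t) * Lap (F t) + Bc χ θ (u t) (F t))) →
  (∀ t ∈ Icc (0:ℝ) T, P (u t) = u t ∧ P (F t) = F t) →
  ∀ t ∈ Icc (0 : ℝ) T, NN s (u t) ≤ B ∧ NN s (F t) ≤ B

theorem exists_cut_sol {χ θ : ℝ → ℝ} (hχ : Nice χ) (hθ : Nice θ)
    (hN : ∀ (s : ℕ) (K : ℝ), ∃ B, ∀ u F : SS, NN (s + 4) u ≤ K → NN (s + 4) F ≤ K →
      NN s (Gc χ θ u F * Lap F + Bc χ θ u F) ≤ B)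
    (hLip : ∀ K : ℝ, ∃ L, 0 ≤ L ∧ ∀ (u F u' F' : SS) (δ : ℝ), (∀ p, |Lap F p| ≤ K) →
      (∀ p, |u p - u' p| ≤ δ) → (∀ p, |F p - F' p| ≤ δ) → (∀ p, |Lap F p - Lap F' p| ≤ δ) →
      ∀ p, |(Gc χ θ u F * Lap F + Bc χ θ u F) p - (Gc χ θ u' F' * Lap F' + Bc χ θ u' F') p|
        ≤ L * δ)
    (a b : SS) (hbd : GalBd χ θ a b) :
    ∃ u F : ℝ → SS, CC (Ici 0) u ∧ CC (Ici 0) F ∧ CD (Ici 0) u (fun t => F t - 1) ∧
      CD (Ici 0) F (fun t => Gc χ θ (u t) (F t) * Lap (F t) + Bc χ θ (u t) (F t)) ∧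
      u 0 = a ∧ F 0 = b := by
  refine exists_limit supB_two ultraStat Pi Pi_X Pi_tail
    (fun u F => Gc χ θ u F * Lap F + Bc χ θ u F) hN hLip a b ?_ ?_
  · intro N T hT
    obtain ⟨u, F, h1, h2, h3, h4, h5, h6, h7, h8⟩ :=
      galerkin χ θ hχ hθ N (Pi N a) (Pi N b) (Pi_mem N a) (Pi_mem N b) T hT
    exact ⟨u, F, h1, h2, h5, h6, h7, h8, fun t _ => ⟨Pi_eq_self (h3 t), Pi_eq_self (h4 t)⟩⟩
  · intro T s
    obtain ⟨B, hB⟩ := hbd T s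
    refine ⟨B, fun N u F h t ht => ?_⟩
    obtain ⟨h1, h2, h3, h4, h5, h6, h7⟩ := h
    exact hB (Pi N) u F (Pi_symm N) (fun i f => Pi_X N i f)
      (fun f => Pi_eq_self (Pi_mem N f)) (Pi_eq_self (one_mem_V N)) h1 h2 h3 h4 h5 h6 h7 t ht

theorem Pc_pos_Fq_pos {a : SS} (ha : ∀ p, 0 < Pc a p) (p : Sph) : 0 < Fq a p := by
  unfold Fq
  rw [ss_smul, ss_mul]
  exact mul_pos (lam_pos a) (mul_pos (Ex_pos 2 a p) (Inv_pos ha p))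

theorem Fq_eq {a : SS} (ha : ∀ p, 0 < Pc a p) : Fq a * Pc a = lam a • Ex 2 a := by
  unfold Fq
  rw [smul_mul_assoc, mul_assoc, Inv_mul ha, mul_one]

/-- the trivial flow on a single instant -/
theorem flow_point {a : SS} (ha : ∀ p, 0 < Pc a p) :
    IsFlow (Icc (0 : ℝ) 0) (fun _ => a) (fun _ => Fq a) where
  cu := CC.const a
  cF := CC.const _
  du := by
    apply CD.of_words
    intro w t ht p
    have ht0 : t = 0 := le_antisymm ht.2 ht.1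
    rw [ht0, Icc_self]
    exact HasFDerivWithinAt.singleton
  Fpos := fun t _ p => Pc_pos_Fq_pos ha p
  eq := fun t _ => Fq_eq ha

/-- **Global existence.** -/
theorem exists_flow_of
    (hN : ∀ (χ θ : ℝ → ℝ), Nice χ → Nice θ → ∀ (s : ℕ) (K : ℝ), ∃ B, ∀ u F : SS,
      NN (s + 4) u ≤ K → NN (s + 4) F ≤ K → NN s (Gc χ θ u F * Lap F + Bc χ θ u F) ≤ B)
    (hLip : ∀ (χ θ : ℝ → ℝ), Nice χ → Nice θ → ∀ K : ℝ, ∃ L, 0 ≤ L ∧
      ∀ (u F u' F' : SS) (δ : ℝ), (∀ p, |Lap F p| ≤ K) →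
      (∀ p, |u p - u' p| ≤ δ) → (∀ p, |F p - F' p| ≤ δ) → (∀ p, |Lap F p - Lap F' p| ≤ δ) →
      ∀ p, |(Gc χ θ u F * Lap F + Bc χ θ u F) p - (Gc χ θ u' F' * Lap F' + Bc χ θ u' F') p|
        ≤ L * δ)
    (hbd : ∀ (χ θ : ℝ → ℝ), Nice χ → Nice θ → (∃ c > 0, ∀ y, c ≤ χ y) → ∀ a b, GalBd χ θ a b)
    (a : SS) (ha : ∀ p, 0 < Pc a p) : ∃ u F : ℝ → SS, IsFlow (Ici 0) u F ∧ u 0 = a := by
  obtain ⟨c, C, hc, hb⟩ := bounds_all a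
  have hcC : c ≤ C := by
    have h1 := hb 0 _ _ (flow_point ha) rfl 0 ⟨le_rfl, le_rfl⟩ (proj 0)
    linarith [h1.2.2.1, h1.2.2.2.1]
  obtain ⟨χ, hχ, hχ1, hχ2⟩ := exists_cut (c := c / 2) (C := C + 1) (by positivity) (by linarith)
  obtain ⟨θ, hθ, hθ1⟩ := exists_nice_eq (ψ := fun y => y) isOpen_univ contDiffOn_id
    (a := -(C + 1)) (b := C + 1) (subset_univ _)
  obtain ⟨u, F, h1, h2, h3, h4, h5, h6⟩ := exists_cut_sol hχ hθ (hN χ θ hχ hθ) (hLip χ θ hχ hθ)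
    a (Fq a) (hbd χ θ hχ hθ hχ2 a (Fq a))
  exact ⟨u, F, Spec2E.exit_cut hχ hθ hc hcC hχ1 hθ1 ha hb h1 h2 h3 h4 h5 h6, h5⟩

/-- **Convergence.** -/
theorem flow_conv {u F : ℝ → SS} (h : IsFlow (Ici 0) u F) :
    ∃ g : SS, (∀ w, ∃ K c : ℝ, 0 < c ∧ ∀ t, 0 ≤ t → ∀ p,
      |Xw w (u t) p - Xw w g p| ≤ K * Real.exp (-c * t)) ∧ (∀ p, 0 < Pc g p) ∧ Fq g = 1 :=
  conv supB_two PL (fun u₀ s => reg_uniform u₀ s) (fun U f hf => SpecL.ultralimit U f hf) h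

end Pool.Agent.helper68.S2
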