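import Mathlib
import Pool.Agent.helper44.S2R

/-!
# Bounds for the right-hand side of the system with cutoffs
-/

set_option autoImplicit false

open MeasureTheory Metric Set Filter
open scoped ContDiff Topology

namespace Pool.Agent.helper68.S2

theorem NN_Lap_le (s : ℕ) (f : SS) : NN s (Lap f) ≤ NN (s + 2) f := by
  unfold NN
  simp only [M_Lap]
  rw [Finset.sum_range_succ' _ (s + 2), Finset.sum_range_succ' _ (s + 1)]
  have h1 := M_nonneg 0 f
  have h2 := M_nonneg (0 + 1) f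
  simp only [add_assoc, one_add_one_eq_two] at *
  linarith

theorem phi_NN {χ θ : ℝ → ℝ} (hχ : Nice χ) (hθ : Nice θ) (s : ℕ) (K : ℝ) : ∃ B,
    ∀ u F : SS, NN (s + 4) u ≤ K → NN (s + 4) F ≤ K →
      NN s (Gc χ θ u F * Lap F + Bc χ θ u F) ≤ B := by
  have h1 : UB (ι := {x : SS × SS // NN (s + 4) x.1 ≤ K ∧ NN (s + 4) x.2 ≤ K}) (s + 2)
      (fun i => Gc χ θ i.1.1 i.1.2) :=
    UB_Gc hχ hθ _ _ (by omega) (fun i => (NN_mono (by omega) _).trans i.2.1)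
      (fun i => (NN_mono (by omega) _).trans i.2.2)
  have h2 : UB (ι := {x : SS × SS // NN (s + 4) x.1 ≤ K ∧ NN (s + 4) x.2 ≤ K}) (s + 2)
      (fun i => Bc χ θ i.1.1 i.1.2) :=
    UB_Bc hχ hθ _ _ (fun i => (NN_mono (by omega) _).trans i.2.2)
  have h3 : UB (ι := {x : SS × SS // NN (s + 4) x.1 ≤ K ∧ NN (s + 4) x.2 ≤ K}) (s + 2)
      (fun i => Lap i.1.2) :=
    UB.of_NN (by omega) (K := K) (fun i => (NN_Lap_le (s + 2) i.1.2).trans i.2.2)
  obtain ⟨B, hB⟩ := ((h1.mul (by omega) h3).add h2)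
  exact ⟨B, fun u F hu hF => (NN_mono (by omega) _).trans (hB ⟨(u, F), hu, hF⟩).2⟩

theorem Nice.lip {φ : ℝ → ℝ} (h : Nice φ) : ∃ L, 0 ≤ L ∧ ∀ x y, |φ x - φ y| ≤ L * |x - y| := by
  obtain ⟨L, hL⟩ := h.deriv.bdd
  have hL0 : 0 ≤ L := (abs_nonneg _).trans (hL 0)
  refine ⟨L, hL0, fun x y => ?_⟩
  have hd : Differentiable ℝ φ := h.1.differentiable (by simp)
  have := Convex.norm_image_sub_le_of_norm_deriv_le (f := φ) (s := univ) (C := L) (x := y) (y := x)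
    (fun z _ => hd z) (fun z _ => by rw [Real.norm_eq_abs]; exact hL z) convex_univ
    (mem_univ _) (mem_univ _)
  simpa [Real.norm_eq_abs] using this

/-- bounded families at distance controlled by `δ` -/
def LB {ι : Type*} (δ f g : ι → ℝ) : Prop :=
  ∃ K, 0 ≤ K ∧ ∀ i, |f i| ≤ K ∧ |g i| ≤ K ∧ |f i - g i| ≤ K * δ i

section LBs

variable {ι : Type*} {δ f g f' g' : ι → ℝ}

theorem LB.const (hδ : ∀ i, 0 ≤ δ i) (c : ℝ) : LB δ (fun _ => c) (fun _ => c) :=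
  ⟨|c|, abs_nonneg c, fun i => ⟨le_rfl, le_rfl, by
    rw [sub_self, abs_zero]
    exact mul_nonneg (abs_nonneg c) (hδ i)⟩⟩

theorem LB.add (h : LB δ f g) (h' : LB δ f' g') :
    LB δ (fun i => f i + f' i) (fun i => g i + g' i) := by
  obtain ⟨K, hK0, hK⟩ := h
  obtain ⟨L, hL0, hL⟩ := h'
  refine ⟨K + L, by positivity, fun i => ⟨?_, ?_, ?_⟩⟩
  · exact (abs_add_le _ _).trans (add_le_add (hK i).1 (hL i).1)
  · exact (abs_add_le _ _).trans (add_le_add (hK i).2.1 (hL i).2.1)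
  · have h1 : f i + f' i - (g i + g' i) = (f i - g i) + (f' i - g' i) := by ring
    rw [h1, add_mul]
    exact (abs_add_le _ _).trans (add_le_add (hK i).2.2 (hL i).2.2)

theorem LB.mul (hδ : ∀ i, 0 ≤ δ i) (h : LB δ f g) (h' : LB δ f' g') :
    LB δ (fun i => f i * f' i) (fun i => g i * g' i) := by
  obtain ⟨K, hK0, hK⟩ := h
  obtain ⟨L, hL0, hL⟩ := h'
  refine ⟨2 * K * L, by positivity, fun i => ⟨?_, ?_, ?_⟩⟩
  · rw [abs_mul]
    have := mul_le_mul (hK i).1 (hL i).1 (abs_nonneg _) hK0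
    nlinarith [mul_nonneg hK0 hL0]
  · rw [abs_mul]
    have := mul_le_mul (hK i).2.1 (hL i).2.1 (abs_nonneg _) hK0
    nlinarith [mul_nonneg hK0 hL0]
  · have h1 : f i * f' i - g i * g' i = (f i - g i) * f' i + g i * (f' i - g' i) := by ring
    rw [h1]
    refine (abs_add_le _ _).trans ?_
    rw [abs_mul, abs_mul]
    have h2 := mul_le_mul (hK i).2.2 (hL i).1 (abs_nonneg _) (mul_nonneg hK0 (hδ i))
    have h3 := mul_le_mul (hK i).2.1 (hL i).2.2 (abs_nonneg _) hK0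
    nlinarith

theorem LB.inv {m : ℝ} (hm : 0 < m) (h : LB δ f g) (hf : ∀ i, m ≤ f i) (hg : ∀ i, m ≤ g i) :
    LB δ (fun i => (f i)⁻¹) (fun i => (g i)⁻¹) := by
  obtain ⟨K, hK0, hK⟩ := h
  refine ⟨m⁻¹ + m⁻¹ * m⁻¹ * K, by positivity, fun i => ⟨?_, ?_, ?_⟩⟩
  · rw [abs_of_pos (inv_pos.mpr (hm.trans_le (hf i)))]
    have := inv_anti₀ hm (hf i)
    have : 0 ≤ m⁻¹ * m⁻¹ * K := by positivity
    linarith
  · rw [abs_of_pos (inv_pos.mpr (hm.trans_le (hg i)))]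
    have := inv_anti₀ hm (hg i)
    have : 0 ≤ m⁻¹ * m⁻¹ * K := by positivity
    linarith
  · have hf0 := hm.trans_le (hf i)
    have hg0 := hm.trans_le (hg i)
    have h1 : (f i)⁻¹ - (g i)⁻¹ = -((f i)⁻¹ * (g i)⁻¹ * (f i - g i)) := by
      field_simp
      ring
    rw [h1, abs_neg, abs_mul, abs_mul, abs_of_pos (inv_pos.mpr hf0), abs_of_pos (inv_pos.mpr hg0)]
    have h2 := inv_anti₀ hm (hf i)
    have h3 := inv_anti₀ hm (hg i)
    have h4 : (f i)⁻¹ * (g i)⁻¹ ≤ m⁻¹ * m⁻¹ :=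
      mul_le_mul h2 h3 (inv_pos.mpr hg0).le (inv_pos.mpr hm).le
    have h5 := mul_le_mul h4 (hK i).2.2 (abs_nonneg _) (by positivity)
    have h6 : 0 ≤ K * δ i := (abs_nonneg _).trans (hK i).2.2
    have h7 : 0 ≤ m⁻¹ * δ i := by
      rcases hK0.eq_or_lt with h | h
      · rw [← h] at h6 hK
        have := hK i
        exact absurd this.1 (by
          rw [abs_of_pos hf0]
          linarith)
      · have : 0 ≤ δ i := by
          by_contra hn
          push Not at hn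
          nlinarith
        positivity
    nlinarith

theorem LB.comp {φ : ℝ → ℝ} (hφ : Nice φ) (h : ∀ i, |f i - g i| ≤ δ i) :
    LB δ (fun i => φ (f i)) (fun i => φ (g i)) := by
  obtain ⟨B, hB⟩ := hφ.bdd
  obtain ⟨L, hL0, hL⟩ := hφ.lip
  have hB0 : 0 ≤ B := (abs_nonneg _).trans (hB 0)
  refine ⟨B + L, by positivity, fun i => ⟨?_, ?_, ?_⟩⟩
  · exact (hB _).trans (by linarith)
  · exact (hB _).trans (by linarith)
  · have h1 := hL (f i) (g i)
    have h2 := h i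
    have h3 : 0 ≤ δ i := (abs_nonneg _).trans h2
    have h4 := mul_le_mul_of_nonneg_left h2 hL0
    have h5 := mul_nonneg hB0 h3
    linarith

end LBs

/-- integrals of families of functions -/
theorem LB.integral {ι : Type*} {δ : ι → ℝ} {f g : ι → SS}
    (h : LB (ι := ι × Sph) (fun i => δ i.1) (fun i => f i.1 i.2) (fun i => g i.1 i.2)) :
    LB δ (fun i => I (f i)) (fun i => I (g i)) := by
  obtain ⟨K, hK0, hK⟩ := h
  have hpi := Real.pi_pos
  refine ⟨K * (4 * Real.pi), by positivity, fun i => ⟨?_, ?_, ?_⟩⟩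
  · exact abs_I_le fun p => (hK (i, p)).1
  · exact abs_I_le fun p => (hK (i, p)).2.1
  · rw [← map_sub]
    have := abs_I_le (f := f i - g i) (C := K * δ i) fun p => by
      rw [ss_sub]
      exact (hK (i, p)).2.2
    linarith

theorem phi_lip {χ θ : ℝ → ℝ} (hχ : Nice χ) (hθ : Nice θ) (K : ℝ) : ∃ L, 0 ≤ L ∧
      ∀ (u F u' F' : SS) (δ : ℝ), (∀ p, |Lap F p| ≤ K) →
      (∀ p, |u p - u' p| ≤ δ) → (∀ p, |F p - F' p| ≤ δ) → (∀ p, |Lap F p - Lap F' p| ≤ δ) →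
      ∀ p, |(Gc χ θ u F * Lap F + Bc χ θ u F) p - (Gc χ θ u' F' * Lap F' + Bc χ θ u' F') p|
        ≤ L * δ := by
  let ι := {x : (SS × SS) × (SS × SS) × ℝ // (∀ p, |x.1.1 p - x.2.1.1 p| ≤ x.2.2) ∧
    (∀ p, |x.1.2 p - x.2.1.2 p| ≤ x.2.2)}
  let d : ι → ℝ := fun i => i.1.2.2
  have hd : ∀ i, 0 ≤ d i := fun i => (abs_nonneg _).trans (i.2.1 (proj 0))
  have hdp : ∀ i : ι × Sph, 0 ≤ d i.1 := fun i => hd i.1
  have hF : ∀ {φ : ℝ → ℝ}, Nice φ → LB (ι := ι × Sph) (fun i => d i.1)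
      (fun i => cmp φ i.1.1.1.2 i.2) (fun i => cmp φ i.1.1.2.1.2 i.2) := by
    intro φ hφ
    simp only [hφ.cmp_apply]
    exact LB.comp hφ fun i => i.1.2.2 i.2
  have hu : ∀ {φ : ℝ → ℝ}, Nice φ → LB (ι := ι × Sph) (fun i => d i.1)
      (fun i => cmp φ i.1.1.1.1 i.2) (fun i => cmp φ i.1.1.2.1.1 i.2) := by
    intro φ hφ
    simp only [hφ.cmp_apply]
    exact LB.comp hφ fun i => i.1.2.1 i.2
  have hI1 : LB d (fun i => I (cmp (fun y => Real.exp (2 * θ y)) i.1.1.1))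
      (fun i => I (cmp (fun y => Real.exp (2 * θ y)) i.1.2.1.1)) :=
    LB.integral (hu (hθ.exp_mul 2))
  have hI2 : LB d (fun i => I (cmp χ i.1.1.2 * cmp (fun y => Real.exp (2 * θ y)) i.1.1.1))
      (fun i => I (cmp χ i.1.2.1.2 * cmp (fun y => Real.exp (2 * θ y)) i.1.2.1.1)) := by
    apply LB.integral
    simp only [ss_mul]
    exact LB.mul hdp (hF hχ) (hu (hθ.exp_mul 2))
  obtain ⟨m, hm, hm'⟩ := hθ.int_exp
  have hI3 := LB.inv hm hI1 (fun i => hm' _) (fun i => hm' _)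
  have lift : ∀ {f g : ι → ℝ}, LB d f g →
      LB (ι := ι × Sph) (fun i => d i.1) (fun i => f i.1) (fun i => g i.1) := by
    rintro f g ⟨K, hK0, hK⟩
    exact ⟨K, hK0, fun i => hK i.1⟩
  have hG : LB (ι := ι × Sph) (fun i => d i.1) (fun i => Gc χ θ i.1.1.1.1 i.1.1.1.2 i.2)
      (fun i => Gc χ θ i.1.1.2.1.1 i.1.1.2.1.2 i.2) := by
    unfold Gc
    simp only [ss_smul, ss_mul, div_eq_mul_inv]
    exact LB.mul hdp (LB.mul hdp (lift hI1) (LB.const hdp _))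
      (LB.mul hdp (hF hχ.pow_two) (hu (hθ.exp_mul (-2))))
  have hB : LB (ι := ι × Sph) (fun i => d i.1) (fun i => Bc χ θ i.1.1.1.1 i.1.1.1.2 i.2)
      (fun i => Bc χ θ i.1.1.2.1.1 i.1.1.2.1.2 i.2) := by
    have h1 := LB.add (LB.mul hdp (LB.const hdp 2) (hF hχ.pow_two))
      (LB.mul hdp (LB.mul hdp (LB.const hdp (-2)) (LB.mul hdp (lift hI2) (lift hI3))) (hF hχ))
    have e1 : ∀ (u F : SS) (p : Sph), Bc χ θ u F p = 2 * cmp (fun y => χ y ^ 2) F p +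
        -2 * (I (cmp χ F * cmp (fun y => Real.exp (2 * θ y)) u) *
          (I (cmp (fun y => Real.exp (2 * θ y)) u))⁻¹) * cmp χ F p := by
      intro u F p
      unfold Bc
      rw [ss_sub, ss_smul, ss_smul, div_eq_mul_inv]
      ring
    simp only [e1]
    exact h1
  obtain ⟨A, hA0, hA⟩ := hG
  obtain ⟨B, hB0, hB⟩ := hB
  refine ⟨A * |K| + A + B, by positivity, fun u F u' F' δ hK h1 h2 h3 p => ?_⟩
  have a1 := hA (⟨((u, F), (u', F'), δ), h1, h2⟩, p)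
  have a2 := hB (⟨((u, F), (u', F'), δ), h1, h2⟩, p)
  simp only [d] at a1 a2
  have hδ : 0 ≤ δ := (abs_nonneg _).trans (h1 p)
  rw [ss_add, ss_add, ss_mul, ss_mul]
  have e : Gc χ θ u F p * Lap F p + Bc χ θ u F p - (Gc χ θ u' F' p * Lap F' p + Bc χ θ u' F' p) =
      (Gc χ θ u F p - Gc χ θ u' F' p) * Lap F p + Gc χ θ u' F' p * (Lap F p - Lap F' p) +
      (Bc χ θ u F p - Bc χ θ u' F' p) := by ring
  rw [e]
  refine (abs_add_le _ _).trans ((add_le_add_left (abs_add_le _ _) _).trans ?_)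
  rw [abs_mul, abs_mul]
  have b1 := mul_le_mul a1.2.2 ((hK p).trans (le_abs_self K)) (abs_nonneg _) (mul_nonneg hA0 hδ)
  have b2 := mul_le_mul a1.2.1 (h3 p) (abs_nonneg _) hA0
  have b3 := a2.2.2
  nlinarith

end Pool.Agent.helper68.S2
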