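import Mathlib
import Pool.Agent.helper68.S2.ExistFlow
import Pool.Agent.helper68.S2.Phi
import Pool.Agent.helper44.S2R
import Pool.Agent.helper25.S2E3
import Pool.Agent.helper25.S2A
import Pool.Agent.helper73.S2.IterBound
import Pool.Agent.helper73.S2.OfJoint

/-!
# The curvature-quotient flow on the sphere: global existence
-/

set_option autoImplicit false

open MeasureTheory Metric Set Filter
open scoped ContDiff Topology

namespace Pool.Agent.helper68.S2

/-- **Global existence** for initial data of positive curvature. -/
theorem exists_flow (a : SS) (ha : ∀ p, 0 < Pc a p) :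
    ∃ u F : ℝ → SS, IsFlow (Ici 0) u F ∧ u 0 = a :=
  exists_flow_of (fun _ _ hχ hθ s K => phi_NN hχ hθ s K)
    (fun _ _ hχ hθ K => phi_lip hχ hθ K)
    (fun _ _ hχ hθ hpos a b T s => galerkin_bounds supB_two hχ hθ hpos a b T s) a ha

end Pool.Agent.helper68.S2
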