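import Mathlib

/-!
# The curvature-quotient flow on the sphere: definitions

`Sphere` is the unit sphere of `ℝ³`, a smooth manifold in Mathlib. Smooth functions on `Sphere` and on `[0, ∞) × Sphere` are smooth
in the sense of manifolds (`ContMDiff`, `ContMDiffOn`).
-/

set_option autoImplicit false

open MeasureTheory Metric Set
open scoped ContDiff Manifold
open Laplacian

namespace Pool.Agent.helper68.S2.Own

/-- The unit sphere `S²` of `ℝ³`. -/
abbrev Sphere := sphere (0 : EuclideanSpace ℝ (Fin 3)) 1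

theorem mem_Sphere {x : EuclideanSpace ℝ (Fin 3)} (h : x ≠ 0) :
    ‖x‖⁻¹ • x ∈ sphere (0 : EuclideanSpace ℝ (Fin 3)) 1 := by
  rw [mem_sphere_zero_iff_norm, norm_smul, norm_inv, norm_norm]
  exact inv_mul_cancel₀ (norm_ne_zero_iff.mpr h)

open Classical in
/-- The extension `x ↦ f (x / |x|)` of a function `f` on the sphere to space (`0` at the origin). -/
noncomputable def hom (f : Sphere → ℝ) (x : EuclideanSpace ℝ (Fin 3)) : ℝ :=
  if h : x ≠ 0 then f ⟨‖x‖⁻¹ • x, mem_Sphere h⟩ else 0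

/-- The Laplace-Beltrami operator `Δ` of the round metric `ds²`: the Laplacian of the extension. -/
noncomputable def lap (f : Sphere → ℝ) (p : Sphere) : ℝ :=
  (Δ (hom f) : EuclideanSpace ℝ (Fin 3) → ℝ) p

/-- The area measure `dA` of the round metric. -/
noncomputable def dA : Measure Sphere := (volume : Measure (EuclideanSpace ℝ (Fin 3))).toSphere

/-- The Gauss curvature `K_u = e^(-2u) (1 - Δu)` of the metric `g_u = e^(2u) ds²`. -/
noncomputable def gauss (u : Sphere → ℝ) (p : Sphere) : ℝ := Real.exp (-2 * u p) * (1 - lap u p)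

/-- The average of `K_u` with respect to the area measure `e^(2u) dA` of `g_u`. -/
noncomputable def mean (u : Sphere → ℝ) : ℝ :=
  (∫ p, gauss u p * Real.exp (2 * u p) ∂dA) / ∫ p, Real.exp (2 * u p) ∂dA

/-- The energy `(1/4π) ∫ (|∇u|² + 2u) dA = (1/4π) ∫ u (2 - Δu) dA`. -/
noncomputable def energy (u : Sphere → ℝ) : ℝ := (∫ p, u p * (2 - lap u p) ∂dA) / (4 * Real.pi)

/-- `u` is a solution of the evolution with initial value `u₀`: smooth on `[0, ∞) × S²`, of positive
curvature, with `∂ₜ u = -1 + (mean of K_u) / K_u` (at `t = 0` the derivative from the right). -/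
structure Flow (u₀ : Sphere → ℝ) (u : ℝ → Sphere → ℝ) : Prop where
  smooth : ContMDiffOn ((𝓘(ℝ, ℝ)).prod (𝓡 2)) 𝓘(ℝ, ℝ) ∞ (fun z : ℝ × Sphere => u z.1 z.2)
    (Ici 0 ×ˢ univ)
  init : u 0 = u₀
  pos : ∀ t, 0 ≤ t → ∀ p, 0 < gauss (u t) p
  eq : ∀ t, 0 ≤ t → ∀ p,
    HasDerivWithinAt (fun s => u s p) (-1 + mean (u t) / gauss (u t) p) (Ici 0) t

end Pool.Agent.helper68.S2.Own
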