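import Mathlib
import Pool.Agent.helper68.S2.Basic

/-!
# Smooth functions on the sphere as a manifold and 0-homogeneous extensions
-/

set_option autoImplicit false

open MeasureTheory Metric Set Filter
open scoped ContDiff Topology Manifold

namespace Pool.Agent.helper68.S2

theorem fact3 : Fact (Module.finrank ℝ E3 = 2 + 1) := ⟨by simp⟩

/-- the open set of nonzero vectors -/
def OmO : TopologicalSpace.Opens E3 := ⟨{x : E3 | x ≠ 0}, isOpen_Om⟩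

theorem contMDiffAt_proj {x : E3} (hx : x ≠ 0) : ContMDiffAt 𝓘(ℝ, E3) (𝓡 2) ∞ proj x := by
  have h1 : ContMDiff 𝓘(ℝ, E3) 𝓘(ℝ, E3) ∞ (fun y : OmO => ‖(y : E3)‖⁻¹ • (y : E3)) := by
    intro y
    refine contMDiffAt_subtype_iff (f := fun z : E3 => ‖z‖⁻¹ • z).mpr ?_
    rw [contMDiffAt_iff_contDiffAt]
    have hy : (y : E3) ≠ 0 := y.2
    exact ((contDiffAt_norm ℝ hy).inv (norm_ne_zero_iff.mpr hy)).smul contDiffAt_id
  have h2 : ∀ y : OmO, ‖(y : E3)‖⁻¹ • (y : E3) ∈ sphere (0 : E3) 1 := by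
    intro y
    have hy : (y : E3) ≠ 0 := y.2
    rw [mem_sphere_zero_iff_norm, norm_smul, norm_inv, norm_norm]
    exact inv_mul_cancel₀ (norm_ne_zero_iff.mpr hy)
  have := fact3
  have h3 := h1.codRestrict_sphere (n := 2) h2
  have h4 : (Set.codRestrict (fun y : OmO => ‖(y : E3)‖⁻¹ • (y : E3)) _ h2 : OmO → Sph)
      = fun y : OmO => proj (y : E3) := by
    funext y
    apply Subtype.ext
    rw [proj_coe y.2]
    rfl
  rw [h4] at h3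
  exact contMDiffAt_subtype_iff (f := proj).mp (h3 ⟨x, hx⟩)

/-- smoothness on the sphere is smoothness of the extension -/
theorem contMDiff_iff_ext (f : Sph → ℝ) :
    ContMDiff (𝓡 2) 𝓘(ℝ, ℝ) ∞ f ↔ ContDiffOn ℝ ∞ (ext f) {x : E3 | x ≠ 0} := by
  constructor
  · intro h x hx
    have h1 : ContMDiffAt 𝓘(ℝ, E3) 𝓘(ℝ, ℝ) ∞ (fun y : E3 => f (proj y)) x :=
      (h (proj x)).comp x (contMDiffAt_proj hx)
    exact (contMDiffAt_iff_contDiffAt.mp h1).contDiffWithinAt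
  · intro h p
    have h1 : ContMDiffAt 𝓘(ℝ, E3) 𝓘(ℝ, ℝ) ∞ (ext f) (p : E3) :=
      contMDiffAt_iff_contDiffAt.mpr ((h p (sph_ne_zero p)).contDiffAt
        (isOpen_Om.mem_nhds (sph_ne_zero p)))
    have := fact3
    have h2 : ContMDiffAt (𝓡 2) 𝓘(ℝ, E3) ∞ (fun q : Sph => (q : E3)) p :=
      (contMDiff_coe_sphere (E := E3) (n := 2)) p
    have h3 : ContMDiffAt (𝓡 2) 𝓘(ℝ, ℝ) ∞ (fun q : Sph => ext f (q : E3)) p :=
      ContMDiffAt.comp (g := ext f) p h1 h2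
    have h4 : (fun q : Sph => ext f (q : E3)) = f := funext fun q => ext_sph f q
    rwa [h4] at h3

/-- joint smoothness -/
theorem contDiffOn_of_joint {u : ℝ → Sph → ℝ}
    (h : ContMDiffOn ((𝓘(ℝ, ℝ)).prod (𝓡 2)) 𝓘(ℝ, ℝ) ∞ (fun z : ℝ × Sph => u z.1 z.2)
      (Ici 0 ×ˢ univ)) :
    ContDiffOn ℝ ∞ (fun z : ℝ × E3 => ext (u z.1) z.2) (Ici 0 ×ˢ {x : E3 | x ≠ 0}) := by
  rw [← contMDiffOn_iff_contDiffOn, modelWithCornersSelf_prod, ← chartedSpaceSelf_prod]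
  rintro ⟨t, x⟩ ⟨ht, hx⟩
  have h1 : ContMDiffAt ((𝓘(ℝ, ℝ)).prod 𝓘(ℝ, E3)) ((𝓘(ℝ, ℝ)).prod (𝓡 2)) ∞
      (fun z : ℝ × E3 => ((z.1, proj z.2) : ℝ × Sph)) (t, x) := by
    refine ContMDiffAt.prodMk contMDiffAt_fst ?_
    exact ContMDiffAt.comp (g := proj) (t, x) (contMDiffAt_proj hx) contMDiffAt_snd
  exact ContMDiffWithinAt.comp (g := fun z : ℝ × Sph => u z.1 z.2) (t, x)
    (h (t, proj x) (Set.mk_mem_prod ht (mem_univ _))) h1.contMDiffWithinAt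
    (by intro z hz; exact Set.mk_mem_prod hz.1 (mem_univ _))

theorem joint_of_contDiffOn {u : ℝ → Sph → ℝ}
    (h : ContDiffOn ℝ ∞ (fun z : ℝ × E3 => ext (u z.1) z.2) (Ici 0 ×ˢ {x : E3 | x ≠ 0})) :
    ContMDiffOn ((𝓘(ℝ, ℝ)).prod (𝓡 2)) 𝓘(ℝ, ℝ) ∞ (fun z : ℝ × Sph => u z.1 z.2)
      (Ici 0 ×ˢ univ) := by
  rw [← contMDiffOn_iff_contDiffOn, modelWithCornersSelf_prod, ← chartedSpaceSelf_prod] at h
  rintro ⟨t, p⟩ ⟨ht, -⟩
  have h1 : ContMDiffAt ((𝓘(ℝ, ℝ)).prod (𝓡 2)) ((𝓘(ℝ, ℝ)).prod 𝓘(ℝ, E3)) ∞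
      (fun z : ℝ × Sph => ((z.1, (z.2 : E3)) : ℝ × E3)) (t, p) := by
    have := fact3
    refine ContMDiffAt.prodMk contMDiffAt_fst ?_
    exact ContMDiffAt.comp (g := fun q : Sph => (q : E3)) (t, p)
      ((contMDiff_coe_sphere (E := E3) (n := 2)) p) contMDiffAt_snd
  have h2 := ContMDiffWithinAt.comp (g := fun z : ℝ × E3 => ext (u z.1) z.2) (t, p)
    (h (t, (p : E3)) (Set.mk_mem_prod ht (sph_ne_zero p))) (h1.contMDiffWithinAt (s := Ici 0 ×ˢ univ))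
    (by intro z hz; exact Set.mk_mem_prod hz.1 (sph_ne_zero z.2))
  have h4 : (fun z : ℝ × Sph => ext (u z.1) (z.2 : E3)) = fun z : ℝ × Sph => u z.1 z.2 :=
    funext fun z => ext_sph _ _
  have h5 : (fun z : ℝ × E3 => ext (u z.1) z.2) ∘ (fun z : ℝ × Sph => ((z.1, (z.2 : E3)) : ℝ × E3))
      = fun z : ℝ × Sph => u z.1 z.2 := h4
  rwa [h5] at h2

end Pool.Agent.helper68.S2
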