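import Pool.Agent.helper68.S2.Main
import Pool.Agent.helper68.S2.OwnSm
import Pool.Agent.helper68.S2.OwnDefs

/-!
# The curvature-quotient flow on the sphere: exponential convergence
-/

set_option autoImplicit false

open MeasureTheory Metric Set Filter
open scoped ContDiff Topology Manifold

namespace Pool.Agent.helper68.S2.Own

theorem hom_eq (f : Sphere → ℝ) {x : E3} (hx : x ≠ 0) : hom f x = ext f x := by
  unfold hom ext
  rw [dif_pos hx]
  congr 1
  apply Subtype.ext
  exact (proj_coe hx).symm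

theorem hom_eventually (f : Sphere → ℝ) {x : E3} (hx : x ≠ 0) : hom f =ᶠ[𝓝 x] ext f := by
  filter_upwards [isOpen_Om.mem_nhds hx] with y hy
  exact hom_eq f hy

theorem lap_eq (f : SS) (p : Sph) : lap f p = Lap f p := by
  unfold lap
  rw [(InnerProductSpace.laplacian_congr_nhds
      (hom_eventually f (sph_ne_zero p))).eq_of_nhds,
    InnerProductSpace.laplacian_eq_iteratedFDeriv_orthonormalBasis _
      (EuclideanSpace.basisFun (Fin 3) ℝ), Lap_iteratedFDeriv]
  refine Finset.sum_congr rfl fun i _ => ?_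
  rw [EuclideanSpace.basisFun_apply]

theorem gauss_eq (f : SS) (p : Sph) : gauss f p = Real.exp (-2 * f p) * Pc f p := by
  unfold gauss Pc
  rw [lap_eq, ss_sub, ss_one]

theorem gauss_mul (f : SS) (p : Sph) : gauss f p * Real.exp (2 * f p) = Pc f p := by
  rw [gauss_eq]
  have h : Real.exp (-2 * f p) * Real.exp (2 * f p) = 1 := by
    rw [← Real.exp_add]
    ring_nf
    exact Real.exp_zero
  linear_combination (Pc f p) * h

theorem area_eq (f : SS) : (∫ p, Real.exp (2 * f p) ∂dA) = ar f := by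
  unfold ar
  rw [I_apply]
  refine integral_congr_ae (Eventually.of_forall fun q => ?_)
  change Real.exp (2 * f q) = Ex 2 f q
  rw [Ex_apply]

theorem mean_eq (f : SS) : mean f = lam f := by
  unfold mean lam
  rw [area_eq]
  congr 1
  rw [← I_Pc f, I_apply]
  exact integral_congr_ae (Eventually.of_forall fun q => gauss_mul f q)

theorem rhs_eq (f : SS) (p : Sph) :
    -1 + mean f / gauss f p = -1 + lam f * Real.exp (2 * f p) / Pc f p := by
  rw [mean_eq, gauss_eq]
  have h3 : Real.exp (-2 * f p) = (Real.exp (2 * f p))⁻¹ := by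
    rw [← Real.exp_neg]
    ring_nf
  rw [h3]
  have h4 := (Real.exp_pos (2 * f p)).ne'
  by_cases h5 : Pc f p = 0
  · rw [h5]; simp
  · field_simp

theorem gauss_pos_iff (f : SS) (p : Sph) : 0 < gauss f p ↔ 0 < Pc f p := by
  rw [gauss_eq]
  exact ⟨fun h => (pos_iff_pos_of_mul_pos h).mp (Real.exp_pos _),
    fun h => mul_pos (Real.exp_pos _) h⟩

theorem exists_SS {f : Sphere → ℝ} (h : ContMDiff (𝓡 2) 𝓘(ℝ, ℝ) ∞ f) :
    ∃ a : SS, (a.1 : Sphere → ℝ) = f :=
  ⟨⟨f, (mem_SS f).mpr ((contMDiff_iff_ext f).mp h)⟩, rfl⟩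

/-- Global existence. -/
theorem flow_exists {u₀ : Sphere → ℝ} (hs : ContMDiff (𝓡 2) 𝓘(ℝ, ℝ) ∞ u₀)
    (hK : ∀ p, 0 < gauss u₀ p) : ∃ u, Flow u₀ u := by
  obtain ⟨a, rfl⟩ := exists_SS hs
  have hPa : ∀ p, 0 < Pc a p := fun p => (gauss_pos_iff a p).mp (hK p)
  obtain ⟨u, F, h, h0⟩ := exists_flow a hPa
  refine ⟨fun t => (u t).1, joint_of_contDiffOn (u := fun t => (u t).1) (flow_joint_smooth h), ?_,
    ?_, ?_⟩
  · change (u 0).1 = a.1
    rw [h0]
  · intro t ht p
    exact (gauss_pos_iff (u t) p).mpr (h.Ppos (mem_Ici.mpr ht) p)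
  · intro t ht p
    have h2 : HasDerivWithinAt (fun s => u s p) ((F t - 1) p) (Ici 0) t :=
      (h.du 0) t (mem_Ici.mpr ht) p
    have h3 : (F t - 1) p = -1 + mean (u t) / gauss (u t) p := by
      rw [rhs_eq, ss_sub, ss_one, h.F_apply (mem_Ici.mpr ht)]
      ring
    rw [h3] at h2
    exact h2

theorem bound_shift {u : ℝ → SS} {g : SS} (cu : CC (Ici 0) u) (w : List (Fin 3))
    (h : ∃ K c : ℝ, 0 < c ∧ ∀ t, 0 ≤ t → ∀ p,
      |Xw w (u (t + 1)) p - Xw w g p| ≤ K * Real.exp (-c * t)) :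
    ∃ K c : ℝ, 0 < c ∧ ∀ t, 0 ≤ t → ∀ p, |Xw w (u t) p - Xw w g p| ≤ K * Real.exp (-c * t) := by
  obtain ⟨K, c, hc, hb⟩ := h
  have h1 : ContinuousOn (fun z : ℝ × Sph => Xw w (u z.1) z.2) (Ici 0 ×ˢ univ) :=
    ((cu.Xw w) 0)
  have h2 : ContinuousOn (fun z : ℝ × Sph => |Xw w (u z.1) z.2 - Xw w g z.2|)
      (Icc (0 : ℝ) 1 ×ˢ (univ : Set Sph)) := by
    have hcg : Continuous (fun z : ℝ × Sph => Xw w g z.2) :=
      (continuous_ss (Xw w g)).comp continuous_snd
    exact ((h1.mono (prod_mono Icc_subset_Ici_self subset_rfl)).sub hcg.continuousOn).abs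
  obtain ⟨M, hM⟩ := (isCompact_Icc.prod isCompact_univ).bddAbove_image h2
  refine ⟨(|K| + |M|) * Real.exp c, c, hc, fun t ht p => ?_⟩
  by_cases h01 : t ≤ 1
  · have h3 : |Xw w (u t) p - Xw w g p| ≤ M :=
      hM ⟨(t, p), ⟨⟨ht, h01⟩, mem_univ _⟩, rfl⟩
    have h4 : 1 ≤ Real.exp c * Real.exp (-c * t) := by
      rw [← Real.exp_add]
      apply Real.one_le_exp
      nlinarith
    have h5 : M ≤ |K| + |M| := by
      have := le_abs_self M
      have := abs_nonneg K
      linarith
    have h6 : 0 ≤ |K| + |M| := by positivity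
    calc _ ≤ |K| + |M| := h3.trans h5
      _ ≤ (|K| + |M|) * (Real.exp c * Real.exp (-c * t)) := le_mul_of_one_le_right h6 h4
      _ = _ := by ring
  · push Not at h01
    have h3 := hb (t - 1) (by linarith) p
    rw [sub_add_cancel] at h3
    have h4 : Real.exp (-c * (t - 1)) = Real.exp c * Real.exp (-c * t) := by
      rw [← Real.exp_add]
      ring_nf
    rw [h4] at h3
    have h5 : K ≤ |K| + |M| := by
      have := le_abs_self K
      have := abs_nonneg M
      linarith
    calc _ ≤ K * (Real.exp c * Real.exp (-c * t)) := h3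
      _ ≤ (|K| + |M|) * (Real.exp c * Real.exp (-c * t)) :=
        mul_le_mul_of_nonneg_right h5 (by positivity)
      _ = _ := by ring

/-- uniform constants for all words of bounded length -/
theorem uniform_words {v : ℝ → List (Fin 3) → Sph → ℝ}
    (h : ∀ w, ∃ K c : ℝ, 0 < c ∧ ∀ t, 0 ≤ t → ∀ p, |v t w p| ≤ K * Real.exp (-c * t)) (k : ℕ) :
    ∃ K c : ℝ, 0 < c ∧ ∀ t, 0 ≤ t → ∀ w : List (Fin 3), w.length ≤ k → ∀ p,
      |v t w p| ≤ K * Real.exp (-c * t) := by
  choose K c hc hb using h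
  set S : Finset (List (Fin 3)) := (List.finite_length_le (Fin 3) k).toFinset with hS
  have hmem : ∀ w, w ∈ S ↔ w.length ≤ k := fun w => by
    rw [hS, Set.Finite.mem_toFinset]
    rfl
  have hne : S.Nonempty := ⟨[], (hmem []).mpr (Nat.zero_le _)⟩
  refine ⟨∑ w ∈ S, |K w|, S.inf' hne c, (Finset.lt_inf'_iff hne).mpr fun w _ => hc w,
    fun t ht w hw p => ?_⟩
  have hwS := (hmem w).mpr hw
  have h1 : K w ≤ ∑ w ∈ S, |K w| :=
    (le_abs_self _).trans (Finset.single_le_sum (f := fun w => |K w|)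
      (fun _ _ => abs_nonneg _) hwS)
  have h2 : S.inf' hne c ≤ c w := Finset.inf'_le c hwS
  have h3 : Real.exp (-c w * t) ≤ Real.exp (-(S.inf' hne c) * t) := by
    apply Real.exp_le_exp.mpr
    nlinarith
  have h4 : 0 ≤ ∑ w ∈ S, |K w| := Finset.sum_nonneg fun _ _ => abs_nonneg _
  calc |v t w p| ≤ K w * Real.exp (-c w * t) := hb w t ht p
    _ ≤ (∑ w ∈ S, |K w|) * Real.exp (-c w * t) :=
      mul_le_mul_of_nonneg_right h1 (Real.exp_pos _).le
    _ ≤ _ := mul_le_mul_of_nonneg_left h3 h4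

/-! ### Decay of all derivatives -/

/-- one word of derivatives decays exponentially -/
def Dw (w : List (Fin 3)) (v : ℝ → SS) : Prop :=
  ∃ K c : ℝ, 0 < c ∧ ∀ t, 0 ≤ t → ∀ p, |Xw w (v t) p| ≤ K * Real.exp (-c * t)

/-- one word of derivatives is bounded -/
def Bw (w : List (Fin 3)) (v : ℝ → SS) : Prop :=
  ∃ K : ℝ, ∀ t, 0 ≤ t → ∀ p, |Xw w (v t) p| ≤ K

theorem Dw.bw {w : List (Fin 3)} {v : ℝ → SS} (h : Dw w v) : Bw w v := by
  obtain ⟨K, c, hc, hb⟩ := h
  refine ⟨|K|, fun t ht p => (hb t ht p).trans ?_⟩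
  have h1 : Real.exp (-c * t) ≤ 1 := by
    rw [Real.exp_le_one_iff]
    nlinarith
  calc K * Real.exp (-c * t) ≤ |K| * Real.exp (-c * t) :=
        mul_le_mul_of_nonneg_right (le_abs_self _) (Real.exp_pos _).le
    _ ≤ |K| := mul_le_of_le_one_right (abs_nonneg _) h1

theorem Dw.add {w : List (Fin 3)} {v v' : ℝ → SS} (h : Dw w v) (h' : Dw w v') :
    Dw w (fun t => v t + v' t) := by
  obtain ⟨K, c, hc, hb⟩ := h
  obtain ⟨K', c', hc', hb'⟩ := h'
  refine ⟨|K| + |K'|, min c c', lt_min hc hc', fun t ht p => ?_⟩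
  have h1 : Real.exp (-c * t) ≤ Real.exp (-(min c c') * t) := by
    apply Real.exp_le_exp.mpr
    have := min_le_left c c'
    nlinarith
  have h2 : Real.exp (-c' * t) ≤ Real.exp (-(min c c') * t) := by
    apply Real.exp_le_exp.mpr
    have := min_le_right c c'
    nlinarith
  rw [Xw_add, ss_add]
  have h3 : K * Real.exp (-c * t) ≤ |K| * Real.exp (-(min c c') * t) :=
    (mul_le_mul_of_nonneg_right (le_abs_self _) (Real.exp_pos _).le).trans
      (mul_le_mul_of_nonneg_left h1 (abs_nonneg _))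
  have h4 : K' * Real.exp (-c' * t) ≤ |K'| * Real.exp (-(min c c') * t) :=
    (mul_le_mul_of_nonneg_right (le_abs_self _) (Real.exp_pos _).le).trans
      (mul_le_mul_of_nonneg_left h2 (abs_nonneg _))
  calc |Xw w (v t) p + Xw w (v' t) p| ≤ |Xw w (v t) p| + |Xw w (v' t) p| := abs_add_le _ _
    _ ≤ K * Real.exp (-c * t) + K' * Real.exp (-c' * t) := add_le_add (hb t ht p) (hb' t ht p)
    _ ≤ |K| * Real.exp (-(min c c') * t) + |K'| * Real.exp (-(min c c') * t) := add_le_add h3 h4
    _ = _ := by ring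

theorem Bw.add {w : List (Fin 3)} {v v' : ℝ → SS} (h : Bw w v) (h' : Bw w v') :
    Bw w (fun t => v t + v' t) := by
  obtain ⟨K, hb⟩ := h
  obtain ⟨K', hb'⟩ := h'
  refine ⟨K + K', fun t ht p => ?_⟩
  rw [Xw_add, ss_add]
  exact (abs_add_le _ _).trans (add_le_add (hb t ht p) (hb' t ht p))

theorem Bw.smul {w : List (Fin 3)} {v : ℝ → SS} (h : Bw w v) (r : ℝ) :
    Bw w (fun t => r • v t) := by
  obtain ⟨K, hb⟩ := h
  refine ⟨|r| * K, fun t ht p => ?_⟩
  rw [Xw_smul, ss_smul, abs_mul]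
  exact mul_le_mul_of_nonneg_left (hb t ht p) (abs_nonneg _)

theorem Bw.mul (w : List (Fin 3)) {a b : ℝ → SS} (ha : ∀ w, Bw w a) (hb : ∀ w, Bw w b) :
    Bw w (fun t => a t * b t) := by
  induction w generalizing a b with
  | nil =>
    obtain ⟨K, hK⟩ := ha []
    obtain ⟨L, hL⟩ := hb []
    refine ⟨|K| * |L|, fun t ht p => ?_⟩
    change |(a t * b t) p| ≤ _
    rw [ss_mul, abs_mul]
    exact mul_le_mul ((hK t ht p).trans (le_abs_self _)) ((hL t ht p).trans (le_abs_self _))
      (abs_nonneg _) (abs_nonneg _)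
  | cons i w ih =>
    have h1 := (ih (a := fun t => X i (a t)) (b := b) (fun w => ha (i :: w)) hb).add
      (ih (a := a) (b := fun t => X i (b t)) ha (fun w => hb (i :: w)))
    obtain ⟨K, hK⟩ := h1
    refine ⟨K, fun t ht p => ?_⟩
    have := hK t ht p
    beta_reduce at this
    rw [← X_mul] at this
    exact this

theorem Dw.mul (w : List (Fin 3)) {a b : ℝ → SS} (ha : ∀ w, Dw w a) (hb : ∀ w, Bw w b) :
    Dw w (fun t => a t * b t) := by
  induction w generalizing a b with
  | nil =>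
    obtain ⟨K, c, hc, hK⟩ := ha []
    obtain ⟨L, hL⟩ := hb []
    refine ⟨|K| * |L|, c, hc, fun t ht p => ?_⟩
    change |(a t * b t) p| ≤ _
    rw [ss_mul, abs_mul]
    have h1 : |a t p| ≤ |K| * Real.exp (-c * t) :=
      (hK t ht p).trans (mul_le_mul_of_nonneg_right (le_abs_self _) (Real.exp_pos _).le)
    calc |a t p| * |b t p| ≤ (|K| * Real.exp (-c * t)) * |L| :=
          mul_le_mul h1 ((hL t ht p).trans (le_abs_self _)) (abs_nonneg _) (by positivity)
      _ = _ := by ring
  | cons i w ih =>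
    have h1 := (ih (a := fun t => X i (a t)) (b := b) (fun w => ha (i :: w)) hb).add
      (ih (a := a) (b := fun t => X i (b t)) ha (fun w => hb (i :: w)))
    obtain ⟨K, c, hc, hK⟩ := h1
    refine ⟨K, c, hc, fun t ht p => ?_⟩
    have := hK t ht p
    beta_reduce at this
    rw [← X_mul] at this
    exact this

theorem Bw.const (w : List (Fin 3)) (g : SS) : Bw w (fun _ => g) := by
  obtain ⟨M, hM⟩ := (isCompact_univ (X := Sph)).bddAbove_image
    (continuous_ss (Xw w g)).abs.continuousOn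
  exact ⟨M, fun t _ p => hM ⟨p, mem_univ _, rfl⟩⟩

theorem exp_sub_le {x y M : ℝ} (hx : x ≤ M) (hy : y ≤ M) :
    |Real.exp x - Real.exp y| ≤ Real.exp M * |x - y| := by
  have key : ∀ {x y : ℝ}, y ≤ x → x ≤ M → Real.exp x - Real.exp y ≤ Real.exp M * (x - y) := by
    intro x y hxy hxM
    have h1 : Real.exp y = Real.exp x * Real.exp (y - x) := by
      rw [← Real.exp_add]
      ring_nf
    have h2 : 1 + (y - x) ≤ Real.exp (y - x) := by
      have := Real.add_one_le_exp (y - x)
      linarith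
    have h3 : Real.exp x - Real.exp y ≤ Real.exp x * (x - y) := by
      rw [h1]
      have := (Real.exp_pos x).le
      nlinarith
    exact h3.trans (mul_le_mul_of_nonneg_right (Real.exp_le_exp.mpr hxM) (by linarith))
  rcases le_total y x with h | h
  · rw [abs_of_nonneg (sub_nonneg.mpr (Real.exp_le_exp.mpr h)), abs_of_nonneg (sub_nonneg.mpr h)]
    exact key h hx
  · rw [abs_sub_comm, abs_sub_comm x y,
      abs_of_nonneg (sub_nonneg.mpr (Real.exp_le_exp.mpr h)), abs_of_nonneg (sub_nonneg.mpr h)]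
    exact key h hy

/-- decay passes to the exponential -/
theorem Dw.exp {u : ℝ → SS} {g : SS} (h : ∀ w, Dw w (fun t => u t - g)) (w : List (Fin 3))
    {b : ℝ → SS} (hb : ∀ w, Bw w b) : Dw w (fun t => (Ex 2 (u t) - Ex 2 g) * b t) := by
  have hu : ∀ w, Bw w u := by
    intro w
    have h1 := (h w).bw.add (Bw.const w g)
    obtain ⟨K, hK⟩ := h1
    refine ⟨K, fun t ht p => ?_⟩
    have := hK t ht p
    beta_reduce at this
    rwa [sub_add_cancel] at this
  induction w generalizing b with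
  | nil =>
    obtain ⟨K, c, hc, hK⟩ := h []
    obtain ⟨L, hL⟩ := hb []
    obtain ⟨M, hM⟩ := hu []
    obtain ⟨M', hM'⟩ := Bw.const [] g
    refine ⟨Real.exp (2 * max M M') * (2 * |K|) * |L|, c, hc, fun t ht p => ?_⟩
    change |((Ex 2 (u t) - Ex 2 g) * b t) p| ≤ _
    rw [ss_mul, abs_mul, ss_sub, Ex_apply, Ex_apply]
    have h0 : |u t p - g p| ≤ K * Real.exp (-c * t) := hK t ht p
    have h1 : |Real.exp (2 * u t p) - Real.exp (2 * g p)| ≤
        Real.exp (2 * max M M') * |2 * u t p - 2 * g p| := by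
      apply exp_sub_le
      · have := (le_abs_self (u t p)).trans ((hM t ht p).trans (le_max_left M M'))
        linarith
      · have := (le_abs_self (g p)).trans ((hM' t ht p).trans (le_max_right M M'))
        linarith
    have h2 : |2 * u t p - 2 * g p| ≤ 2 * |K| * Real.exp (-c * t) := by
      rw [← mul_sub, abs_mul, abs_two]
      have := mul_le_mul_of_nonneg_right (le_abs_self K) (Real.exp_pos (-c * t)).le
      linarith
    have h3 : |b t p| ≤ |L| := (hL t ht p).trans (le_abs_self _)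
    calc |Real.exp (2 * u t p) - Real.exp (2 * g p)| * |b t p|
        ≤ (Real.exp (2 * max M M') * (2 * |K| * Real.exp (-c * t))) * |L| :=
          mul_le_mul (h1.trans (mul_le_mul_of_nonneg_left h2 (Real.exp_pos _).le)) h3
            (abs_nonneg _) (by positivity)
      _ = _ := by ring
  | cons i w ih =>
    have hb1 : ∀ w, Bw w (fun t => X i (b t) + (2 : ℝ) • (b t * X i (u t))) := fun w =>
      (show Bw w (fun t => X i (b t)) from hb (i :: w)).add
        ((Bw.mul w (a := b) (b := fun t => X i (u t)) hb (fun w => hu (i :: w))).smul 2)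
    have h1 := ih hb1
    have hd : ∀ w, Dw w (fun t => X i (u t) - X i g) := by
      intro w
      obtain ⟨K, c, hc, hK⟩ := h (i :: w)
      refine ⟨K, c, hc, fun t ht p => ?_⟩
      have := hK t ht p
      rwa [Xw_cons, map_sub] at this
    have h2 : Dw w (fun t => (X i (u t) - X i g) * ((2 : ℝ) • (Ex 2 g * b t))) :=
      Dw.mul w hd (fun w => (Bw.mul w (fun w => Bw.const w (Ex 2 g)) hb).smul 2)
    obtain ⟨K, c, hc, hK⟩ := h1.add h2
    refine ⟨K, c, hc, fun t ht p => ?_⟩
    have h3 := hK t ht p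
    have h4 : (Ex 2 (u t) - Ex 2 g) * (X i (b t) + (2 : ℝ) • (b t * X i (u t))) +
        (X i (u t) - X i g) * ((2 : ℝ) • (Ex 2 g * b t)) =
        X i ((Ex 2 (u t) - Ex 2 g) * b t) := by
      rw [X_mul, map_sub, X_Ex, X_Ex]
      apply ssext
      intro p
      simp only [ss_add, ss_sub, ss_mul, ss_smul]
      ring
    simp only [h4] at h3
    exact h3

/-! ### The energy and the curvature of the limit -/

theorem En_parts (f : SS) : En f = I (f * ((2 : ℝ) • 1 - Lap f)) := by
  have h : ∀ i : Fin 3, I (X i f * X i f) = - I (f * X i (X i f)) := by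
    intro i
    have h1 := I_X i (f * X i f)
    rw [X_mul, map_add] at h1
    linarith
  unfold En
  rw [Fin.sum_univ_three, h 0, h 1, h 2, Lap_eq, mul_sub, mul_add, mul_add, map_sub, map_add,
    map_add, mul_smul_comm, mul_one, map_smul, smul_eq_mul]
  ring

theorem energy_eq (f : SS) : energy f = En f / (4 * Real.pi) := by
  unfold energy
  rw [En_parts, I_apply]
  congr 1
  refine integral_congr_ae (Eventually.of_forall fun q => ?_)
  change f q * (2 - lap f q) = (f * ((2 : ℝ) • 1 - Lap f)) q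
  rw [lap_eq, ss_mul, ss_sub, ss_smul, ss_one, mul_one]

theorem Dn_eq_zero {g : SS} (hP : ∀ p, 0 < Pc g p) (hF : Fq g = 1) : Dn g = 0 := by
  obtain ⟨C0, _, h0⟩ := exists_le g
  obtain ⟨C1, _, h1⟩ := exists_le (-g)
  have hX : ∀ i : Fin 3, ∃ C, ∀ p, |X i g p| ≤ C := by
    intro i
    obtain ⟨C, _, h⟩ := exists_le (X i g)
    obtain ⟨C', _, h'⟩ := exists_le (-X i g)
    refine ⟨max C C', fun p => abs_le'.mpr ⟨(h p).trans (le_max_left _ _), ?_⟩⟩
    have := h' p
    rw [ss_neg] at this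
    exact this.trans (le_max_right _ _)
  choose D hD using hX
  obtain ⟨C2, _, h2⟩ := exists_le (Pc g)
  obtain ⟨p0, _, hp0⟩ := (isCompact_univ (X := Sph)).exists_isMinOn
    ⟨proj 0, mem_univ _⟩ (continuous_ss (Pc g)).continuousOn
  set C : ℝ := max (max C0 C1) (max (max (D 0) (max (D 1) (D 2))) C2) with hC
  obtain ⟨B, hB⟩ := PL (Pc g p0) C (hP p0)
  have h3 := hB g ?_ ?_ ?_ ?_
  · have hY : Yn g = 0 := by
      unfold Yn
      rw [hF, sub_self, zero_mul, zero_mul, map_zero]
    rw [hY, mul_zero] at h3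
    exact abs_eq_zero.mp (le_antisymm h3 (abs_nonneg _))
  · intro p
    have h4 := h1 p
    rw [ss_neg] at h4
    exact abs_le'.mpr ⟨(h0 p).trans ((le_max_left _ _).trans (le_max_left _ _)),
      h4.trans ((le_max_right _ _).trans (le_max_left _ _))⟩
  · intro i p
    refine (hD i p).trans ?_
    have h5 : D i ≤ max (D 0) (max (D 1) (D 2)) := by
      fin_cases i
      · exact le_max_left _ _
      · exact (le_max_left _ _).trans (le_max_right _ _)
      · exact (le_max_right _ _).trans (le_max_right _ _)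
    exact h5.trans ((le_max_left _ _).trans (le_max_right _ _))
  · intro p
    exact hp0 (mem_univ p)
  · intro p
    exact (h2 p).trans ((le_max_right _ _).trans (le_max_right _ _))

theorem lam_limit {g : SS} (hP : ∀ p, 0 < Pc g p) (hF : Fq g = 1) :
    lam g = Real.exp (-(En g / (4 * Real.pi))) := by
  have h := Dn_eq_zero hP hF
  unfold Dn at h
  have hpi := Real.pi_pos
  have ha := ar_pos g
  have h1 : En g / (4 * Real.pi) = Real.log (ar g / (4 * Real.pi)) := by linarith
  rw [h1, Real.exp_neg, Real.exp_log (by positivity)]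
  unfold lam
  rw [inv_div]

theorem gauss_limit {g : SS} (hP : ∀ p, 0 < Pc g p) (hF : Fq g = 1) (p : Sph) :
    gauss g p = lam g := by
  rw [gauss_eq]
  have h1 : Fq g p = 1 := by rw [hF, ss_one]
  have h2 : Fq g p = lam g * (Real.exp (2 * g p) * (Pc g p)⁻¹) := by
    unfold Fq
    rw [ss_smul, ss_mul, Ex_apply, Inv_apply hP]
  rw [h2] at h1
  have h4 : Real.exp (-2 * g p) = (Real.exp (2 * g p))⁻¹ := by
    rw [← Real.exp_neg]
    ring_nf
  rw [h4]
  have h5 := (Real.exp_pos (2 * g p)).ne'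
  have h6 := (hP p).ne'
  field_simp at h1 ⊢
  linarith

theorem I_tendsto {f : ℝ → SS} {h : SS} (hd : Dw [] (fun t => f t - h)) :
    Tendsto (fun t => I (f t)) atTop (𝓝 (I h)) := by
  obtain ⟨K, c, hc, hK⟩ := hd
  rw [tendsto_iff_norm_sub_tendsto_zero]
  have h1 : Tendsto (fun t : ℝ => K * Real.exp (-c * t) * (4 * Real.pi)) atTop (𝓝 0) := by
    have h2 : Tendsto (fun t : ℝ => Real.exp (-c * t)) atTop (𝓝 0) :=
      Real.tendsto_exp_atBot.comp (tendsto_id.const_mul_atTop_of_neg (by linarith))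
    have h3 := (h2.const_mul K).mul_const (4 * Real.pi)
    simpa using h3
  refine squeeze_zero' (Eventually.of_forall fun t => norm_nonneg _) ?_ h1
  filter_upwards [eventually_ge_atTop 0] with t ht
  rw [Real.norm_eq_abs, ← map_sub]
  exact abs_I_le fun p => hK t ht p

theorem En_tendsto {u : ℝ → SS} {g : SS} (h : ∀ w, Dw w (fun t => u t - g)) :
    Tendsto (fun t => En (u t)) atTop (𝓝 (En g)) := by
  have hu : ∀ w, Bw w u := by
    intro w
    obtain ⟨K, hK⟩ := (h w).bw.add (Bw.const w g)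
    refine ⟨K, fun t ht p => ?_⟩
    have := hK t ht p
    beta_reduce at this
    rwa [sub_add_cancel] at this
  have h1 : ∀ i : Fin 3, Tendsto (fun t => I (X i (u t) * X i (u t))) atTop
      (𝓝 (I (X i g * X i g))) := by
    intro i
    apply I_tendsto
    have hd : ∀ w, Dw w (fun t => X i (u t) - X i g) := by
      intro w
      obtain ⟨K, c, hc, hK⟩ := h (i :: w)
      refine ⟨K, c, hc, fun t ht p => ?_⟩
      have := hK t ht p
      rwa [Xw_cons, map_sub] at this
    have hs : ∀ w, Bw w (fun t => X i (u t) + X i g) := fun w =>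
      (show Bw w (fun t => X i (u t)) from hu (i :: w)).add (Bw.const w (X i g))
    have h2 := Dw.mul [] hd hs
    have h3 : (fun t => X i (u t) * X i (u t) - X i g * X i g) =
        fun t => (X i (u t) - X i g) * (X i (u t) + X i g) := by
      funext t
      ring
    rw [h3]
    exact h2
  have h2 : Tendsto (fun t => I (u t)) atTop (𝓝 (I g)) := I_tendsto (h [])
  unfold En
  exact (tendsto_finsetSum _ fun i _ => h1 i).add (h2.const_mul 2)

theorem En_cont {u : ℝ → SS} (cu : CC (Ici 0) u) : ContinuousOn (fun t => En (u t)) (Ici 0) := by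
  unfold En
  exact (continuousOn_finsetSum _ fun i _ => I_cont (((cu.X i).mul (cu.X i)) 0)).add
    (continuousOn_const.mul (I_cont (cu 0)))

/-- Exponential convergence of every smooth solution. -/
theorem flow_limit {u₀ : Sphere → ℝ} {U : ℝ → Sphere → ℝ} (h : Flow u₀ U) :
    ∃ w : Sphere → ℝ, ContMDiff (𝓡 2) 𝓘(ℝ, ℝ) ∞ w ∧
      (∀ p, gauss w p = Real.exp (-energy u₀)) ∧
      ∀ k : ℕ, ∃ C c : ℝ, 0 < c ∧ ∀ t : ℝ, 0 ≤ t → ∀ p : Sphere,
        ‖iteratedFDeriv ℝ k (fun x => hom (U t) x - hom w x) p‖ ≤ C * Real.exp (-c * t) ∧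
        ‖iteratedFDeriv ℝ k (fun x => Real.exp (2 * hom (U t) x) - Real.exp (2 * hom w x)) p‖ ≤
          C * Real.exp (-c * t) := by
  have hj := contDiffOn_of_joint h.smooth
  obtain ⟨u, v, huv, cu, cv, duv⟩ := SpecL.of_joint (U := fun t x => ext (U t) x)
    (hj.congr fun z hz => ext_smul _ (inv_pos.mpr (norm_pos_iff.mpr hz.2)) _)
  have hU : ∀ t, 0 ≤ t → (u t).1 = U t := by
    intro t ht
    funext p
    exact (huv t ht p).trans (ext_sph _ p)
  have hP : ∀ t, 0 ≤ t → ∀ p : Sph, 0 < Pc (u t) p := by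
    intro t ht p
    have h1 := h.pos t ht p
    rw [← hU t ht] at h1
    exact (gauss_pos_iff (u t) p).mp h1
  have hv : ∀ t, 0 < t → ∀ p : Sph,
      v t p = -1 + lam (u t) * Real.exp (2 * u t p) / Pc (u t) p := by
    intro t ht p
    have h1 : HasDerivAt (fun s => u s p) (v t p) t :=
      ((duv 0) t ht p).hasDerivAt (Ioi_mem_nhds ht)
    have h2 : HasDerivAt (fun s => U s p) (-1 + mean (U t) / gauss (U t) p) t :=
      (h.eq t ht.le p).hasDerivAt (Ici_mem_nhds ht)
    rw [← hU t ht.le, rhs_eq] at h2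
    have h3 : (fun s => u s p) =ᶠ[𝓝 t] fun s => U s p := by
      filter_upwards [Ioi_mem_nhds ht] with s hs
      exact congrFun (hU s (le_of_lt hs)) p
    exact h1.unique (h2.congr_of_eventuallyEq h3)
  have hflow : ∀ ε : ℝ, 0 < ε → IsFlow (Ici 0) (fun t => u (t + ε)) (fun t => v (t + ε) + 1) := by
    intro ε hε
    have hsh : ∀ t ∈ Ici (0 : ℝ), t + ε ∈ Ici (0 : ℝ) := fun t ht => by
      rw [mem_Ici] at ht ⊢
      linarith
    have hsh' : ∀ t ∈ Ici (0 : ℝ), t + ε ∈ Ioi (0 : ℝ) := fun t ht => by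
      rw [mem_Ici] at ht
      rw [mem_Ioi]
      linarith
    have hF : ∀ t ∈ Ici (0 : ℝ), ∀ p, (v (t + ε) + 1) p
        = lam (u (t + ε)) * Real.exp (2 * u (t + ε) p) / Pc (u (t + ε)) p := by
      intro t ht p
      rw [ss_add, ss_one, hv (t + ε) (hsh' t ht) p]
      ring
    refine ⟨fun n => AsmA.CCn.shift ε (cu n) hsh, ?_, ?_, ?_, ?_⟩
    · have h1 : CC (Ici 0) (fun t => v (t + ε)) := fun n => AsmA.CCn.shift ε (cv n) hsh'
      exact h1.add (CC.const 1)
    · have h1 : CD (Ici 0) (fun t => u (t + ε)) (fun t => v (t + ε)) :=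
        fun n => AsmA.CDn.shift ε (duv n) hsh'
      refine h1.congr (fun _ _ => rfl) fun t _ => ?_
      rw [add_sub_cancel_right]
    · intro t ht p
      rw [hF t ht p]
      exact div_pos (mul_pos (lam_pos _) (Real.exp_pos _)) (hP (t + ε) (hsh t ht) p)
    · intro t ht
      apply ssext
      intro p
      rw [ss_mul, hF t ht p, ss_smul, Ex_apply]
      exact div_mul_cancel₀ _ (hP (t + ε) (hsh t ht) p).ne'
  -- the energy is constant
  have hE1 : ∀ s t, 0 < s → s ≤ t → En (u t) = En (u s) := by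
    intro s t hs hst
    have h1 := ((hflow s hs).mono (K := Icc 0 (t - s)) Icc_subset_Ici_self).En_eq
      (t := t - s) ⟨by linarith, le_rfl⟩
    beta_reduce at h1
    rwa [sub_add_cancel, zero_add] at h1
  have hE : ∀ t, 0 < t → En (u t) = En (u 0) := by
    intro t ht
    have h1 : Tendsto (fun s => En (u s)) (𝓝[>] 0) (𝓝 (En (u 0))) :=
      ((En_cont cu) 0 (mem_Ici.mpr le_rfl)).mono_left (nhdsWithin_mono 0 Ioi_subset_Ici_self)
    have h2 : Tendsto (fun s => En (u s)) (𝓝[>] 0) (𝓝 (En (u t))) := by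
      refine tendsto_const_nhds.congr' ?_
      filter_upwards [Ioo_mem_nhdsGT ht] with s hs
      exact hE1 s t hs.1 hs.2.le
    exact tendsto_nhds_unique h2 h1
  obtain ⟨g, hg, hgP, hgF⟩ := flow_conv (hflow 1 one_pos)
  have hD : ∀ w, Dw w (fun t => u t - g) := by
    intro w
    obtain ⟨K, c, hc, hK⟩ := bound_shift cu w (hg w)
    refine ⟨K, c, hc, fun t ht p => ?_⟩
    rw [Xw_sub, ss_sub]
    exact hK t ht p
  have hDE : ∀ w, Dw w (fun t => Ex 2 (u t) - Ex 2 g) := by
    intro w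
    have h1 := Dw.exp hD w (b := fun _ => 1) (fun w => Bw.const w 1)
    simpa only [mul_one] using h1
  have hEg : En g = En (u 0) := by
    refine tendsto_nhds_unique (En_tendsto hD) ?_
    refine tendsto_const_nhds.congr' ?_
    filter_upwards [eventually_gt_atTop 0] with t ht
    exact (hE t ht).symm
  refine ⟨g.1, (contMDiff_iff_ext _).mpr g.2, fun p => ?_, fun k => ?_⟩
  · rw [gauss_limit hgP hgF, lam_limit hgP hgF, hEg, ← energy_eq, hU 0 le_rfl, h.init]
  · obtain ⟨K1, c1, hc1, h1⟩ := uniform_words (v := fun t w p => Xw w (u t - g) p) hD k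
    obtain ⟨K2, c2, hc2, h2⟩ := uniform_words
      (v := fun t w p => Xw w (Ex 2 (u t) - Ex 2 g) p) hDE k
    obtain ⟨C, hC⟩ := SpecL.iteratedFDeriv_le k
    refine ⟨|C| * (|K1| + |K2|), min c1 c2, lt_min hc1 hc2, fun t ht p => ?_⟩
    have e1 : Real.exp (-c1 * t) ≤ Real.exp (-(min c1 c2) * t) := by
      apply Real.exp_le_exp.mpr
      have := min_le_left c1 c2
      nlinarith
    have e2 : Real.exp (-c2 * t) ≤ Real.exp (-(min c1 c2) * t) := by
      apply Real.exp_le_exp.mpr
      have := min_le_right c1 c2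
      nlinarith
    have b1 : K1 * Real.exp (-c1 * t) ≤ (|K1| + |K2|) * Real.exp (-(min c1 c2) * t) := by
      have : K1 ≤ |K1| + |K2| := (le_abs_self K1).trans (le_add_of_nonneg_right (abs_nonneg _))
      exact (mul_le_mul_of_nonneg_right this (Real.exp_pos _).le).trans
        (mul_le_mul_of_nonneg_left e1 (by positivity))
    have b2 : K2 * Real.exp (-c2 * t) ≤ (|K1| + |K2|) * Real.exp (-(min c1 c2) * t) := by
      have : K2 ≤ |K1| + |K2| := (le_abs_self K2).trans (le_add_of_nonneg_left (abs_nonneg _))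
      exact (mul_le_mul_of_nonneg_right this (Real.exp_pos _).le).trans
        (mul_le_mul_of_nonneg_left e2 (by positivity))
    have key : ∀ (G : E3 → ℝ) (f : SS), (∀ x : E3, x ≠ 0 → G x = ext f x) →
        (∀ w : List (Fin 3), w.length ≤ k → ∀ q,
          |Xw w f q| ≤ (|K1| + |K2|) * Real.exp (-(min c1 c2) * t)) →
        ‖iteratedFDeriv ℝ k G p‖ ≤ |C| * (|K1| + |K2|) * Real.exp (-(min c1 c2) * t) := by
      intro G f hG hf
      have h3 : G =ᶠ[𝓝 (p : E3)] ext f := by
        filter_upwards [isOpen_Om.mem_nhds (sph_ne_zero p)] with x hx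
        exact hG x hx
      rw [(Filter.EventuallyEq.iteratedFDeriv ℝ h3 k).eq_of_nhds]
      refine (hC f _ hf p).trans ?_
      rw [mul_assoc]
      exact mul_le_mul_of_nonneg_right (le_abs_self C) (by positivity)
    constructor
    · refine key _ (u t - g) (fun x hx => ?_) (fun w hw q => (h1 t ht w hw q).trans b1)
      rw [hom_eq _ hx, hom_eq _ hx, ← hU t ht]
      rfl
    · refine key _ (Ex 2 (u t) - Ex 2 g) (fun x hx => ?_)
        (fun w hw q => (h2 t ht w hw q).trans b2)
      rw [hom_eq _ hx, hom_eq _ hx, ← hU t ht]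
      change Real.exp (2 * u t (proj x)) - Real.exp (2 * g (proj x)) =
        (Ex 2 (u t) - Ex 2 g) (proj x)
      rw [ss_sub, Ex_apply, Ex_apply]

end Pool.Agent.helper68.S2.Own
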